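import Mathlib

/-!
The class of functions `∑ r_λ(ξ) exp (i λ ω(ξ))`, with `ω = sqrt (ξ² + m²)` and `r_λ` polynomial
in `ξ` and `1/ω`.  A nonzero function of the class has, at every point, a derivative of bounded
order that is bounded below by a negative power of `1 + |ξ|`.
-/

namespace Pool.Agent.Lib.MP_24bb3f_an

open Set Filter Topology Complex
open scoped ContDiff

noncomputable def om (m ξ : ℝ) : ℝ := Real.sqrt (ξ ^ 2 + m ^ 2)

variable {m : ℝ}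

theorem om_pos (hm : 0 < m) (ξ : ℝ) : 0 < om m ξ := Real.sqrt_pos.2 (by positivity)

theorem om_sq (m ξ : ℝ) : om m ξ ^ 2 = ξ ^ 2 + m ^ 2 := Real.sq_sqrt (by positivity)

theorem om_neg (m ξ : ℝ) : om m (-ξ) = om m ξ := by simp [om]

theorem le_om (_hm : 0 < m) (ξ : ℝ) : m ≤ om m ξ :=
  Real.le_sqrt_of_sq_le (by nlinarith [sq_nonneg ξ])

theorem abs_le_om (m ξ : ℝ) : |ξ| ≤ om m ξ :=
  Real.le_sqrt_of_sq_le (by rw [sq_abs]; nlinarith [sq_nonneg m])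

theorem om_le (hm : 0 < m) (ξ : ℝ) : om m ξ ≤ |ξ| + m := by
  refine Real.sqrt_le_iff.2 ⟨by positivity, ?_⟩
  have := sq_abs ξ
  nlinarith [abs_nonneg ξ]

theorem hasDerivAt_om (hm : 0 < m) (ξ : ℝ) : HasDerivAt (om m) (ξ * (om m ξ)⁻¹) ξ := by
  have h1 : HasDerivAt (fun ξ : ℝ => ξ ^ 2 + m ^ 2) (2 * ξ) ξ := by
    simpa using (hasDerivAt_pow 2 ξ).add_const (m ^ 2)
  have h2 := h1.sqrt (by positivity)
  have := om_pos hm ξ
  unfold om at this ⊢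
  refine h2.congr_deriv ?_
  field_simp

theorem analyticAt_om (hm : 0 < m) (ξ : ℝ) : AnalyticAt ℝ (om m) ξ := by
  have h1 : ContDiffAt ℝ ω (fun ξ : ℝ => ξ ^ 2 + m ^ 2) ξ := by fun_prop
  exact (h1.sqrt (by positivity)).analyticAt

theorem analyticAt_ofReal {f : ℝ → ℝ} {x : ℝ} (hf : AnalyticAt ℝ f x) :
    AnalyticAt ℝ (fun y => (f y : ℂ)) x :=
  (ofRealCLM.analyticAt (f x)).comp hf

/-- Polynomials in `ξ` and `1/ω`. -/
inductive Cf (m : ℝ) : (ℝ → ℂ) → Prop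
  | const (c : ℂ) : Cf m fun _ => c
  | id : Cf m fun ξ => (ξ : ℂ)
  | inv : Cf m fun ξ => (((om m ξ)⁻¹ : ℝ) : ℂ)
  | add {f g : ℝ → ℂ} : Cf m f → Cf m g → Cf m fun ξ => f ξ + g ξ
  | mul {f g : ℝ → ℂ} : Cf m f → Cf m g → Cf m fun ξ => f ξ * g ξ

theorem Cf.congr {f g : ℝ → ℂ} (hf : Cf m f) (h : ∀ ξ, g ξ = f ξ) : Cf m g := by
  rw [show g = f from funext h]; exact hf

theorem Cf.analyticAt (hm : 0 < m) {f : ℝ → ℂ} (hf : Cf m f) (ξ : ℝ) : AnalyticAt ℝ f ξ := by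
  induction hf with
  | const c => exact analyticAt_const
  | id => exact ofRealCLM.analyticAt ξ
  | inv => exact analyticAt_ofReal ((analyticAt_om hm ξ).inv (om_pos hm ξ).ne')
  | add _ _ h1 h2 => exact h1.add h2
  | mul _ _ h1 h2 => exact h1.mul h2

theorem Cf.deriv (hm : 0 < m) {f : ℝ → ℂ} (hf : Cf m f) : Cf m (deriv f) := by
  induction hf with
  | const c => exact (Cf.const 0).congr fun ξ => by simp
  | id => exact (Cf.const 1).congr fun ξ => (ofRealCLM.hasDerivAt (x := ξ)).deriv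
  | inv =>
    refine ((Cf.const (-1)).mul (Cf.id.mul (Cf.inv.mul (Cf.inv.mul Cf.inv)))).congr fun ξ => ?_
    have h := ((hasDerivAt_om hm ξ).inv (om_pos hm ξ).ne').ofReal_comp
    have h' : HasDerivAt (fun ξ => (((om m ξ)⁻¹ : ℝ) : ℂ)) _ ξ := h
    rw [h'.deriv]
    have : (om m ξ : ℂ) ≠ 0 := by exact_mod_cast (om_pos hm ξ).ne'
    push_cast
    field_simp
  | @add f g hf hg h1 h2 =>
    refine (h1.add h2).congr fun ξ => ?_
    exact deriv_fun_add (hf.analyticAt hm ξ).differentiableAt (hg.analyticAt hm ξ).differentiableAt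
  | @mul f g hf hg h1 h2 =>
    refine ((h1.mul hg).add (hf.mul h2)).congr fun ξ => ?_
    exact deriv_fun_mul (hf.analyticAt hm ξ).differentiableAt (hg.analyticAt hm ξ).differentiableAt

/-- Polynomial bound. -/
def PolyBd {F : Type} [NormedAddCommGroup F] (f : ℝ → F) : Prop :=
  ∃ (C : ℝ) (p : ℕ), 0 < C ∧ ∀ ξ, ‖f ξ‖ ≤ C * (1 + |ξ|) ^ p

theorem one_le_w (ξ : ℝ) : 1 ≤ 1 + |ξ| := by linarith [abs_nonneg ξ]

theorem w_pow_mono (ξ : ℝ) {p q : ℕ} (h : p ≤ q) : (1 + |ξ|) ^ p ≤ (1 + |ξ|) ^ q :=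
  pow_le_pow_right₀ (one_le_w ξ) h

theorem PolyBd.add {F : Type} [NormedAddCommGroup F] {f g : ℝ → F} (hf : PolyBd f)
    (hg : PolyBd g) : PolyBd fun ξ => f ξ + g ξ := by
  obtain ⟨C, p, hC, h1⟩ := hf
  obtain ⟨D, q, hD, h2⟩ := hg
  refine ⟨C + D, max p q, by positivity, fun ξ => (norm_add_le _ _).trans ?_⟩
  have h3 := mul_le_mul_of_nonneg_left (w_pow_mono ξ (le_max_left p q)) hC.le
  have h4 := mul_le_mul_of_nonneg_left (w_pow_mono ξ (le_max_right p q)) hD.le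
  linarith [h1 ξ, h2 ξ]

theorem PolyBd.mul {f g : ℝ → ℂ} (hf : PolyBd f) (hg : PolyBd g) : PolyBd fun ξ => f ξ * g ξ := by
  obtain ⟨C, p, hC, h1⟩ := hf
  obtain ⟨D, q, hD, h2⟩ := hg
  refine ⟨C * D, p + q, by positivity, fun ξ => ?_⟩
  rw [norm_mul, pow_add]
  calc ‖f ξ‖ * ‖g ξ‖ ≤ (C * (1 + |ξ|) ^ p) * (D * (1 + |ξ|) ^ q) :=
        mul_le_mul (h1 ξ) (h2 ξ) (norm_nonneg _) (by positivity)
    _ = _ := by ring

theorem Cf.polyBd (hm : 0 < m) {f : ℝ → ℂ} (hf : Cf m f) : PolyBd f := by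
  induction hf with
  | const c => exact ⟨‖c‖ + 1, 0, by positivity, fun ξ => by simp⟩
  | id => exact ⟨1, 1, one_pos, fun ξ => by simp⟩
  | inv =>
    refine ⟨m⁻¹, 0, by positivity, fun ξ => ?_⟩
    rw [norm_real, Real.norm_eq_abs, abs_of_pos (inv_pos.2 (om_pos hm ξ)), pow_zero, mul_one]
    exact inv_anti₀ hm (le_om hm ξ)
  | add _ _ h1 h2 => exact h1.add h2
  | mul _ _ h1 h2 => exact h1.mul h2

theorem Cf.comp_neg {f : ℝ → ℂ} (hf : Cf m f) : Cf m fun ξ => f (-ξ) := by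
  induction hf with
  | const c => exact Cf.const c
  | id => exact ((Cf.const (-1)).mul Cf.id).congr fun ξ => by simp
  | inv => exact Cf.inv.congr fun ξ => by simp only [om_neg]
  | add _ _ h1 h2 => exact h1.add h2
  | mul _ _ h1 h2 => exact h1.mul h2

open Polynomial in
theorem Cf.rational (hm : 0 < m) {f : ℝ → ℂ} (hf : Cf m f) :
    ∃ (P : ℂ[X]) (N : ℕ), ∀ ξ : ℝ,
      f ξ * (((ξ + om m ξ) * ((ξ + om m ξ) ^ 2 + m ^ 2) : ℝ) : ℂ) ^ N =
        P.eval ((ξ + om m ξ : ℝ) : ℂ) := by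
  induction hf with
  | const c => exact ⟨C c, 0, fun ξ => by simp⟩
  | id =>
    refine ⟨C (1 / 2 : ℂ) * (X ^ 2 - C ((m : ℂ) ^ 2)) * (X ^ 2 + C ((m : ℂ) ^ 2)), 1, fun ξ => ?_⟩
    have h : (om m ξ : ℂ) ^ 2 = (ξ : ℂ) ^ 2 + (m : ℂ) ^ 2 := by exact_mod_cast om_sq m ξ
    simp only [eval_mul, eval_sub, eval_add, eval_pow, eval_C, eval_X]
    push_cast
    linear_combination (-(1 / 2) * ((ξ + om m ξ : ℂ) ^ 2 + (m : ℂ) ^ 2)) * h
  | inv =>
    refine ⟨C (2 : ℂ) * X ^ 2, 1, fun ξ => ?_⟩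
    have h : (om m ξ : ℂ) ^ 2 = (ξ : ℂ) ^ 2 + (m : ℂ) ^ 2 := by exact_mod_cast om_sq m ξ
    have h0 : (om m ξ : ℂ) ≠ 0 := by exact_mod_cast (om_pos hm ξ).ne'
    simp only [eval_mul, eval_pow, eval_C, eval_X]
    push_cast
    field_simp
    linear_combination (-(ξ + om m ξ : ℂ)) * h
  | @add f g _ _ h1 h2 =>
    obtain ⟨P, N, hP⟩ := h1
    obtain ⟨Q, M, hQ⟩ := h2
    refine ⟨P * (X * (X ^ 2 + C ((m : ℂ) ^ 2))) ^ M + Q * (X * (X ^ 2 + C ((m : ℂ) ^ 2))) ^ N,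
      N + M, fun ξ => ?_⟩
    simp only [eval_mul, eval_add, eval_pow, eval_C, eval_X, ← hP ξ, ← hQ ξ]
    push_cast
    ring
  | @mul f g _ _ h1 h2 =>
    obtain ⟨P, N, hP⟩ := h1
    obtain ⟨Q, M, hQ⟩ := h2
    refine ⟨P * Q, N + M, fun ξ => ?_⟩
    simp only [eval_mul, ← hP ξ, ← hQ ξ]
    ring

open Polynomial in
theorem poly_lower {P : ℂ[X]} (hP : P ≠ 0) :
    ∃ c : ℝ, 0 < c ∧ ∀ᶠ z : ℝ in atTop, c ≤ ‖P.eval (z : ℂ)‖ := by
  by_cases hd : 0 < P.degree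
  · have h1 : Tendsto (fun z : ℝ => ‖(z : ℂ)‖) atTop atTop := by
      simpa using tendsto_abs_atTop_atTop
    have h2 := P.tendsto_norm_atTop hd h1
    exact ⟨1, one_pos, h2.eventually_ge_atTop 1⟩
  · have h1 := eq_C_of_degree_le_zero (not_lt.1 hd)
    have h2 : P.coeff 0 ≠ 0 := fun h => hP (by rw [h1, h, map_zero])
    refine ⟨‖P.coeff 0‖, norm_pos_iff.2 h2, Eventually.of_forall fun z => ?_⟩
    conv_rhs => rw [h1, eval_C]

theorem Cf.lower (hm : 0 < m) {f : ℝ → ℂ} (hf : Cf m f) :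
    (∀ ξ, f ξ = 0) ∨ ∃ (c : ℝ) (M : ℕ), 0 < c ∧ ∀ᶠ ξ in atTop, c ≤ ‖f ξ‖ * (1 + |ξ|) ^ M := by
  obtain ⟨P, N, hP⟩ := hf.rational hm
  have hz : ∀ ξ : ℝ, 0 < ξ + om m ξ := by
    intro ξ
    have h1 : |ξ| < om m ξ := Real.lt_sqrt_of_sq_lt (by rw [sq_abs]; nlinarith)
    linarith [neg_abs_le ξ]
  by_cases h0 : P = 0
  · left
    intro ξ
    have h1 := hP ξ
    rw [h0, Polynomial.eval_zero] at h1
    have h2 : 0 < (ξ + om m ξ) * ((ξ + om m ξ) ^ 2 + m ^ 2) := by have := hz ξ; positivity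
    exact (mul_eq_zero.1 h1).resolve_right (pow_ne_zero _ (by exact_mod_cast h2.ne'))
  · right
    obtain ⟨c, hc, hev⟩ := poly_lower h0
    have ht : Tendsto (fun ξ : ℝ => ξ + om m ξ) atTop atTop :=
      tendsto_atTop_mono (f := fun ξ => ξ) (fun ξ => by linarith [om_pos hm ξ]) tendsto_id
    set A := (2 + m) * ((2 + m) ^ 2 + m ^ 2) with hA
    have hA0 : 0 < A := by positivity
    refine ⟨c / A ^ N, 3 * N, by positivity, ?_⟩
    filter_upwards [ht.eventually hev] with ξ hξ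
    rw [← hP ξ, norm_mul, norm_pow, norm_real, Real.norm_eq_abs] at hξ
    have h2 : 0 < (ξ + om m ξ) * ((ξ + om m ξ) ^ 2 + m ^ 2) := by have := hz ξ; positivity
    have hw := one_le_w ξ
    have h3 : ξ + om m ξ ≤ (2 + m) * (1 + |ξ|) := by
      have := om_le hm ξ
      have := le_abs_self ξ
      nlinarith [abs_nonneg ξ]
    have h4 : (ξ + om m ξ) ^ 2 + m ^ 2 ≤ ((2 + m) ^ 2 + m ^ 2) * (1 + |ξ|) ^ 2 := by
      have h5 : (ξ + om m ξ) ^ 2 ≤ ((2 + m) * (1 + |ξ|)) ^ 2 :=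
        pow_le_pow_left₀ (hz ξ).le h3 2
      have h6 : 1 ≤ (1 + |ξ|) ^ 2 := one_le_pow₀ hw
      nlinarith [sq_nonneg m]
    have h7 : (ξ + om m ξ) * ((ξ + om m ξ) ^ 2 + m ^ 2) ≤ A * (1 + |ξ|) ^ 3 := by
      calc _ ≤ ((2 + m) * (1 + |ξ|)) * (((2 + m) ^ 2 + m ^ 2) * (1 + |ξ|) ^ 2) :=
            mul_le_mul h3 h4 (by positivity) (by positivity)
        _ = _ := by rw [hA]; ring
    rw [abs_of_pos h2] at hξ
    have h8 := pow_le_pow_left₀ h2.le h7 N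
    rw [div_le_iff₀ (by positivity)]
    calc c ≤ _ := hξ
      _ ≤ ‖f ξ‖ * (A * (1 + |ξ|) ^ 3) ^ N := mul_le_mul_of_nonneg_left h8 (norm_nonneg _)
      _ = _ := by rw [mul_pow, ← pow_mul]; ring

/-- The oscillating factor. -/
noncomputable def ex (m lam : ℝ) (ξ : ℝ) : ℂ := Complex.exp (I * lam * om m ξ)

theorem norm_ex (m lam ξ : ℝ) : ‖ex m lam ξ‖ = 1 := by
  have : I * lam * om m ξ = ((lam * om m ξ : ℝ) : ℂ) * I := by push_cast; ring
  rw [ex, this, norm_exp_ofReal_mul_I]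

theorem ex_ne_zero (m lam ξ : ℝ) : ex m lam ξ ≠ 0 := Complex.exp_ne_zero _

theorem ex_mul (m a b ξ : ℝ) : ex m a ξ * ex m b ξ = ex m (a + b) ξ := by
  simp only [ex, ← Complex.exp_add]; congr 1; push_cast; ring

theorem ex_zero (m ξ : ℝ) : ex m 0 ξ = 1 := by simp [ex]

theorem analyticAt_ex (hm : 0 < m) (lam ξ : ℝ) : AnalyticAt ℝ (ex m lam) ξ := by
  have h1 : AnalyticAt ℝ (fun ξ => I * lam * (om m ξ : ℂ)) ξ :=
    analyticAt_const.mul (analyticAt_ofReal (analyticAt_om hm ξ))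
  exact (analyticAt_cexp.restrictScalars).comp h1

theorem hasDerivAt_ex (hm : 0 < m) (lam ξ : ℝ) :
    HasDerivAt (ex m lam) (ex m lam ξ * (I * lam * (ξ * (((om m ξ)⁻¹ : ℝ) : ℂ)))) ξ := by
  have h1 := ((hasDerivAt_om hm ξ).ofReal_comp.const_mul (I * lam)).cexp
  refine h1.congr_deriv ?_
  simp only [ex]
  push_cast
  ring

/-- Sums of `n` terms. -/
inductive EP (m : ℝ) : ℕ → (ℝ → ℂ) → Prop
  | zero : EP m 0 fun _ => 0
  | cons {n : ℕ} {r f : ℝ → ℂ} (lam : ℝ) : Cf m r → EP m n f →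
      EP m (n + 1) fun ξ => r ξ * ex m lam ξ + f ξ

theorem EP.congr {n : ℕ} {f g : ℝ → ℂ} (hf : EP m n f) (h : ∀ ξ, g ξ = f ξ) : EP m n g := by
  rw [show g = f from funext h]; exact hf

theorem EP.analyticAt (hm : 0 < m) {n : ℕ} {f : ℝ → ℂ} (hf : EP m n f) (ξ : ℝ) :
    AnalyticAt ℝ f ξ := by
  induction hf with
  | zero => exact analyticAt_const
  | cons lam hr _ ih => exact ((hr.analyticAt hm ξ).mul (analyticAt_ex hm lam ξ)).add ih

theorem EP.polyBd (hm : 0 < m) {n : ℕ} {f : ℝ → ℂ} (hf : EP m n f) : PolyBd f := by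
  induction hf with
  | zero => exact ⟨1, 0, one_pos, fun ξ => by simp⟩
  | cons lam hr _ ih =>
    exact ((hr.polyBd hm).mul ⟨1, 0, one_pos, fun ξ => by simp [norm_ex]⟩).add ih

theorem EP.add {n k : ℕ} {f g : ℝ → ℂ} (hf : EP m n f) (hg : EP m k g) :
    EP m (k + n) fun ξ => f ξ + g ξ := by
  induction hf with
  | zero => exact hg.congr fun ξ => by simp
  | cons lam hr _ ih => exact (EP.cons lam hr ih).congr fun ξ => by ring

theorem EP.term_mul {n : ℕ} {r f : ℝ → ℂ} (lam : ℝ) (hr : Cf m r) (hf : EP m n f) :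
    EP m n fun ξ => r ξ * ex m lam ξ * f ξ := by
  induction hf with
  | zero => exact EP.zero.congr fun ξ => by simp
  | cons mu hs _ ih =>
    exact (EP.cons (lam + mu) (hr.mul hs) ih).congr fun ξ => by rw [← ex_mul]; ring

theorem EP.elim (hm : 0 < m) {n : ℕ} {r s f : ℝ → ℂ} (hr : Cf m r) (hs : Cf m s)
    (hf : EP m n f) : EP m n fun ξ => r ξ * deriv f ξ + s ξ * f ξ := by
  induction hf with
  | zero => exact EP.zero.congr fun ξ => by simp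
  | @cons n q f lam hq hf ih =>
    have h1 : Cf m fun ξ => r ξ * (deriv q ξ +
        q ξ * (I * lam * (ξ * (((om m ξ)⁻¹ : ℝ) : ℂ)))) + s ξ * q ξ :=
      (hr.mul ((hq.deriv hm).add (hq.mul ((Cf.const _).mul (Cf.id.mul Cf.inv))))).add (hs.mul hq)
    refine (EP.cons lam h1 ih).congr fun ξ => ?_
    have h2 := ((hq.analyticAt hm ξ).differentiableAt.hasDerivAt.mul
      (hasDerivAt_ex hm lam ξ)).add (hf.analyticAt hm ξ).differentiableAt.hasDerivAt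
    have h3 : HasDerivAt (fun ξ => q ξ * ex m lam ξ + f ξ) _ ξ := h2
    rw [h3.deriv]
    ring

theorem EP.comp_neg {n : ℕ} {f : ℝ → ℂ} (hf : EP m n f) : EP m n fun ξ => f (-ξ) := by
  induction hf with
  | zero => exact EP.zero
  | cons lam hr _ ih =>
    exact (EP.cons lam hr.comp_neg ih).congr fun ξ => by simp only [ex, om_neg]

/-- The class. -/
def Ecl (m : ℝ) (f : ℝ → ℂ) : Prop := ∃ n, EP m n f

theorem Ecl.congr {f g : ℝ → ℂ} (hf : Ecl m f) (h : ∀ ξ, g ξ = f ξ) : Ecl m g := by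
  rw [show g = f from funext h]; exact hf

theorem Cf.ecl {f : ℝ → ℂ} (hf : Cf m f) : Ecl m f :=
  ⟨1, (EP.cons 0 hf EP.zero).congr fun ξ => by simp [ex_zero]⟩

theorem ecl_ex (lam : ℝ) : Ecl m (ex m lam) :=
  ⟨1, (EP.cons lam (Cf.const 1) EP.zero).congr fun ξ => by simp⟩

theorem ecl_const (c : ℂ) : Ecl m fun _ => c := (Cf.const c).ecl

theorem Ecl.add {f g : ℝ → ℂ} (hf : Ecl m f) (hg : Ecl m g) : Ecl m fun ξ => f ξ + g ξ := by
  obtain ⟨n, hf⟩ := hf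
  obtain ⟨k, hg⟩ := hg
  exact ⟨_, hf.add hg⟩

theorem Ecl.mul {f g : ℝ → ℂ} (hf : Ecl m f) (hg : Ecl m g) : Ecl m fun ξ => f ξ * g ξ := by
  obtain ⟨n, hf⟩ := hf
  obtain ⟨k, hg⟩ := hg
  induction hf with
  | zero => exact ⟨0, EP.zero.congr fun ξ => by simp⟩
  | cons lam hr _ ih => exact (Ecl.add ⟨k, hg.term_mul lam hr⟩ ih).congr fun ξ => by ring

theorem Ecl.sub {f g : ℝ → ℂ} (hf : Ecl m f) (hg : Ecl m g) : Ecl m fun ξ => f ξ - g ξ :=
  (hf.add ((ecl_const (-1)).mul hg)).congr fun ξ => by ring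

theorem Ecl.deriv (hm : 0 < m) {f : ℝ → ℂ} (hf : Ecl m f) : Ecl m (deriv f) := by
  obtain ⟨n, hf⟩ := hf
  exact ⟨n, (hf.elim hm (Cf.const 1) (Cf.const 0)).congr fun ξ => by simp⟩

theorem Ecl.iteratedDeriv (hm : 0 < m) {f : ℝ → ℂ} (hf : Ecl m f) (j : ℕ) :
    Ecl m (iteratedDeriv j f) := by
  induction j with
  | zero => simpa using hf
  | succ j ih => rw [iteratedDeriv_succ]; exact ih.deriv hm

theorem Ecl.analyticAt (hm : 0 < m) {f : ℝ → ℂ} (hf : Ecl m f) (ξ : ℝ) : AnalyticAt ℝ f ξ :=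
  hf.choose_spec.analyticAt hm ξ

theorem Ecl.contDiff (hm : 0 < m) {f : ℝ → ℂ} (hf : Ecl m f) : ContDiff ℝ ∞ f :=
  contDiff_iff_contDiffAt.2 fun ξ => (hf.analyticAt hm ξ).contDiffAt

theorem Ecl.polyBd (hm : 0 < m) {f : ℝ → ℂ} (hf : Ecl m f) : PolyBd f :=
  hf.choose_spec.polyBd hm

theorem Ecl.comp_neg {f : ℝ → ℂ} (hf : Ecl m f) : Ecl m fun ξ => f (-ξ) :=
  ⟨_, hf.choose_spec.comp_neg⟩

theorem Ecl.jet_bound (hm : 0 < m) {f : ℝ → ℂ} (hf : Ecl m f) (K : ℕ) :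
    ∃ (C : ℝ) (p : ℕ), 0 < C ∧ ∀ j ≤ K, ∀ ξ, ‖_root_.iteratedDeriv j f ξ‖ ≤ C * (1 + |ξ|) ^ p := by
  induction K with
  | zero =>
    obtain ⟨C, p, hC, h⟩ := hf.polyBd hm
    exact ⟨C, p, hC, fun j hj ξ => by
      obtain rfl : j = 0 := by omega
      simpa using h ξ⟩
  | succ K ih =>
    obtain ⟨C, p, hC, h⟩ := ih
    obtain ⟨D, q, hD, h'⟩ := (hf.iteratedDeriv hm (K + 1)).polyBd hm
    refine ⟨C + D, max p q, by positivity, fun j hj ξ => ?_⟩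
    have h3 := mul_le_mul_of_nonneg_left (w_pow_mono ξ (le_max_left p q)) hC.le
    have h4 := mul_le_mul_of_nonneg_left (w_pow_mono ξ (le_max_right p q)) hD.le
    have h5 : 0 ≤ C * (1 + |ξ|) ^ max p q := by positivity
    have h6 : 0 ≤ D * (1 + |ξ|) ^ max p q := by positivity
    rcases Nat.lt_or_ge j (K + 1) with hlt | hge
    · linarith [h j (by omega) ξ]
    · obtain rfl : j = K + 1 := by omega
      linarith [h' ξ]

end Pool.Agent.Lib.MP_24bb3f_an
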