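import Mathlib

/-!
Sublevel set estimates for smooth real functions with a lower bound on some derivative.
-/

namespace Pool.Agent.Lib.MP_24bb3f_an

open Set MeasureTheory Filter Topology
open scoped ContDiff

theorem sublevel_interval (j : ℕ) {f : ℝ → ℝ} (hf : ContDiff ℝ ∞ f) {ε : ℝ} (hε : 0 < ε) :
    ∀ (I : Set ℝ), I.OrdConnected → ∀ lam : ℝ, 0 < lam →
      (∀ x ∈ I, lam ≤ |iteratedDeriv j f x|) →
      volume {x ∈ I | |f x| < lam * ε ^ j} ≤ ENNReal.ofReal (4 * (2 ^ j - 1) * ε) := by
  induction j with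
  | zero =>
    intro I _ lam _ h
    have : {x ∈ I | |f x| < lam * ε ^ 0} = ∅ := by
      ext x
      simp only [pow_zero, mul_one, mem_ofPred_eq, mem_empty_iff_false, iff_false, not_and, not_lt]
      intro hx
      simpa using h x hx
    rw [this]; simp
  | succ j ih =>
    intro I hI lam hlam h
    set g := iteratedDeriv j f with hg
    have hgd : Differentiable ℝ g :=
      hf.differentiable_iteratedDeriv j (by exact_mod_cast ENat.natCast_lt_top j)
    have hg' : ∀ x ∈ I, lam ≤ |deriv g x| := by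
      intro x hx
      have := h x hx
      rwa [iteratedDeriv_succ] at this
    have h2j : (1 : ℝ) ≤ 2 ^ j := one_le_pow₀ (by norm_num)
    have hpow : lam * ε ^ (j + 1) = (lam * ε) * ε ^ j := by ring
    by_cases hZ : ∃ z ∈ I, |g z| < lam * ε
    · obtain ⟨z, hzI, hz⟩ := hZ
      have hfar : ∀ x ∈ I, 2 * ε < |x - z| → lam * ε ≤ |g x| := by
        intro x hx hxz
        have key : lam * |x - z| ≤ |g x - g z| := by
          rcases lt_trichotomy x z with hlt | heq | hgt
          · obtain ⟨c, hc, hc'⟩ := exists_deriv_eq_slope g hlt hgd.continuous.continuousOn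
              hgd.differentiableOn
            have hcI : c ∈ I := hI.out hx hzI (Ioo_subset_Icc_self hc)
            have h1 := hg' c hcI
            rw [hc', abs_div, le_div_iff₀ (abs_pos.2 (sub_ne_zero.2 hlt.ne'))] at h1
            rwa [abs_sub_comm x z, abs_sub_comm (g x)]
          · simp [heq]
          · obtain ⟨c, hc, hc'⟩ := exists_deriv_eq_slope g hgt hgd.continuous.continuousOn
              hgd.differentiableOn
            have hcI : c ∈ I := hI.out hzI hx (Ioo_subset_Icc_self hc)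
            have h1 := hg' c hcI
            rwa [hc', abs_div, le_div_iff₀ (abs_pos.2 (sub_ne_zero.2 hgt.ne'))] at h1
        have h2 : |g x - g z| ≤ |g x| + |g z| := abs_sub _ _
        have h3 : lam * (2 * ε) ≤ lam * |x - z| := mul_le_mul_of_nonneg_left hxz.le hlam.le
        nlinarith
      have hsub : {x ∈ I | |f x| < lam * ε ^ (j + 1)} ⊆
          ({x ∈ I ∩ Iio (z - 2 * ε) | |f x| < (lam * ε) * ε ^ j} ∪
            {x ∈ I ∩ Ioi (z + 2 * ε) | |f x| < (lam * ε) * ε ^ j}) ∪
              Icc (z - 2 * ε) (z + 2 * ε) := by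
        rintro x ⟨hx, hfx⟩
        rw [hpow] at hfx
        by_cases h1 : x < z - 2 * ε
        · exact Or.inl (Or.inl ⟨⟨hx, h1⟩, hfx⟩)
        · by_cases h2 : z + 2 * ε < x
          · exact Or.inl (Or.inr ⟨⟨hx, h2⟩, hfx⟩)
          · exact Or.inr ⟨not_lt.1 h1, not_lt.1 h2⟩
      have hA := ih (I ∩ Iio (z - 2 * ε)) (hI.inter ordConnected_Iio) (lam * ε) (by positivity)
        (fun x hx => hfar x hx.1 (by
          have : x < z - 2 * ε := hx.2
          rw [lt_abs]; right; linarith))
      have hB := ih (I ∩ Ioi (z + 2 * ε)) (hI.inter ordConnected_Ioi) (lam * ε) (by positivity)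
        (fun x hx => hfar x hx.1 (by
          have : z + 2 * ε < x := hx.2
          rw [lt_abs]; left; linarith))
      have hnn : 0 ≤ 4 * (2 ^ j - 1 : ℝ) * ε := by
        have : (0 : ℝ) ≤ 2 ^ j - 1 := by linarith
        positivity
      calc volume {x ∈ I | |f x| < lam * ε ^ (j + 1)}
          ≤ _ := measure_mono hsub
        _ ≤ _ := measure_union_le _ _
        _ ≤ (ENNReal.ofReal (4 * (2 ^ j - 1) * ε) + ENNReal.ofReal (4 * (2 ^ j - 1) * ε)) +
            ENNReal.ofReal (4 * ε) := by
          refine add_le_add ((measure_union_le _ _).trans (add_le_add hA hB)) ?_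
          rw [Real.volume_Icc]
          exact ENNReal.ofReal_le_ofReal (by linarith)
        _ = ENNReal.ofReal (4 * (2 ^ (j + 1) - 1) * ε) := by
          rw [← ENNReal.ofReal_add hnn hnn, ← ENNReal.ofReal_add (by positivity) (by positivity)]
          congr 1
          ring
    · push Not at hZ
      rw [hpow]
      refine (ih I hI (lam * ε) (by positivity) hZ).trans (ENNReal.ofReal_le_ofReal ?_)
      have : (2 : ℝ) ^ j ≤ 2 ^ (j + 1) := by rw [pow_succ]; linarith
      nlinarith

theorem sublevel_global (K : ℕ) {f : ℝ → ℝ} (hf : ContDiff ℝ ∞ f) {ε R lam L : ℝ}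
    (hε : 0 < ε) (hε1 : ε ≤ 1) (hR : 0 ≤ R) (hlam : 0 < lam) (hL : 0 < L)
    (hlow : ∀ x ∈ Icc (-R) R, ∃ j ≤ K, lam ≤ |iteratedDeriv j f x|)
    (hup : ∀ x ∈ Icc (-R) R, ∀ j ≤ K + 1, |iteratedDeriv j f x| ≤ L) :
    volume {x ∈ Icc (-R) R | |f x| < lam / 2 * ε ^ K} ≤
      ENNReal.ofReal ((4 * R * L / lam + 1) * (4 * 2 ^ K * ε)) := by
  set l := lam / (2 * L) with hl
  have hl0 : 0 < l := by positivity
  set N := ⌊2 * R / l⌋₊ + 1 with hN
  let I : ℕ → Set ℝ := fun i => Icc (-R) R ∩ Icc (-R + i * l) (-R + (i + 1) * l)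
  have hsub : {x ∈ Icc (-R) R | |f x| < lam / 2 * ε ^ K} ⊆
      ⋃ i ∈ Finset.range N, {x ∈ I i | |f x| < lam / 2 * ε ^ K} := by
    rintro x ⟨hx, hfx⟩
    have hx0 : 0 ≤ (x + R) / l := div_nonneg (by linarith [hx.1]) hl0.le
    refine mem_iUnion₂.2 ⟨⌊(x + R) / l⌋₊, ?_, ⟨hx, ?_, ?_⟩, hfx⟩
    · rw [Finset.mem_range, hN, Nat.lt_succ_iff]
      exact Nat.floor_le_floor (div_le_div_of_nonneg_right (by linarith [hx.2]) hl0.le)
    · have := Nat.floor_le hx0
      rw [le_div_iff₀ hl0] at this
      linarith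
    · have := (Nat.lt_floor_add_one ((x + R) / l)).le
      rw [div_le_iff₀ hl0] at this
      linarith
  have hpiece : ∀ i : ℕ, volume {x ∈ I i | |f x| < lam / 2 * ε ^ K} ≤
      ENNReal.ofReal (4 * 2 ^ K * ε) := by
    intro i
    rcases (I i).eq_empty_or_nonempty with he | ⟨y, hy⟩
    · simp [he]
    · have hi0 : (0 : ℝ) ≤ i * l := by positivity
      have hxi : -R + i * l ∈ Icc (-R) R := ⟨by linarith, hy.2.1.trans hy.1.2⟩
      obtain ⟨j, hjK, hj⟩ := hlow _ hxi
      have hgd : Differentiable ℝ (iteratedDeriv j f) :=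
        hf.differentiable_iteratedDeriv j (by exact_mod_cast ENat.natCast_lt_top j)
      have hlip : ∀ x ∈ I i, lam / 2 ≤ |iteratedDeriv j f x| := by
        intro x hx
        have h1 : ‖iteratedDeriv j f x - iteratedDeriv j f (-R + i * l)‖ ≤
            L * ‖x - (-R + i * l)‖ := by
          refine (convex_Icc (-R) R).norm_image_sub_le_of_norm_deriv_le
            (fun z _ => hgd z) (fun z hz => ?_) hxi hx.1
          rw [← iteratedDeriv_succ]
          exact hup z hz (j + 1) (by omega)
        have h2 : |x - (-R + i * l)| ≤ l := by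
          rw [abs_le]; constructor <;> linarith [hx.2.1, hx.2.2]
        have h3 : L * l = lam / 2 := by rw [hl]; field_simp
        rw [Real.norm_eq_abs, Real.norm_eq_abs] at h1
        have h4 : L * |x - (-R + i * l)| ≤ L * l := mul_le_mul_of_nonneg_left h2 hL.le
        have h5 := abs_sub_abs_le_abs_sub (iteratedDeriv j f (-R + i * l)) (iteratedDeriv j f x)
        rw [abs_sub_comm] at h5
        linarith
      have h6 := sublevel_interval j hf hε (I i) (ordConnected_Icc.inter ordConnected_Icc)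
        (lam / 2) (by positivity) hlip
      have h7 : ε ^ K ≤ ε ^ j := pow_le_pow_of_le_one hε.le hε1 hjK
      refine (measure_mono ?_).trans (h6.trans (ENNReal.ofReal_le_ofReal ?_))
      · rintro x ⟨hx, hfx⟩
        exact ⟨hx, hfx.trans_le (mul_le_mul_of_nonneg_left h7 (by positivity))⟩
      · have : (2 : ℝ) ^ j ≤ 2 ^ K := pow_le_pow_right₀ (by norm_num) hjK
        nlinarith
  calc volume {x ∈ Icc (-R) R | |f x| < lam / 2 * ε ^ K}
      ≤ _ := measure_mono hsub
    _ ≤ ∑ i ∈ Finset.range N, volume {x ∈ I i | |f x| < lam / 2 * ε ^ K} :=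
      measure_biUnion_finset_le _ _
    _ ≤ ∑ _i ∈ Finset.range N, ENNReal.ofReal (4 * 2 ^ K * ε) :=
      Finset.sum_le_sum fun i _ => hpiece i
    _ = ENNReal.ofReal (N * (4 * 2 ^ K * ε)) := by
      rw [Finset.sum_const, Finset.card_range, nsmul_eq_mul,
        ENNReal.ofReal_mul (Nat.cast_nonneg N), ENNReal.ofReal_natCast]
    _ ≤ _ := by
      refine ENNReal.ofReal_le_ofReal (mul_le_mul_of_nonneg_right ?_ (by positivity))
      have h1 : (⌊2 * R / l⌋₊ : ℝ) ≤ 2 * R / l := Nat.floor_le (by positivity)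
      have h2 : 2 * R / l = 4 * R * L / lam := by rw [hl]; field_simp; ring
      rw [hN]; push_cast
      linarith

end Pool.Agent.Lib.MP_24bb3f_an
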