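import Mathlib
import Pool.Agent.Lib.MP_24bb3f_an.ExpPoly
import Pool.Agent.Lib.MP_24bb3f_an.Sublevel

/-!
Lower bounds for jets of nonzero functions of the class `Ecl`, and uniform sublevel estimates
for the pencil spanned by two such functions.
-/

namespace Pool.Agent.Lib.MP_24bb3f_an

open Set Filter Topology Complex MeasureTheory
open scoped ContDiff

variable {m : ℝ}

theorem contDiffAt_nat {f : ℝ → ℂ} (hf : ContDiff ℝ ∞ f) (j : ℕ) (x : ℝ) : ContDiffAt ℝ j f x :=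
  (hf.of_le (by exact_mod_cast le_top)).contDiffAt

theorem leibniz_bound {r f : ℝ → ℂ} (hr : ContDiff ℝ ∞ r) (hf : ContDiff ℝ ∞ f) (j : ℕ) (ξ : ℝ)
    {a b : ℝ} (ha : ∀ i ≤ j, ‖iteratedDeriv i r ξ‖ ≤ a) (hb : ∀ i ≤ j, ‖iteratedDeriv i f ξ‖ ≤ b) :
    ‖iteratedDeriv j (fun ξ => r ξ * f ξ) ξ‖ ≤ 2 ^ j * (a * b) := by
  rw [iteratedDeriv_fun_mul (contDiffAt_nat hr j ξ) (contDiffAt_nat hf j ξ)]
  refine (norm_sum_le _ _).trans ?_
  have ha0 : 0 ≤ a := (norm_nonneg _).trans (ha 0 (Nat.zero_le _))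
  calc _ ≤ ∑ i ∈ Finset.range (j + 1), (j.choose i : ℝ) * (a * b) := by
        refine Finset.sum_le_sum fun i hi => ?_
        have hi' : i ≤ j := Nat.lt_succ_iff.1 (Finset.mem_range.1 hi)
        rw [norm_mul, norm_mul, norm_natCast, mul_assoc]
        exact mul_le_mul_of_nonneg_left
          (mul_le_mul (ha i hi') (hb _ (Nat.sub_le _ _)) (norm_nonneg _) ha0) (Nat.cast_nonneg _)
    _ = 2 ^ j * (a * b) := by
        rw [← Finset.sum_mul]
        congr 1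
        exact_mod_cast Nat.sum_range_choose j

theorem transfer (hm : 0 < m) {r s : ℝ → ℂ} (hr : Ecl m r) (hs : Ecl m s) (K : ℕ) :
    ∃ (C : ℝ) (p : ℕ), 0 < C ∧ ∀ f : ℝ → ℂ, ContDiff ℝ ∞ f → ∀ (ξ b : ℝ),
      (∀ i ≤ K + 1, ‖iteratedDeriv i f ξ‖ ≤ b) → ∀ j ≤ K,
        ‖iteratedDeriv j (fun ξ => r ξ * deriv f ξ + s ξ * f ξ) ξ‖ ≤ C * (1 + |ξ|) ^ p * b := by
  obtain ⟨C, p, hC, h1⟩ := hr.jet_bound hm K
  obtain ⟨D, q, hD, h2⟩ := hs.jet_bound hm K
  refine ⟨2 ^ K * (C + D), max p q, by positivity, fun f hf ξ b hb j hj => ?_⟩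
  have hb0 : 0 ≤ b := (norm_nonneg _).trans (hb 0 (Nat.zero_le _))
  have hf' : ContDiff ℝ ∞ (deriv f) := (contDiff_infty_iff_deriv.1 hf).2
  rw [iteratedDeriv_fun_add (contDiffAt_nat ((hr.contDiff hm).mul hf') j ξ)
    (contDiffAt_nat ((hs.contDiff hm).mul hf) j ξ)]
  have h3 := leibniz_bound (hr.contDiff hm) hf' j ξ (a := C * (1 + |ξ|) ^ p) (b := b)
    (fun i hi => h1 i (by omega) ξ)
    (fun i hi => by rw [← iteratedDeriv_succ']; exact hb _ (by omega))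
  have h4 := leibniz_bound (hs.contDiff hm) hf j ξ (a := D * (1 + |ξ|) ^ q) (b := b)
    (fun i hi => h2 i (by omega) ξ) (fun i hi => hb _ (by omega))
  have h5 := w_pow_mono ξ (le_max_left p q)
  have h6 := w_pow_mono ξ (le_max_right p q)
  have h7 : (2 : ℝ) ^ j ≤ 2 ^ K := pow_le_pow_right₀ (by norm_num) hj
  have hw := one_le_w ξ
  calc _ ≤ 2 ^ j * (C * (1 + |ξ|) ^ p * b) + 2 ^ j * (D * (1 + |ξ|) ^ q * b) :=
        (norm_add_le _ _).trans (add_le_add h3 h4)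
    _ ≤ 2 ^ K * (C * (1 + |ξ|) ^ max p q * b) + 2 ^ K * (D * (1 + |ξ|) ^ max p q * b) := by
        gcongr
    _ = _ := by ring

/-- Lower bounds for jets pass from `r f' + s f` to `f`. -/
theorem transfer_lower (hm : 0 < m) {r s : ℝ → ℂ} (hr : Ecl m r) (hs : Ecl m s) (K M : ℕ)
    {c : ℝ} (hc : 0 < c) :
    ∃ (c' : ℝ) (M' : ℕ), 0 < c' ∧ ∀ f : ℝ → ℂ, ContDiff ℝ ∞ f → ∀ ξ : ℝ,
      (∃ j ≤ K, c ≤ ‖iteratedDeriv j (fun ξ => r ξ * deriv f ξ + s ξ * f ξ) ξ‖ * (1 + |ξ|) ^ M) →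
        ∃ i ≤ K + 1, c' ≤ ‖iteratedDeriv i f ξ‖ * (1 + |ξ|) ^ M' := by
  obtain ⟨C, p, hC, h⟩ := transfer hm hr hs K
  refine ⟨c / (2 * C), M + p, by positivity, fun f hf ξ ⟨j, hj, hcj⟩ => ?_⟩
  by_contra hno
  push Not at hno
  have hw : 0 < 1 + |ξ| := by positivity
  have h1 := h f hf ξ (c / (2 * C) / (1 + |ξ|) ^ (M + p))
    (fun i hi => by rw [le_div_iff₀ (by positivity)]; exact (hno i hi).le) j hj
  have h2 := mul_le_mul_of_nonneg_right h1 (pow_pos hw M).le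
  have h3 : C * (1 + |ξ|) ^ p * (c / (2 * C) / (1 + |ξ|) ^ (M + p)) * (1 + |ξ|) ^ M = c / 2 := by
    rw [pow_add]; field_simp
  linarith

theorem EP.nd_top (hm : 0 < m) (n : ℕ) : ∀ {f : ℝ → ℂ}, EP m n f → ¬ (∀ᶠ ξ in atTop, f ξ = 0) →
    ∃ (K M : ℕ) (c : ℝ), 0 < c ∧
      ∀ᶠ ξ in atTop, ∃ j ≤ K, c ≤ ‖iteratedDeriv j f ξ‖ * (1 + |ξ|) ^ M := by
  induction n with
  | zero =>
    intro f hf hne
    cases hf
    exact absurd (Eventually.of_forall fun _ => rfl) hne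
  | succ n ih =>
    intro f hf hne
    have hfE : Ecl m f := ⟨_, hf⟩
    cases hf with
    | @cons _ r f0 lam hr hf0 =>
      rcases hr.lower hm with h0 | ⟨c, M, hc, hlow⟩
      · have : (fun ξ => r ξ * ex m lam ξ + f0 ξ) = f0 := funext fun ξ => by simp [h0 ξ]
        rw [this] at hne ⊢
        exact ih hf0 hne
      · set f := fun ξ => r ξ * ex m lam ξ + f0 ξ with hfdef
        set s := fun ξ => (-1 : ℂ) * (deriv r ξ +
          r ξ * (I * lam * (ξ * (((om m ξ)⁻¹ : ℝ) : ℂ)))) with hsdef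
        have hs : Cf m s := (Cf.const _).mul ((hr.deriv hm).add
          (hr.mul ((Cf.const _).mul (Cf.id.mul Cf.inv))))
        have hre : ∀ ξ, HasDerivAt (fun ξ => r ξ * ex m lam ξ) (-s ξ * ex m lam ξ) ξ := by
          intro ξ
          have h2 := (hr.analyticAt hm ξ).differentiableAt.hasDerivAt.mul (hasDerivAt_ex hm lam ξ)
          refine h2.congr_deriv ?_
          simp only [hsdef]; ring
        have hg : EP m n fun ξ => r ξ * deriv f ξ + s ξ * f ξ := by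
          refine (hf0.elim hm hr hs).congr fun ξ => ?_
          have h3 : HasDerivAt f _ ξ :=
            (hre ξ).add (hf0.analyticAt hm ξ).differentiableAt.hasDerivAt
          rw [h3.deriv]
          simp only [hfdef]; ring
        by_cases hg0 : ∀ᶠ ξ in atTop, r ξ * deriv f ξ + s ξ * f ξ = 0
        · obtain ⟨R, hR⟩ := eventually_atTop.1 (hg0.and hlow)
          have hr0 : ∀ ξ ∈ Ioi R, r ξ ≠ 0 := by
            intro ξ hξ h
            have := (hR ξ (le_of_lt hξ)).2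
            rw [h] at this
            simp at this
            linarith
          have hφ : ∀ ξ ∈ Ioi R, HasDerivAt (fun ξ => f ξ / (r ξ * ex m lam ξ)) 0 ξ := by
            intro ξ hξ
            have hne' : r ξ * ex m lam ξ ≠ 0 := mul_ne_zero (hr0 ξ hξ) (ex_ne_zero _ _ _)
            have h4 := (hfE.analyticAt hm ξ).differentiableAt.hasDerivAt.fun_div (hre ξ) hne'
            refine h4.congr_deriv ?_
            have h5 := (hR ξ (le_of_lt hξ)).1
            rw [div_eq_zero_iff]; left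
            linear_combination (ex m lam ξ) * h5
          obtain ⟨a, ha⟩ := isOpen_Ioi.exists_is_const_of_deriv_eq_zero isPreconnected_Ioi
            (fun ξ hξ => (hφ ξ hξ).differentiableAt.differentiableWithinAt)
            (fun ξ hξ => (hφ ξ hξ).deriv)
          have hfa : ∀ ξ ∈ Ioi R, f ξ = a * (r ξ * ex m lam ξ) := by
            intro ξ hξ
            have hne' : r ξ * ex m lam ξ ≠ 0 := mul_ne_zero (hr0 ξ hξ) (ex_ne_zero _ _ _)
            rw [← ha ξ hξ, div_mul_cancel₀ _ hne']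
          have ha0 : a ≠ 0 := by
            rintro rfl
            apply hne
            filter_upwards [eventually_gt_atTop R] with ξ hξ
            rw [hfa ξ hξ, zero_mul]
          refine ⟨0, M, ‖a‖ * c, by positivity, ?_⟩
          filter_upwards [eventually_gt_atTop R] with ξ hξ
          refine ⟨0, le_rfl, ?_⟩
          rw [iteratedDeriv_zero, hfa ξ hξ, norm_mul, norm_mul, norm_ex, mul_one, mul_assoc]
          exact mul_le_mul_of_nonneg_left (hR ξ hξ.le).2 (norm_nonneg _)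
        · obtain ⟨K, M', c', hc', hev⟩ := ih hg hg0
          obtain ⟨c'', M'', hc'', h⟩ := transfer_lower hm hr.ecl hs.ecl K M' hc'
          exact ⟨K + 1, M'', c'', hc'', hev.mono fun ξ hξ => h f (hfE.contDiff hm) ξ hξ⟩

theorem analytic_eq_zero {f : ℝ → ℂ} (hf : ∀ ξ, AnalyticAt ℝ f ξ) {x : ℝ}
    (h : ∀ᶠ ξ in 𝓝 x, f ξ = 0) (ξ : ℝ) : f ξ = 0 :=
  AnalyticOnNhd.eqOn_zero_of_preconnected_of_eventuallyEq_zero (U := univ) (fun y _ => hf y)
    isPreconnected_univ (mem_univ x) h (mem_univ ξ)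

theorem nd_compact {f : ℝ → ℂ} (hf : ∀ ξ, AnalyticAt ℝ f ξ) (hne : ∃ ξ, f ξ ≠ 0) (R : ℝ) :
    ∃ (K : ℕ) (c : ℝ), 0 < c ∧ ∀ ξ ∈ Icc (-R) R, ∃ j ≤ K, c ≤ ‖iteratedDeriv j f ξ‖ := by
  have hsm : ContDiff ℝ ∞ f := contDiff_iff_contDiffAt.2 fun ξ => (hf ξ).contDiffAt
  let U : ℕ → Set ℝ := fun k => ⋃ j ≤ k, {ξ | 1 / ((k : ℝ) + 1) < ‖iteratedDeriv j f ξ‖}
  have hUo : ∀ k, IsOpen (U k) := fun k => isOpen_biUnion fun j _ =>
    isOpen_lt continuous_const (hsm.continuous_iteratedDeriv j (by exact_mod_cast le_top)).norm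
  have hmono : Monotone U := by
    intro k l hkl ξ hξ
    obtain ⟨j, hj, h⟩ := mem_iUnion₂.1 hξ
    have h' : 1 / ((l : ℝ) + 1) < ‖iteratedDeriv j f ξ‖ :=
      lt_of_le_of_lt (Nat.one_div_le_one_div hkl) h
    exact mem_iUnion₂.2 ⟨j, le_trans hj hkl, h'⟩
  have hcov : Icc (-R) R ⊆ ⋃ k, U k := by
    intro ξ _
    have : ∃ j, iteratedDeriv j f ξ ≠ 0 := by
      by_contra hno
      push Not at hno
      obtain ⟨y, hy⟩ := hne
      apply hy
      refine analytic_eq_zero hf (x := ξ) (analyticOrderAt_eq_top.1 ?_) y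
      rw [ENat.eq_top_iff_forall_ge]
      intro k
      exact (natCast_le_analyticOrderAt_iff_iteratedDeriv_eq_zero (hf ξ)).2 fun i _ => hno i
    obtain ⟨j, hj⟩ := this
    obtain ⟨k, hk⟩ := exists_nat_one_div_lt (norm_pos_iff.2 hj)
    have h' : 1 / (((max j k : ℕ) : ℝ) + 1) < ‖iteratedDeriv j f ξ‖ :=
      lt_of_le_of_lt (Nat.one_div_le_one_div (le_max_right _ _)) hk
    exact mem_iUnion.2 ⟨max j k, mem_iUnion₂.2 ⟨j, le_max_left _ _, h'⟩⟩
  obtain ⟨k, hk⟩ := isCompact_Icc.elim_directed_cover U hUo hcov hmono.directed_le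
  refine ⟨k, 1 / ((k : ℝ) + 1), by positivity, fun ξ hξ => ?_⟩
  obtain ⟨j, hj, h⟩ := mem_iUnion₂.1 (hk hξ)
  exact ⟨j, hj, le_of_lt h⟩

theorem Ecl.nd (hm : 0 < m) {f : ℝ → ℂ} (hf : Ecl m f) (hne : ∃ ξ, f ξ ≠ 0) :
    ∃ (K M : ℕ) (c : ℝ), 0 < c ∧
      ∀ ξ, ∃ j ≤ K, c ≤ ‖_root_.iteratedDeriv j f ξ‖ * (1 + |ξ|) ^ M := by
  have key : ∀ {g : ℝ → ℂ}, Ecl m g → (∃ ξ, g ξ ≠ 0) → ¬ ∀ᶠ ξ in atTop, g ξ = 0 := by
    intro g hg ⟨y, hy⟩ h
    obtain ⟨R, hR⟩ := eventually_atTop.1 h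
    refine hy (analytic_eq_zero (hg.analyticAt hm) (x := R + 1) ?_ y)
    filter_upwards [Ioi_mem_nhds (lt_add_one R)] with ξ hξ using hR ξ (le_of_lt hξ)
  obtain ⟨K1, M1, c1, hc1, h1⟩ := hf.choose_spec.nd_top hm _ (key hf hne)
  have hne' : ∃ ξ, f (-ξ) ≠ 0 := by
    obtain ⟨y, hy⟩ := hne
    exact ⟨-y, by simpa using hy⟩
  obtain ⟨K2, M2, c2, hc2, h2⟩ := hf.comp_neg.choose_spec.nd_top hm _ (key hf.comp_neg hne')
  obtain ⟨R, hR⟩ := eventually_atTop.1 (h1.and h2)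
  obtain ⟨K3, c3, hc3, h3⟩ := nd_compact (hf.analyticAt hm) hne R
  refine ⟨max K1 (max K2 K3), max M1 M2, min c1 (min c2 c3), by positivity, fun ξ => ?_⟩
  by_cases ha : R ≤ ξ
  · obtain ⟨j, hj, h⟩ := (hR ξ ha).1
    refine ⟨j, by omega, (min_le_left _ _).trans (h.trans ?_)⟩
    exact mul_le_mul_of_nonneg_left (w_pow_mono ξ (le_max_left _ _)) (norm_nonneg _)
  · by_cases hb : R ≤ -ξ
    · obtain ⟨j, hj, h⟩ := (hR (-ξ) hb).2
      refine ⟨j, by omega, ((min_le_right _ _).trans (min_le_left _ _)).trans (h.trans ?_)⟩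
      rw [iteratedDeriv_comp_neg, neg_neg, norm_smul, abs_neg]
      simp only [norm_pow, norm_neg, norm_one, one_pow, one_mul]
      exact mul_le_mul_of_nonneg_left (w_pow_mono ξ (le_max_right _ _)) (norm_nonneg _)
    · obtain ⟨j, hj, h⟩ := h3 ξ ⟨by linarith, by linarith⟩
      refine ⟨j, by omega, ((min_le_right _ _).trans (min_le_right _ _)).trans (h.trans ?_)⟩
      exact le_mul_of_one_le_right (norm_nonneg _) (one_le_pow₀ (one_le_w ξ))

theorem iteratedDeriv_ofReal {h : ℝ → ℝ} (hh : ContDiff ℝ ∞ h) (j : ℕ) :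
    iteratedDeriv j (fun x => (h x : ℂ)) = fun x => ((iteratedDeriv j h x : ℝ) : ℂ) := by
  induction j with
  | zero => simp
  | succ j ih =>
    funext x
    rw [iteratedDeriv_succ, iteratedDeriv_succ, ih]
    exact ((hh.differentiable_iteratedDeriv j
      (by exact_mod_cast ENat.natCast_lt_top j)) x).hasDerivAt.ofReal_comp.deriv

theorem contDiff_of_ofReal {h : ℝ → ℝ} (hh : ContDiff ℝ ∞ fun x => (h x : ℂ)) :
    ContDiff ℝ ∞ h := by
  have := reCLM.contDiff.comp hh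
  simpa [Function.comp_def] using this

theorem pencil_sublevel (hm : 0 < m) {A B : ℝ → ℝ} (hA : Ecl m fun x => (A x : ℂ))
    (hB : Ecl m fun x => (B x : ℂ)) (hW : ∃ ξ, deriv A ξ * B ξ - A ξ * deriv B ξ ≠ 0) :
    ∃ (C c : ℝ) (L : ℕ), 0 < C ∧ 0 < c ∧ ∀ α β : ℝ, 0 ≤ α → 0 ≤ β → α + β = 1 → ∀ R : ℝ, 1 ≤ R →
      volume {x ∈ Icc (-R) R | |α * A x - β * B x| < c / R ^ L} ≤ ENNReal.ofReal (C / R) := by
  have hAs : ContDiff ℝ ∞ A := contDiff_of_ofReal (hA.contDiff hm)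
  have hBs : ContDiff ℝ ∞ B := contDiff_of_ofReal (hB.contDiff hm)
  have hAd : ∀ x, HasDerivAt (fun x => (A x : ℂ)) ((deriv A x : ℝ) : ℂ) x := fun x =>
    (hAs.differentiable (by simp) x).hasDerivAt.ofReal_comp
  have hBd : ∀ x, HasDerivAt (fun x => (B x : ℂ)) ((deriv B x : ℝ) : ℂ) x := fun x =>
    (hBs.differentiable (by simp) x).hasDerivAt.ofReal_comp
  have hA' : Ecl m fun x => ((deriv A x : ℝ) : ℂ) := (hA.deriv hm).congr fun x => (hAd x).deriv.symm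
  have hB' : Ecl m fun x => ((deriv B x : ℝ) : ℂ) := (hB.deriv hm).congr fun x => (hBd x).deriv.symm
  have hWE := (hA'.mul hB).sub (hA.mul hB')
  obtain ⟨K, M, c0, hc0, hnd⟩ := hWE.nd hm (by
    obtain ⟨ξ, hξ⟩ := hW
    exact ⟨ξ, by exact_mod_cast hξ⟩)
  obtain ⟨c1, q, hc1, htr⟩ := transfer_lower hm (hA.add hB) ((ecl_const (-1)).mul (hA'.add hB'))
    K M hc0
  obtain ⟨CA, pA, hCA, hjA⟩ := hA.jet_bound hm (K + 2)
  obtain ⟨CB, pB, hCB, hjB⟩ := hB.jet_bound hm (K + 2)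
  set p := max pA pB with hp
  set C3 := 4 * ((CA + CB) * 2 ^ p) / (c1 / 2 ^ q) + 1 with hC3
  refine ⟨C3 * (4 * 2 ^ (K + 1)), c1 / 2 ^ q / 2, q + (2 + p + q) * (K + 1), by positivity,
    by positivity, fun α β hα hβ hαβ R hR => ?_⟩
  have hR0 : 0 < R := by linarith
  set h : ℝ → ℝ := fun x => α * A x - β * B x with hh
  have hhs : ContDiff ℝ ∞ h := (contDiff_const.mul hAs).sub (contDiff_const.mul hBs)
  have hhc : ContDiff ℝ ∞ fun x => (h x : ℂ) := ofRealCLM.contDiff.comp hhs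
  have hw : ∀ x ∈ Icc (-R) R, 1 + |x| ≤ 2 * R := by
    intro x hx
    have : |x| ≤ R := abs_le.2 hx
    linarith
  have hlow : ∀ x ∈ Icc (-R) R, ∃ j ≤ K + 1, c1 / 2 ^ q / R ^ q ≤ |iteratedDeriv j h x| := by
    intro x hx
    have heq : (fun ξ => ((A ξ : ℂ) + B ξ) * deriv (fun x => (h x : ℂ)) ξ +
        -1 * (((deriv A ξ : ℝ) : ℂ) + ((deriv B ξ : ℝ) : ℂ)) * (h ξ : ℂ)) =
        fun ξ => ((deriv A ξ : ℝ) : ℂ) * B ξ - A ξ * ((deriv B ξ : ℝ) : ℂ) := by
      funext ξ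
      have h1 : HasDerivAt (fun x => (h x : ℂ))
          ((α : ℂ) * ((deriv A ξ : ℝ) : ℂ) - (β : ℂ) * ((deriv B ξ : ℝ) : ℂ)) ξ := by
        have := ((hAd ξ).const_mul (α : ℂ)).sub ((hBd ξ).const_mul (β : ℂ))
        refine this.congr_of_eventuallyEq (Eventually.of_forall fun y => ?_)
        simp [hh]
      rw [h1.deriv]
      have h2 : (α : ℂ) + β = 1 := by exact_mod_cast hαβ
      simp only [hh]
      push_cast
      linear_combination (((deriv A ξ : ℝ) : ℂ) * B ξ - A ξ * ((deriv B ξ : ℝ) : ℂ)) * h2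
    obtain ⟨i, hi, h3⟩ := htr _ hhc x (by rw [heq]; exact hnd x)
    refine ⟨i, hi, ?_⟩
    rw [iteratedDeriv_ofReal hhs, norm_real, Real.norm_eq_abs] at h3
    have h4 : (1 + |x|) ^ q ≤ (2 * R) ^ q := pow_le_pow_left₀ (by positivity) (hw x hx) q
    rw [div_div, div_le_iff₀ (by positivity), ← mul_pow]
    exact h3.trans (mul_le_mul_of_nonneg_left h4 (abs_nonneg _))
  have hup : ∀ x ∈ Icc (-R) R, ∀ j ≤ K + 1 + 1,
      |iteratedDeriv j h x| ≤ (CA + CB) * 2 ^ p * R ^ p := by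
    intro x hx j hj
    have hAj : ContDiffAt ℝ j A x := (hAs.of_le (by exact_mod_cast le_top)).contDiffAt
    have hBj : ContDiffAt ℝ j B x := (hBs.of_le (by exact_mod_cast le_top)).contDiffAt
    have h1 : iteratedDeriv j h x = α * iteratedDeriv j A x - β * iteratedDeriv j B x := by
      simp only [hh]
      rw [iteratedDeriv_fun_sub (contDiffAt_const.mul hAj) (contDiffAt_const.mul hBj),
        iteratedDeriv_const_mul_field, iteratedDeriv_const_mul_field]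
    have h2 := hjA j hj x
    have h3 := hjB j hj x
    rw [iteratedDeriv_ofReal hAs, norm_real, Real.norm_eq_abs] at h2
    rw [iteratedDeriv_ofReal hBs, norm_real, Real.norm_eq_abs] at h3
    have h4 : (1 + |x|) ^ p ≤ (2 * R) ^ p := pow_le_pow_left₀ (by positivity) (hw x hx) p
    have h5 := (w_pow_mono x (le_max_left pA pB)).trans h4
    have h6 := (w_pow_mono x (le_max_right pA pB)).trans h4
    have h7 := mul_le_mul_of_nonneg_left h5 hCA.le
    have h8 := mul_le_mul_of_nonneg_left h6 hCB.le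
    rw [h1]
    refine (abs_sub _ _).trans ?_
    rw [abs_mul, abs_mul, abs_of_nonneg hα, abs_of_nonneg hβ, mul_assoc, ← mul_pow]
    have h9 : α * |iteratedDeriv j A x| ≤ |iteratedDeriv j A x| :=
      mul_le_of_le_one_left (abs_nonneg _) (by linarith)
    have h10 : β * |iteratedDeriv j B x| ≤ |iteratedDeriv j B x| :=
      mul_le_of_le_one_left (abs_nonneg _) (by linarith)
    linarith
  have hε1 : 1 / R ^ (2 + p + q) ≤ 1 := by
    rw [div_le_one (by positivity)]; exact one_le_pow₀ hR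
  have hmain := sublevel_global (K + 1) hhs (ε := 1 / R ^ (2 + p + q)) (by positivity) hε1 hR0.le
    (by positivity) (by positivity) hlow hup
  have hthr : c1 / 2 ^ q / R ^ q / 2 * (1 / R ^ (2 + p + q)) ^ (K + 1) =
      c1 / 2 ^ q / 2 / R ^ (q + (2 + p + q) * (K + 1)) := by
    rw [pow_add R q, pow_mul, one_div_pow]; field_simp
  rw [hthr] at hmain
  refine hmain.trans (ENNReal.ofReal_le_ofReal ?_)
  have h1 : 4 * R * ((CA + CB) * 2 ^ p * R ^ p) / (c1 / 2 ^ q / R ^ q) + 1 ≤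
      C3 * R ^ (1 + p + q) := by
    have h2 : 4 * R * ((CA + CB) * 2 ^ p * R ^ p) / (c1 / 2 ^ q / R ^ q) =
        4 * ((CA + CB) * 2 ^ p) / (c1 / 2 ^ q) * R ^ (1 + p + q) := by
      rw [pow_add, pow_add]; field_simp
    have h3 : 1 ≤ R ^ (1 + p + q) := one_le_pow₀ hR
    rw [h2, hC3]; linarith
  calc _ ≤ C3 * R ^ (1 + p + q) * (4 * 2 ^ (K + 1) * (1 / R ^ (2 + p + q))) :=
        mul_le_mul_of_nonneg_right h1 (by positivity)
    _ = _ := by
        rw [show 2 + p + q = (1 + p + q) + 1 by ring, pow_succ R]; field_simp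

end Pool.Agent.Lib.MP_24bb3f_an
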