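import Mathlib

/-!
Algebra of powers of unit quaternions and their derivatives.
-/

namespace Pool.Agent.Lib.MP_24bb3f_an

open Quaternion

theorem quat_unit_iff (M : ℍ) :
    ‖M‖ = 1 ↔ M.re ^ 2 + M.imI ^ 2 + M.imJ ^ 2 + M.imK ^ 2 = 1 := by
  rw [← normSq_def', normSq_eq_norm_mul_self]
  constructor
  · intro h; rw [h]; norm_num
  · intro h
    have := norm_nonneg M
    nlinarith

theorem quat_norm_sq (M : ℍ) : ‖M‖ ^ 2 = M.re ^ 2 + M.imI ^ 2 + M.imJ ^ 2 + M.imK ^ 2 := by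
  rw [← normSq_def', normSq_eq_norm_mul_self, sq]

theorem abs_re_le (M : ℍ) : |M.re| ≤ ‖M‖ := by
  refine abs_le.2 (abs_le_of_sq_le_sq' ?_ (norm_nonneg _))
  rw [quat_norm_sq]
  nlinarith [sq_nonneg M.imI, sq_nonneg M.imJ, sq_nonneg M.imK]

theorem norm_im_le (M : ℍ) : ‖M.im‖ ≤ ‖M‖ := by
  refine (abs_le_of_sq_le_sq' ?_ (norm_nonneg _)).2
  rw [quat_norm_sq, quat_norm_sq]
  simp only [re_im, imI_im, imJ_im, imK_im]
  nlinarith [sq_nonneg M.re]

theorem norm_im_sq {M : ℍ} (h : ‖M‖ = 1) : ‖M.im‖ ^ 2 = 1 - M.re ^ 2 := by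
  rw [quat_norm_sq]
  simp only [re_im, imI_im, imJ_im, imK_im]
  have := (quat_unit_iff M).1 h
  linarith

theorem im_mul_im {M : ℍ} (h : ‖M‖ = 1) (P : ℍ) :
    M.im * (M.im * P) = (-(1 - M.re ^ 2)) • P := by
  have h1 := (quat_unit_iff M).1 h
  have : M.im * M.im = (-(1 - M.re ^ 2) : ℝ) • (1 : ℍ) := by
    ext <;> simp <;> first | ring1 | linear_combination (-1 : ℝ) * h1
  rw [← mul_assoc, this, smul_mul_assoc, one_mul]

theorem sq_unit {M : ℍ} (h : ‖M‖ = 1) : M ^ 2 = (2 * M.re) • M - 1 := by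
  have h1 := (quat_unit_iff M).1 h
  rw [sq]
  ext <;> simp <;> first | ring1 | linear_combination (-1 : ℝ) * h1

/-- The derivative of the power of a unit quaternion valued function. -/
theorem pow_deriv_identity {M : ℝ → ℍ} {M' : ℍ} {ξ : ℝ} (hd : HasDerivAt M M' ξ)
    (hu : ‖M ξ‖ = 1)
    (ht : (M ξ).re * M'.re + (M ξ).imI * M'.imI + (M ξ).imJ * M'.imJ + (M ξ).imK * M'.imK = 0)
    (n : ℕ) : ∃ P' Rem : ℍ, HasDerivAt (fun x => M x ^ n) P' ξ ∧
      (1 - (M ξ).re ^ 2) • P' = (-(n * M'.re)) • ((M ξ).im * M ξ ^ n) + Rem ∧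
      ‖Rem‖ ≤ 2 * ‖M'‖ := by
  set q := M ξ with hq
  have h1 := (quat_unit_iff q).1 hu
  set Q : ℍ := (1 - q.re ^ 2) • M'.im + (q.re * M'.re) • q.im with hQ
  have hBM : (1 - q.re ^ 2) • M' = (-M'.re) • (q.im * q) + Q := by
    rw [hQ]
    ext <;> simp <;> first | ring1 | linear_combination (-M'.re) * h1
  have hQM : Q * q = star q * Q := by
    rw [hQ]
    ext <;> simp <;> first
      | ring1
      | linear_combination (-2 * (1 - q.re ^ 2)) * ht - 2 * q.re * M'.re * h1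
  have hcomm : q.im * q = q * q.im := by
    ext <;> simp <;> ring1
  have hcomm' : ∀ k : ℕ, q ^ k * q.im = q.im * q ^ k := fun k =>
    ((Commute.pow_right hcomm k).eq).symm
  have hstar : ∀ k : ℕ, q ^ k * star q = star q * q ^ k := fun k =>
    ((Commute.pow_left (star_comm_self' q).symm k).eq)
  have key : ∃ P' G : ℍ, HasDerivAt (fun x => M x ^ n) P' ξ ∧
      (1 - q.re ^ 2) • P' = (-(n * M'.re)) • (q.im * q ^ n) + G * Q ∧
      (q - star q) * G = q ^ n - star q ^ n := by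
    induction n with
    | zero => exact ⟨0, 0, by simpa using hasDerivAt_const ξ (1 : ℍ), by simp, by simp⟩
    | succ n ih =>
      obtain ⟨P', G, hP, hB, hG⟩ := ih
      refine ⟨P' * q + q ^ n * M', G * star q + q ^ n, ?_, ?_, ?_⟩
      · have := hP.fun_mul hd
        simp only [← pow_succ] at this
        exact this
      · have e1 : (1 - q.re ^ 2) • (P' * q) =
            (-(n * M'.re)) • (q.im * q ^ (n + 1)) + G * star q * Q := by
          rw [← smul_mul_assoc, hB, add_mul, mul_assoc G Q q, hQM, smul_mul_assoc, mul_assoc,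
            ← pow_succ, mul_assoc G]
        have e2 : (1 - q.re ^ 2) • (q ^ n * M') =
            (-M'.re) • (q.im * q ^ (n + 1)) + q ^ n * Q := by
          rw [← mul_smul_comm, hBM, mul_add (q ^ n), mul_smul_comm, ← mul_assoc (q ^ n), hcomm',
            mul_assoc, ← pow_succ]
        rw [smul_add, e1, e2, add_mul]
        push_cast
        module
      · rw [mul_add, ← mul_assoc, hG, sub_mul, sub_mul, hstar, ← pow_succ, ← pow_succ']
        abel
  obtain ⟨P', G, hP, hB, hG⟩ := key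
  refine ⟨P', G * Q, hP, hB, ?_⟩
  have hJ : q - star q = (2 : ℝ) • q.im := by
    ext <;> simp <;> ring1
  have hG' : ‖q.im‖ * ‖G‖ ≤ 1 := by
    have h2 : ‖(q - star q) * G‖ ≤ 2 := by
      rw [hG]
      refine (norm_sub_le _ _).trans ?_
      rw [norm_pow, norm_pow, Quaternion.norm_star, hu]; norm_num
    rw [hJ, norm_mul, norm_smul, Real.norm_ofNat] at h2
    linarith
  have hJ1 : ‖q.im‖ ≤ 1 := hu ▸ norm_im_le q
  have hD1 : |q.re| ≤ 1 := (abs_re_le q).trans hu.le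
  have hQn : ‖Q‖ ≤ 2 * ‖q.im‖ * ‖M'‖ := by
    rw [hQ, ← norm_im_sq hu]
    refine (norm_add_le _ _).trans ?_
    rw [norm_smul, norm_smul, Real.norm_eq_abs, Real.norm_eq_abs, abs_of_nonneg (sq_nonneg _),
      abs_mul]
    have h2 := norm_im_le M'
    have h3 := abs_re_le M'
    have h4 : |q.re| * |M'.re| ≤ 1 * ‖M'‖ := mul_le_mul hD1 h3 (abs_nonneg _) zero_le_one
    have h5 : ‖q.im‖ * ‖M'.im‖ ≤ 1 * ‖M'‖ := mul_le_mul hJ1 h2 (norm_nonneg _) zero_le_one
    have h6 := mul_le_mul_of_nonneg_left h4 (norm_nonneg q.im)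
    have h7 := mul_le_mul_of_nonneg_left h5 (norm_nonneg q.im)
    nlinarith
  rw [norm_mul]
  calc ‖G‖ * ‖Q‖ ≤ ‖G‖ * (2 * ‖q.im‖ * ‖M'‖) := mul_le_mul_of_nonneg_left hQn (norm_nonneg _)
    _ = 2 * ‖M'‖ * (‖q.im‖ * ‖G‖) := by ring
    _ ≤ 2 * ‖M'‖ * 1 := mul_le_mul_of_nonneg_left hG' (by positivity)
    _ = _ := mul_one _

end Pool.Agent.Lib.MP_24bb3f_an
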