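import Mathlib
import Pool.Agent.Lib.MP_24bb3f_an.ExpPoly

/-!
Families of differentiable functions bounded, with their derivative, by a power of `1 + |ξ|`,
uniformly in the parameter.
-/

namespace Pool.Agent.Lib.MP_24bb3f_an

open Set Filter Topology MeasureTheory

/-- Uniformly polynomially bounded families, together with the first derivative. -/
def PB {P F : Type} [NormedAddCommGroup F] [NormedSpace ℝ F] (f : P → ℝ → F) : Prop :=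
  ∃ (C : ℝ) (p : ℕ), 0 < C ∧ ∀ a ξ, DifferentiableAt ℝ (f a) ξ ∧
    ‖f a ξ‖ ≤ C * (1 + |ξ|) ^ p ∧ ‖deriv (f a) ξ‖ ≤ C * (1 + |ξ|) ^ p

variable {P F : Type} [NormedAddCommGroup F] [NormedSpace ℝ F]

theorem PB.reparam {Q : Type} {f : P → ℝ → F} (hf : PB f) (g : Q → P) :
    PB fun b => f (g b) := by
  obtain ⟨C, p, hC, h⟩ := hf
  exact ⟨C, p, hC, fun b ξ => h (g b) ξ⟩

theorem PB.const {c : P → F} {C : ℝ} (h : ∀ a, ‖c a‖ ≤ C) : PB fun a (_ : ℝ) => c a :=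
  ⟨|C| + 1, 0, by positivity, fun a ξ => ⟨differentiableAt_const _,
    by simpa using (h a).trans (by linarith [le_abs_self C]), by simp; positivity⟩⟩

theorem PB.add {f g : P → ℝ → F} (hf : PB f) (hg : PB g) : PB fun a ξ => f a ξ + g a ξ := by
  obtain ⟨C, p, hC, h1⟩ := hf
  obtain ⟨D, q, hD, h2⟩ := hg
  refine ⟨C + D, max p q, by positivity, fun a ξ => ?_⟩
  obtain ⟨d1, b1, b1'⟩ := h1 a ξ
  obtain ⟨d2, b2, b2'⟩ := h2 a ξ
  have h3 := mul_le_mul_of_nonneg_left (w_pow_mono ξ (le_max_left p q)) hC.le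
  have h4 := mul_le_mul_of_nonneg_left (w_pow_mono ξ (le_max_right p q)) hD.le
  refine ⟨d1.add d2, (norm_add_le _ _).trans (by linarith), ?_⟩
  rw [deriv_fun_add d1 d2]
  exact (norm_add_le _ _).trans (by linarith)

theorem PB.bilin {G H : Type} [NormedAddCommGroup G] [NormedSpace ℝ G] [NormedAddCommGroup H]
    [NormedSpace ℝ H] (L : F →L[ℝ] G →L[ℝ] H) (hL : ∀ x y, ‖L x y‖ ≤ ‖x‖ * ‖y‖)
    {f : P → ℝ → F} {g : P → ℝ → G} (hf : PB f) (hg : PB g) :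
    PB fun a ξ => L (f a ξ) (g a ξ) := by
  obtain ⟨C, p, hC, h1⟩ := hf
  obtain ⟨D, q, hD, h2⟩ := hg
  refine ⟨2 * (C * D), p + q, by positivity, fun a ξ => ?_⟩
  obtain ⟨d1, b1, b1'⟩ := h1 a ξ
  obtain ⟨d2, b2, b2'⟩ := h2 a ξ
  have hd : HasDerivAt (fun ξ => L (f a ξ) (g a ξ))
      (L (f a ξ) (deriv (g a) ξ) + L (deriv (f a) ξ) (g a ξ)) ξ :=
    L.hasDerivAt_of_bilinear (fun _ => d1.hasDerivAt) (fun _ => d2.hasDerivAt)
  have key : ∀ (x : F) (y : G), ‖x‖ ≤ C * (1 + |ξ|) ^ p → ‖y‖ ≤ D * (1 + |ξ|) ^ q →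
      ‖L x y‖ ≤ C * D * (1 + |ξ|) ^ (p + q) := by
    intro x y hx hy
    calc ‖L x y‖ ≤ ‖x‖ * ‖y‖ := hL x y
      _ ≤ (C * (1 + |ξ|) ^ p) * (D * (1 + |ξ|) ^ q) :=
          mul_le_mul hx hy (norm_nonneg _) (by positivity)
      _ = _ := by rw [pow_add]; ring
  have h0 : 0 ≤ C * D * (1 + |ξ|) ^ (p + q) := by positivity
  refine ⟨hd.differentiableAt, by linarith [key _ _ b1 b2], ?_⟩
  rw [hd.deriv]
  exact (norm_add_le _ _).trans (by linarith [key _ _ b1 b2', key _ _ b1' b2])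

theorem PB.smul {f : P → ℝ → ℝ} {g : P → ℝ → F} (hf : PB f) (hg : PB g) :
    PB fun a ξ => f a ξ • g a ξ :=
  PB.bilin (ContinuousLinearMap.lsmul ℝ ℝ) (fun x y => (norm_smul x y).le) hf hg

theorem PB.mul {A : Type} [NormedRing A] [NormedAlgebra ℝ A] {f g : P → ℝ → A} (hf : PB f)
    (hg : PB g) : PB fun a ξ => f a ξ * g a ξ :=
  PB.bilin (ContinuousLinearMap.mul ℝ A) (fun x y => norm_mul_le x y) hf hg

theorem PB.sub {f g : P → ℝ → F} (hf : PB f) (hg : PB g) : PB fun a ξ => f a ξ - g a ξ := by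
  have := hf.add ((PB.const (P := P) (c := fun _ => (-1 : ℝ)) (C := 1) (by simp)).smul hg)
  simpa [sub_eq_add_neg] using this

theorem PB.clm {G : Type} [NormedAddCommGroup G] [NormedSpace ℝ G] (L : F →L[ℝ] G)
    {f : P → ℝ → F} (hf : PB f) : PB fun a ξ => L (f a ξ) := by
  obtain ⟨C, p, hC, h1⟩ := hf
  refine ⟨(‖L‖ + 1) * C, p, by positivity, fun a ξ => ?_⟩
  obtain ⟨d1, b1, b1'⟩ := h1 a ξ
  have hd : HasDerivAt (fun ξ => L (f a ξ)) (L (deriv (f a) ξ)) ξ :=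
    L.hasFDerivAt.comp_hasDerivAt ξ d1.hasDerivAt
  have key : ∀ x : F, ‖x‖ ≤ C * (1 + |ξ|) ^ p → ‖L x‖ ≤ (‖L‖ + 1) * C * (1 + |ξ|) ^ p := by
    intro x hx
    calc ‖L x‖ ≤ ‖L‖ * ‖x‖ := L.le_opNorm x
      _ ≤ (‖L‖ + 1) * (C * (1 + |ξ|) ^ p) :=
          mul_le_mul (by linarith) hx (norm_nonneg _) (by positivity)
      _ = _ := by ring
  exact ⟨hd.differentiableAt, key _ b1, by rw [hd.deriv]; exact key _ b1'⟩

theorem Ecl.pb {m : ℝ} (hm : 0 < m) {f : ℝ → ℂ} (hf : Ecl m f) : PB fun (_ : P) => f := by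
  obtain ⟨C, p, hC, h⟩ := hf.jet_bound hm 1
  exact ⟨C, p, hC, fun _ ξ => ⟨(hf.analyticAt hm ξ).differentiableAt,
    by simpa using h 0 (by norm_num) ξ, by simpa using h 1 le_rfl ξ⟩⟩

theorem Ecl.pb_real {m : ℝ} (hm : 0 < m) {f : ℝ → ℝ} (hf : Ecl m fun x => (f x : ℂ)) :
    PB fun (_ : P) => f := by
  simpa using (hf.pb (P := P) hm).clm Complex.reCLM

/-- The regulariser. -/
noncomputable def reg (κ y : ℝ) : ℝ := κ ^ 2 * y / (y ^ 2 + κ ^ 2)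

theorem PB.reg {h : P → ℝ → ℝ} (hh : PB h) {κ : P → ℝ} (h0 : ∀ a, 0 < κ a) (h1 : ∀ a, κ a ≤ 1) :
    PB fun a ξ => reg (κ a) (h a ξ) := by
  obtain ⟨C, p, hC, h2⟩ := hh
  refine ⟨C + 1, p, by positivity, fun a ξ => ?_⟩
  obtain ⟨d, -, b'⟩ := h2 a ξ
  have hk := h0 a
  have hk1 := h1 a
  set k := κ a
  set y := h a ξ with hy
  have hden : 0 < y ^ 2 + k ^ 2 := by positivity
  have hd : HasDerivAt (fun ξ => Pool.Agent.Lib.MP_24bb3f_an.reg k (h a ξ))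
      (k ^ 2 * (k ^ 2 - y ^ 2) / (y ^ 2 + k ^ 2) ^ 2 * deriv (h a) ξ) ξ := by
    have := (d.hasDerivAt.const_mul (k ^ 2)).fun_div
      ((d.hasDerivAt.fun_pow 2).add_const (k ^ 2)) hden.ne'
    refine this.congr_deriv ?_
    rw [← hy]
    field_simp
    push_cast
    ring
  have hw : 1 ≤ (1 + |ξ|) ^ p := one_le_pow₀ (one_le_w ξ)
  refine ⟨hd.differentiableAt, ?_, ?_⟩
  · have : |Pool.Agent.Lib.MP_24bb3f_an.reg k y| ≤ 1 := by
      unfold Pool.Agent.Lib.MP_24bb3f_an.reg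
      rw [abs_div, abs_of_pos hden, div_le_one hden, abs_mul, abs_of_pos (by positivity)]
      have h3 := sq_abs y
      have h4 : k ^ 2 * |y| ≤ k * |y| := mul_le_mul_of_nonneg_right (by nlinarith) (abs_nonneg _)
      nlinarith [sq_nonneg (|y| - k)]
    rw [Real.norm_eq_abs]
    nlinarith
  · rw [hd.deriv, norm_mul]
    have : ‖k ^ 2 * (k ^ 2 - y ^ 2) / (y ^ 2 + k ^ 2) ^ 2‖ ≤ 1 := by
      rw [Real.norm_eq_abs, abs_div, abs_of_pos (pow_pos hden 2), div_le_one (pow_pos hden 2),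
        abs_mul, abs_of_pos (by positivity)]
      have h3 : |k ^ 2 - y ^ 2| ≤ y ^ 2 + k ^ 2 := by
        rw [abs_le]; constructor <;> nlinarith [sq_nonneg y, sq_nonneg k]
      calc k ^ 2 * |k ^ 2 - y ^ 2| ≤ (y ^ 2 + k ^ 2) * (y ^ 2 + k ^ 2) :=
            mul_le_mul (by nlinarith [sq_nonneg y]) h3 (abs_nonneg _) hden.le
        _ = _ := by ring
    calc _ ≤ 1 * (C * (1 + |ξ|) ^ p) := mul_le_mul this b' (norm_nonneg _) zero_le_one
      _ ≤ _ := by nlinarith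

/-- The weight `(1 + ξ²)^(-p)`. -/
noncomputable def wt (p : ℕ) (ξ : ℝ) : ℝ := ((1 + ξ ^ 2) ^ p)⁻¹

theorem wt_pos (p : ℕ) (ξ : ℝ) : 0 < wt p ξ := by unfold wt; positivity

theorem continuous_wt (p : ℕ) : Continuous (wt p) := by
  unfold wt
  exact Continuous.inv₀ (by fun_prop) fun ξ => by positivity

theorem wt_mul_le {p q : ℕ} (h : q + 1 ≤ p) (ξ : ℝ) :
    wt p ξ * (1 + |ξ|) ^ q ≤ 2 ^ q * (1 + ξ ^ 2)⁻¹ := by
  have h0 : 1 ≤ 1 + ξ ^ 2 := by nlinarith [sq_nonneg ξ]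
  have h1 : 1 + |ξ| ≤ 2 * (1 + ξ ^ 2) := by nlinarith [sq_abs ξ, sq_nonneg (|ξ| - 1), abs_nonneg ξ]
  have h2 : (1 + |ξ|) ^ q ≤ (2 * (1 + ξ ^ 2)) ^ q := pow_le_pow_left₀ (by positivity) h1 q
  have h3 : (1 + ξ ^ 2) ^ (q + 1) ≤ (1 + ξ ^ 2) ^ p := pow_le_pow_right₀ h0 h
  calc wt p ξ * (1 + |ξ|) ^ q ≤ ((1 + ξ ^ 2) ^ (q + 1))⁻¹ * (2 * (1 + ξ ^ 2)) ^ q :=
        mul_le_mul (inv_anti₀ (by positivity) h3) h2 (by positivity) (by positivity)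
    _ = _ := by rw [mul_pow, pow_succ]; field_simp

theorem wt_le {p : ℕ} (h : 1 ≤ p) (ξ : ℝ) : wt p ξ ≤ (1 + ξ ^ 2)⁻¹ := by
  simpa using wt_mul_le (p := p) (q := 0) h ξ

theorem hasDerivAt_wt (p : ℕ) (ξ : ℝ) :
    HasDerivAt (wt p) (-(p * (2 * ξ / (1 + ξ ^ 2))) * wt p ξ) ξ := by
  have h1 : HasDerivAt (fun ξ : ℝ => 1 + ξ ^ 2) (2 * ξ) ξ := by
    simpa using (hasDerivAt_pow 2 ξ).const_add 1
  have h0 : 0 < 1 + ξ ^ 2 := by positivity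
  have h2 := (h1.fun_pow p).fun_inv (pow_pos h0 p).ne'
  refine h2.congr_deriv ?_
  unfold wt
  cases p with
  | zero => simp
  | succ p => simp only [Nat.add_sub_cancel, pow_succ]; field_simp

theorem PB.weighted {f : P → ℝ → F} (hf : PB f) :
    ∃ p0 : ℕ, ∀ p ≥ p0, ∃ C : ℝ, 0 < C ∧ ∀ a ξ,
      DifferentiableAt ℝ (fun ξ => wt p ξ • f a ξ) ξ ∧
      ‖wt p ξ • f a ξ‖ ≤ C * (1 + ξ ^ 2)⁻¹ ∧
      ‖deriv (fun ξ => wt p ξ • f a ξ) ξ‖ ≤ C * (1 + ξ ^ 2)⁻¹ := by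
  obtain ⟨C, q, hC, h⟩ := hf
  refine ⟨q + 1, fun p hp => ⟨(p + 1) * (C * 2 ^ q), by positivity, fun a ξ => ?_⟩⟩
  obtain ⟨d, b, b'⟩ := h a ξ
  have hd := (hasDerivAt_wt p ξ).fun_smul d.hasDerivAt
  have h1 := wt_mul_le hp ξ
  have hw := wt_pos p ξ
  have key : ∀ x : F, ‖x‖ ≤ C * (1 + |ξ|) ^ q → wt p ξ * ‖x‖ ≤ C * 2 ^ q * (1 + ξ ^ 2)⁻¹ := by
    intro x hx
    calc wt p ξ * ‖x‖ ≤ wt p ξ * (C * (1 + |ξ|) ^ q) := mul_le_mul_of_nonneg_left hx hw.le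
      _ = C * (wt p ξ * (1 + |ξ|) ^ q) := by ring
      _ ≤ C * (2 ^ q * (1 + ξ ^ 2)⁻¹) := mul_le_mul_of_nonneg_left h1 hC.le
      _ = _ := by ring
  have h0 : 0 ≤ C * 2 ^ q * (1 + ξ ^ 2)⁻¹ := by positivity
  have hp0 : (0 : ℝ) ≤ p := Nat.cast_nonneg p
  refine ⟨hd.differentiableAt, ?_, ?_⟩
  · rw [norm_smul, Real.norm_eq_abs, abs_of_pos hw]
    nlinarith [key _ b]
  · rw [hd.deriv]
    refine (norm_add_le _ _).trans ?_
    rw [norm_smul, norm_smul, Real.norm_eq_abs, Real.norm_eq_abs, abs_of_pos hw, abs_mul,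
      abs_of_pos hw, abs_neg, abs_mul, Nat.abs_cast]
    have h2 : |2 * ξ / (1 + ξ ^ 2)| ≤ 1 := by
      rw [abs_div, abs_of_pos (by positivity : 0 < 1 + ξ ^ 2), div_le_one (by positivity),
        abs_mul, abs_two]
      nlinarith [sq_abs ξ, sq_nonneg (|ξ| - 1)]
    have h3 : p * |2 * ξ / (1 + ξ ^ 2)| * wt p ξ * ‖f a ξ‖ ≤ p * (C * 2 ^ q * (1 + ξ ^ 2)⁻¹) := by
      calc _ = p * (|2 * ξ / (1 + ξ ^ 2)| * (wt p ξ * ‖f a ξ‖)) := by ring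
        _ ≤ p * (1 * (C * 2 ^ q * (1 + ξ ^ 2)⁻¹)) := by
          refine mul_le_mul_of_nonneg_left ?_ hp0
          exact mul_le_mul h2 (key _ b) (by positivity) zero_le_one
        _ = _ := by ring
    nlinarith [key _ b']

/-- Integration by parts in the form used below. -/
theorem norm_integral_le_of_deriv [CompleteSpace F] {G Φ Φ' : ℝ → F} {C C' : ℝ}
    (hG : Integrable G) (hΦ : ∀ x, HasDerivAt Φ (Φ' x) x)
    (hΦb : ∀ x, ‖Φ x‖ ≤ C' * (1 + x ^ 2)⁻¹) (h : ∀ x, ‖G x - Φ' x‖ ≤ C * (1 + x ^ 2)⁻¹) :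
    ‖∫ x, G x‖ ≤ C * Real.pi := by
  have hΦ'm : AEStronglyMeasurable Φ' volume := by
    have : Φ' = deriv Φ := funext fun x => (hΦ x).deriv.symm
    rw [this]
    exact (stronglyMeasurable_deriv Φ).aestronglyMeasurable
  have hE : Integrable fun x => G x - Φ' x :=
    (integrable_inv_one_add_sq.const_mul C).mono' (hG.1.sub hΦ'm) (Eventually.of_forall h)
  have hΦ' : Integrable Φ' := by
    have := hG.sub hE
    refine this.congr (Eventually.of_forall fun x => ?_)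
    simp
  have hc : Continuous Φ := continuous_iff_continuousAt.2 fun x => (hΦ x).continuousAt
  have hΦi : Integrable Φ :=
    (integrable_inv_one_add_sq.const_mul C').mono' hc.aestronglyMeasurable
      (Eventually.of_forall hΦb)
  have h0 := integral_eq_zero_of_hasDerivAt_of_integrable hΦ hΦ' hΦi
  have h1 : ∫ x, G x = ∫ x, (G x - Φ' x) := by rw [integral_sub hG hΦ', h0, sub_zero]
  rw [h1]
  refine (norm_integral_le_of_norm_le (integrable_inv_one_add_sq.const_mul C)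
    (Eventually.of_forall h)).trans ?_
  rw [integral_const_mul, integral_univ_inv_one_add_sq]

end Pool.Agent.Lib.MP_24bb3f_an
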