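import Mathlib
import Pool.Agent.Lib.MP_24bb3f_an.Jets
import Pool.Agent.Lib.MP_24bb3f_an.Tame
import Pool.Agent.Lib.MP_24bb3f_an.QuatAlg

/-!
The oscillatory integral estimate for `∫ w(ξ) cos (x ξ + φ) R(ξ) M(ξ)^n dξ`.
-/

namespace Pool.Agent.Lib.MP_24bb3f_an

open Set Filter Topology MeasureTheory Quaternion

noncomputable def reL : ℍ →L[ℝ] ℝ :=
  LinearMap.toContinuousLinearMap
    { toFun := fun q : ℍ => q.re, map_add' := fun _ _ => rfl, map_smul' := fun _ _ => rfl }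

noncomputable def imIL : ℍ →L[ℝ] ℝ :=
  LinearMap.toContinuousLinearMap
    { toFun := fun q : ℍ => q.imI, map_add' := fun _ _ => rfl, map_smul' := fun _ _ => rfl }

noncomputable def imJL : ℍ →L[ℝ] ℝ :=
  LinearMap.toContinuousLinearMap
    { toFun := fun q : ℍ => q.imJ, map_add' := fun _ _ => rfl, map_smul' := fun _ _ => rfl }

noncomputable def imKL : ℍ →L[ℝ] ℝ :=
  LinearMap.toContinuousLinearMap
    { toFun := fun q : ℍ => q.imK, map_add' := fun _ _ => rfl, map_smul' := fun _ _ => rfl }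

noncomputable def imL : ℍ →L[ℝ] ℍ :=
  LinearMap.toContinuousLinearMap
    { toFun := fun q : ℍ => q.im, map_add' := fun _ _ => im_add _ _,
      map_smul' := fun _ _ => im_smul _ _ }

/-- Quaternion valued functions with components in the class. -/
structure QE (m : ℝ) (M : ℝ → ℍ) : Prop where
  re : Ecl m fun x => ((M x).re : ℂ)
  imI : Ecl m fun x => ((M x).imI : ℂ)
  imJ : Ecl m fun x => ((M x).imJ : ℂ)
  imK : Ecl m fun x => ((M x).imK : ℂ)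

variable {m : ℝ}

theorem QE.one : QE m fun _ => 1 :=
  ⟨(ecl_const 1).congr fun _ => by simp, (ecl_const 0).congr fun _ => by simp,
    (ecl_const 0).congr fun _ => by simp, (ecl_const 0).congr fun _ => by simp⟩

theorem QE.mul {M N : ℝ → ℍ} (hM : QE m M) (hN : QE m N) : QE m fun x => M x * N x where
  re := ((((hM.re.mul hN.re).sub (hM.imI.mul hN.imI)).sub (hM.imJ.mul hN.imJ)).sub
    (hM.imK.mul hN.imK)).congr fun _ => by simp
  imI := ((((hM.re.mul hN.imI).add (hM.imI.mul hN.re)).add (hM.imJ.mul hN.imK)).sub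
    (hM.imK.mul hN.imJ)).congr fun _ => by simp
  imJ := ((((hM.re.mul hN.imJ).sub (hM.imI.mul hN.imK)).add (hM.imJ.mul hN.re)).add
    (hM.imK.mul hN.imI)).congr fun _ => by simp
  imK := ((((hM.re.mul hN.imK).add (hM.imI.mul hN.imJ)).sub (hM.imJ.mul hN.imI)).add
    (hM.imK.mul hN.re)).congr fun _ => by simp

def qI : ℍ := ⟨0, 1, 0, 0⟩

def qJ : ℍ := ⟨0, 0, 1, 0⟩

def qK : ℍ := ⟨0, 0, 0, 1⟩

theorem quat_decomp (q : ℍ) : q = q.re • (1 : ℍ) + q.imI • qI + q.imJ • qJ + q.imK • qK := by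
  ext <;> simp only [re_add, imI_add, imJ_add, imK_add, re_smul, imI_smul, imJ_smul, imK_smul] <;>
    simp [qI, qJ, qK]

theorem QE.pb {P : Type} (hm : 0 < m) {M : ℝ → ℍ} (hM : QE m M) : PB fun (_ : P) => M := by
  have c : ∀ q : ℍ, PB fun (_ : P) (_ : ℝ) => q := fun q => PB.const (C := ‖q‖) fun _ => le_rfl
  have := ((((hM.re.pb_real hm).smul (c 1)).add ((hM.imI.pb_real hm).smul (c qI))).add
    ((hM.imJ.pb_real hm).smul (c qJ))).add ((hM.imK.pb_real hm).smul (c qK))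
  convert this using 3 with _ x
  exact quat_decomp (M x)

theorem tangent_of_unit {M : ℝ → ℍ} {M' : ℍ} {ξ : ℝ} (hd : HasDerivAt M M' ξ)
    (hu : ∀ x, ‖M x‖ = 1) :
    (M ξ).re * M'.re + (M ξ).imI * M'.imI + (M ξ).imJ * M'.imJ + (M ξ).imK * M'.imK = 0 := by
  have h1 : HasDerivAt (fun x => (M x).re) M'.re ξ := reL.hasFDerivAt.comp_hasDerivAt ξ hd
  have h2 : HasDerivAt (fun x => (M x).imI) M'.imI ξ := imIL.hasFDerivAt.comp_hasDerivAt ξ hd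
  have h3 : HasDerivAt (fun x => (M x).imJ) M'.imJ ξ := imJL.hasFDerivAt.comp_hasDerivAt ξ hd
  have h4 : HasDerivAt (fun x => (M x).imK) M'.imK ξ := imKL.hasFDerivAt.comp_hasDerivAt ξ hd
  have h5 := (((h1.fun_pow 2).fun_add (h2.fun_pow 2)).fun_add (h3.fun_pow 2)).fun_add (h4.fun_pow 2)
  have h6 : (fun x => (M x).re ^ 2 + (M x).imI ^ 2 + (M x).imJ ^ 2 + (M x).imK ^ 2) =
      fun _ => (1 : ℝ) := funext fun x => (quat_unit_iff _).1 (hu x)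
  rw [h6] at h5
  have h7 := h5.unique (hasDerivAt_const ξ (1 : ℝ))
  norm_num at h7
  linarith

/-- Half the trace. -/
def Dd (M : ℝ → ℍ) (ξ : ℝ) : ℝ := (M ξ).re

def Bb (M : ℝ → ℍ) (ξ : ℝ) : ℝ := 1 - Dd M ξ ^ 2

noncomputable def Aa (M : ℝ → ℍ) (ξ : ℝ) : ℝ := deriv (Dd M) ξ ^ 2

noncomputable def al (v : ℝ) : ℝ := 1 / (1 + v ^ 2)

noncomputable def be (v : ℝ) : ℝ := v ^ 2 / (1 + v ^ 2)

noncomputable def ht (M : ℝ → ℍ) (v ξ : ℝ) : ℝ := Bb M ξ * (al v * Aa M ξ - be v * Bb M ξ)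

theorem al_nonneg (v : ℝ) : 0 ≤ al v := by unfold al; positivity

theorem be_nonneg (v : ℝ) : 0 ≤ be v := by unfold be; positivity

theorem al_add_be (v : ℝ) : al v + be v = 1 := by unfold al be; field_simp

theorem al_mul_sq (v : ℝ) : al v * v ^ 2 = be v := by unfold al be; field_simp

theorem abs_al_mul (v : ℝ) : |al v * v| ≤ 1 := by
  unfold al
  rw [abs_mul, abs_of_pos (by positivity), one_div_mul_eq_div, div_le_one (by positivity)]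
  nlinarith [sq_abs v, sq_nonneg (|v| - 1), abs_nonneg v]

theorem QE.ecl_Dd {M : ℝ → ℍ} (hM : QE m M) : Ecl m fun x => (Dd M x : ℂ) := hM.re

theorem Ecl.deriv_real (hm : 0 < m) {f : ℝ → ℝ} (hf : Ecl m fun x => (f x : ℂ)) :
    Ecl m fun x => ((_root_.deriv f x : ℝ) : ℂ) :=
  (hf.deriv hm).congr fun x =>
    ((contDiff_of_ofReal (hf.contDiff hm)).differentiable (by simp) x).hasDerivAt.ofReal_comp.deriv.symm

theorem QE.ecl_Bb {M : ℝ → ℍ} (hM : QE m M) : Ecl m fun x => (Bb M x : ℂ) :=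
  ((ecl_const 1).sub (hM.ecl_Dd.mul hM.ecl_Dd)).congr fun x => by simp [Bb, sq]

theorem QE.ecl_Aa (hm : 0 < m) {M : ℝ → ℍ} (hM : QE m M) : Ecl m fun x => (Aa M x : ℂ) :=
  ((hM.ecl_Dd.deriv_real hm).mul (hM.ecl_Dd.deriv_real hm)).congr fun x => by simp [Aa, sq]

theorem good_bound {P : Type} (hm : 0 < m) {M : ℝ → ℍ} (hM : QE m M) (hu : ∀ x, ‖M x‖ = 1)
    {R : P → ℝ → ℍ} (hR : PB R) (hR1 : ∀ a ξ, ‖R a ξ‖ ≤ 1) :
    ∃ p0 : ℕ, ∀ p ≥ p0, ∃ C : ℝ, 0 < C ∧ ∀ (a : P) (n : ℕ) (v φ κ : ℝ), 0 < κ → κ ≤ 1 →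
      ‖∫ ξ, (κ ^ 2 * n * (wt p ξ * (ht M v ξ ^ 2 / (ht M v ξ ^ 2 + κ ^ 2)) *
        Real.cos (n * v * ξ + φ))) • (R a ξ * M ξ ^ n)‖ ≤ C := by
  let Q := P × ℝ × {κ : ℝ // 0 < κ ∧ κ ≤ 1}
  have pD1 : PB fun (_ : Q) => deriv (Dd M) := (hM.ecl_Dd.deriv_real hm).pb_real hm
  have pB : PB fun (_ : Q) => Bb M := hM.ecl_Bb.pb_real hm
  have pA : PB fun (_ : Q) => Aa M := (hM.ecl_Aa hm).pb_real hm
  have pal : PB fun (b : Q) (_ : ℝ) => al b.2.1 := PB.const (C := 1) fun b => by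
    rw [Real.norm_eq_abs, abs_of_nonneg (al_nonneg _)]; linarith [al_add_be b.2.1, be_nonneg b.2.1]
  have pbe : PB fun (b : Q) (_ : ℝ) => be b.2.1 := PB.const (C := 1) fun b => by
    rw [Real.norm_eq_abs, abs_of_nonneg (be_nonneg _)]; linarith [al_add_be b.2.1, al_nonneg b.2.1]
  have palv : PB fun (b : Q) (_ : ℝ) => al b.2.1 * b.2.1 := PB.const (C := 1) fun b =>
    abs_al_mul _
  have pht : PB fun (b : Q) ξ => ht M b.2.1 ξ := pB.mul ((pal.mul pA).sub (pbe.mul pB))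
  have preg : PB fun (b : Q) ξ => reg b.2.2.1 (ht M b.2.1 ξ) :=
    pht.reg (fun b => b.2.2.2.1) (fun b => b.2.2.2.2)
  have pM : PB fun (_ : Q) => M := hM.pb hm
  have pJ : PB fun (_ : Q) ξ => (M ξ).im := pM.clm imL
  have pR : PB fun (b : Q) => R b.1 := hR.reparam Prod.fst
  have p3 : PB fun (b : Q) ξ => (reg b.2.2.1 (ht M b.2.1 ξ) * (al b.2.1 * deriv (Dd M) ξ)) •
      (R b.1 ξ * (M ξ).im) := (preg.mul (pal.mul pD1)).smul (pR.mul pJ)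
  have p4 : PB fun (b : Q) ξ => (reg b.2.2.1 (ht M b.2.1 ξ) * (al b.2.1 * b.2.1 * Bb M ξ)) •
      R b.1 ξ := (preg.mul (palv.mul pB)).smul pR
  obtain ⟨q1, h1⟩ := (pB.smul p3).weighted
  obtain ⟨q2, h2⟩ := (pB.smul p4).weighted
  obtain ⟨C3, k3, hC3, h3⟩ := p3
  obtain ⟨C4, k4, hC4, h4⟩ := p4
  obtain ⟨CM, eM, hCM, hMb⟩ := (hM.pb hm : PB fun (_ : Unit) => M)
  refine ⟨max (max q1 q2) (max k3 k4 + eM + 1), fun p hp => ?_⟩
  obtain ⟨C1, hC1, h1⟩ := h1 p (by omega)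
  obtain ⟨C2, hC2, h2⟩ := h2 p (by omega)
  set C5 := (C3 + C4) * (2 * CM) * 2 ^ (max k3 k4 + eM) with hC5
  refine ⟨(C1 + C2 + C5) * Real.pi, by positivity, fun a n v φ κ hκ hκ1 => ?_⟩
  let b : Q := (a, v, ⟨κ, hκ, hκ1⟩)
  have hMd : ∀ ξ, HasDerivAt M (deriv M ξ) ξ := fun ξ => (hMb () ξ).1.hasDerivAt
  choose P' Rem hP hB hRem using fun ξ =>
    pow_deriv_identity (hMd ξ) (hu ξ) (tangent_of_unit (hMd ξ) hu) n
  have hD1 : ∀ ξ, (deriv M ξ).re = deriv (Dd M) ξ := fun ξ =>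
    (show HasDerivAt (Dd M) (deriv M ξ).re ξ from
      reL.hasFDerivAt.comp_hasDerivAt ξ (hMd ξ)).deriv.symm
  set Ψ3 : ℝ → ℍ := fun ξ => (reg κ (ht M v ξ) * (al v * deriv (Dd M) ξ)) • (R a ξ * (M ξ).im)
    with hΨ3
  set Ψ4 : ℝ → ℍ := fun ξ => (reg κ (ht M v ξ) * (al v * v * Bb M ξ)) • R a ξ with hΨ4
  set W1 : ℝ → ℍ := fun ξ => wt p ξ • Bb M ξ • Ψ3 ξ with hW1
  set W2 : ℝ → ℍ := fun ξ => wt p ξ • Bb M ξ • Ψ4 ξ with hW2
  have g1 : ∀ ξ, DifferentiableAt ℝ W1 ξ ∧ ‖W1 ξ‖ ≤ C1 * (1 + ξ ^ 2)⁻¹ ∧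
    ‖deriv W1 ξ‖ ≤ C1 * (1 + ξ ^ 2)⁻¹ := h1 b
  have g2 : ∀ ξ, DifferentiableAt ℝ W2 ξ ∧ ‖W2 ξ‖ ≤ C2 * (1 + ξ ^ 2)⁻¹ ∧
    ‖deriv W2 ξ‖ ≤ C2 * (1 + ξ ^ 2)⁻¹ := h2 b
  have g3 : ∀ ξ, ‖Ψ3 ξ‖ ≤ C3 * (1 + |ξ|) ^ k3 := fun ξ => (h3 b ξ).2.1
  have g4 : ∀ ξ, ‖Ψ4 ξ‖ ≤ C4 * (1 + |ξ|) ^ k4 := fun ξ => (h4 b ξ).2.1
  have hph : ∀ ξ : ℝ, HasDerivAt (fun ξ : ℝ => n * v * ξ + φ) (n * v) ξ := fun ξ => by
    simpa using ((hasDerivAt_id ξ).const_mul (n * v)).add_const φ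
  have hCn : ∀ ξ, ‖Real.cos (n * v * ξ + φ) • M ξ ^ n‖ ≤ 1 := fun ξ => by
    rw [norm_smul, norm_pow, hu, one_pow, mul_one]; exact Real.abs_cos_le_one _
  have hSn : ∀ ξ, ‖Real.sin (n * v * ξ + φ) • M ξ ^ n‖ ≤ 1 := fun ξ => by
    rw [norm_smul, norm_pow, hu, one_pow, mul_one]; exact Real.abs_sin_le_one _
  have hmul : ∀ (x y : ℍ) (c : ℝ), ‖x‖ ≤ c → ‖y‖ ≤ 1 → ‖x * y‖ ≤ c := by
    intro x y c hx hy
    rw [norm_mul]
    exact (mul_le_of_le_one_right (norm_nonneg _) hy).trans hx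
  refine norm_integral_le_of_deriv (C' := C1 + C2)
    (Φ := fun ξ => W1 ξ * (Real.cos (n * v * ξ + φ) • M ξ ^ n) -
      W2 ξ * (Real.sin (n * v * ξ + φ) • M ξ ^ n)) ?_
    (fun ξ => ((g1 ξ).1.hasDerivAt.fun_mul ((hph ξ).cos.fun_smul (hP ξ))).fun_sub
      ((g2 ξ).1.hasDerivAt.fun_mul ((hph ξ).sin.fun_smul (hP ξ)))) ?_ ?_
  · have hMc : Continuous M := continuous_iff_continuousAt.2 fun x => (hMd x).continuousAt
    obtain ⟨_, _, _, hRd⟩ := hR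
    have hRc : Continuous (R a) := continuous_iff_continuousAt.2 fun x => (hRd a x).1.continuousAt
    obtain ⟨_, _, _, hhd⟩ := pht
    have hhc : Continuous (ht M v) :=
      continuous_iff_continuousAt.2 fun x => (hhd b x).1.continuousAt
    have hwc := continuous_wt p
    refine (integrable_inv_one_add_sq.const_mul (κ ^ 2 * n)).mono' (Continuous.aestronglyMeasurable ?_)
      (Eventually.of_forall fun ξ => ?_)
    · refine Continuous.smul (continuous_const.mul ((hwc.mul ?_).mul (by fun_prop)))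
        (hRc.mul (hMc.pow n))
      exact (hhc.pow 2).div ((hhc.pow 2).add continuous_const) fun x => by positivity
    · rw [norm_smul]
      have e1 : ‖R a ξ * M ξ ^ n‖ ≤ 1 := hmul _ _ _ (hR1 a ξ) (by rw [norm_pow, hu, one_pow])
      refine (mul_le_of_le_one_right (norm_nonneg _) e1).trans ?_
      rw [norm_mul, Real.norm_eq_abs, abs_of_nonneg (by positivity)]
      refine mul_le_mul_of_nonneg_left ?_ (by positivity)
      have e2 : ht M v ξ ^ 2 / (ht M v ξ ^ 2 + κ ^ 2) ≤ 1 := by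
        rw [div_le_one (by positivity)]; nlinarith [sq_nonneg κ]
      have e3 := wt_pos p ξ
      rw [norm_mul, Real.norm_eq_abs, Real.norm_eq_abs, abs_of_nonneg (by positivity)]
      calc _ ≤ wt p ξ * 1 * 1 := by
            gcongr
            exact Real.abs_cos_le_one _
        _ ≤ _ := by rw [mul_one, mul_one]; exact wt_le (by omega) ξ
  · intro ξ
    refine (norm_sub_le _ _).trans ?_
    linarith [hmul _ _ _ (g1 ξ).2.1 (hCn ξ), hmul _ _ _ (g2 ξ).2.1 (hSn ξ)]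
  · intro ξ
    set c := Real.cos (n * v * ξ + φ) with hc
    set s := Real.sin (n * v * ξ + φ) with hs
    have hBξ := hB ξ
    rw [hD1] at hBξ
    have hBb : 1 - (M ξ).re ^ 2 = Bb M ξ := rfl
    rw [hBb] at hBξ
    have hJJ := im_mul_im (hu ξ) (M ξ ^ n)
    rw [hBb] at hJJ
    have hden : 0 < ht M v ξ ^ 2 + κ ^ 2 := by positivity
    have e1 : W1 ξ * P' ξ = (wt p ξ * (reg κ (ht M v ξ) * (al v * deriv (Dd M) ξ))) •
        ((n * deriv (Dd M) ξ * Bb M ξ) • (R a ξ * M ξ ^ n) + R a ξ * (M ξ).im * Rem ξ) := by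
      have : W1 ξ * P' ξ = (wt p ξ * (reg κ (ht M v ξ) * (al v * deriv (Dd M) ξ))) •
          (R a ξ * ((M ξ).im * (Bb M ξ • P' ξ))) := by
        simp only [hW1, hΨ3, smul_mul_assoc, mul_smul_comm, mul_assoc, smul_smul]
        congr 1; ring
      rw [this, hBξ, mul_add, mul_smul_comm, hJJ, mul_add]
      simp only [mul_smul_comm, smul_smul, mul_assoc]
      congr 3; ring
    have e2 : W2 ξ * P' ξ = (wt p ξ * (reg κ (ht M v ξ) * (al v * v * Bb M ξ))) •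
        ((-(n * deriv (Dd M) ξ)) • (R a ξ * (M ξ).im * M ξ ^ n) + R a ξ * Rem ξ) := by
      have : W2 ξ * P' ξ = (wt p ξ * (reg κ (ht M v ξ) * (al v * v * Bb M ξ))) •
          (R a ξ * (Bb M ξ • P' ξ)) := by
        simp only [hW2, hΨ4, smul_mul_assoc, mul_smul_comm, mul_assoc, smul_smul]
        congr 1; ring
      rw [this, hBξ, mul_add, mul_smul_comm, mul_assoc (R a ξ)]
    have e3 : W1 ξ * M ξ ^ n = (wt p ξ * Bb M ξ * (reg κ (ht M v ξ) * (al v * deriv (Dd M) ξ))) •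
        (R a ξ * (M ξ).im * M ξ ^ n) := by
      simp only [hW1, hΨ3, smul_mul_assoc, smul_smul, mul_assoc]
    have e4 : W2 ξ * M ξ ^ n = (wt p ξ * Bb M ξ * (reg κ (ht M v ξ) * (al v * v * Bb M ξ))) •
        (R a ξ * M ξ ^ n) := by
      simp only [hW2, hΨ4, smul_mul_assoc, smul_smul, mul_assoc]
    have e5 : κ ^ 2 * n * (wt p ξ * (ht M v ξ ^ 2 / (ht M v ξ ^ 2 + κ ^ 2)) * c) =
        wt p ξ * reg κ (ht M v ξ) * n * c *
          (Bb M ξ * (al v * deriv (Dd M) ξ ^ 2 - al v * v ^ 2 * Bb M ξ)) := by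
      rw [al_mul_sq]
      have : Bb M ξ * (al v * deriv (Dd M) ξ ^ 2 - be v * Bb M ξ) = ht M v ξ := rfl
      rw [this]
      unfold reg
      field_simp
    have e6 : (κ ^ 2 * n * (wt p ξ * (ht M v ξ ^ 2 / (ht M v ξ ^ 2 + κ ^ 2)) * c)) •
        (R a ξ * M ξ ^ n) -
        ((deriv W1 ξ * c • M ξ ^ n + W1 ξ * (c • P' ξ + (-s * (n * v)) • M ξ ^ n)) -
          (deriv W2 ξ * s • M ξ ^ n + W2 ξ * (s • P' ξ + (c * (n * v)) • M ξ ^ n))) =
        -(deriv W1 ξ * c • M ξ ^ n) + deriv W2 ξ * s • M ξ ^ n -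
          wt p ξ • ((c • Ψ3 ξ - s • Ψ4 ξ) * Rem ξ) := by
      rw [e5, mul_add (W1 ξ), mul_add (W2 ξ), mul_smul_comm c (W1 ξ), mul_smul_comm s (W2 ξ),
        mul_smul_comm _ (W1 ξ), mul_smul_comm _ (W2 ξ), e1, e2, e3, e4, sub_mul]
      simp only [hΨ3, hΨ4, smul_mul_assoc]
      module
    rw [e6]
    have b1 := hmul _ _ _ (g1 ξ).2.2 (hCn ξ)
    have b2 := hmul _ _ _ (g2 ξ).2.2 (hSn ξ)
    have b3 : ‖wt p ξ • ((c • Ψ3 ξ - s • Ψ4 ξ) * Rem ξ)‖ ≤ C5 * (1 + ξ ^ 2)⁻¹ := by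
      have hw := wt_pos p ξ
      have f1 : ‖c • Ψ3 ξ - s • Ψ4 ξ‖ ≤ (C3 + C4) * (1 + |ξ|) ^ max k3 k4 := by
        refine (norm_sub_le _ _).trans ?_
        rw [norm_smul c, norm_smul s]
        have i1 : ‖c‖ * ‖Ψ3 ξ‖ ≤ ‖Ψ3 ξ‖ :=
          mul_le_of_le_one_left (norm_nonneg _) (Real.abs_cos_le_one _)
        have i2 : ‖s‖ * ‖Ψ4 ξ‖ ≤ ‖Ψ4 ξ‖ :=
          mul_le_of_le_one_left (norm_nonneg _) (Real.abs_sin_le_one _)
        have i3 := mul_le_mul_of_nonneg_left (w_pow_mono ξ (le_max_left k3 k4)) hC3.le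
        have i4 := mul_le_mul_of_nonneg_left (w_pow_mono ξ (le_max_right k3 k4)) hC4.le
        linarith [g3 ξ, g4 ξ]
      have f2 : ‖Rem ξ‖ ≤ 2 * CM * (1 + |ξ|) ^ eM := by
        have := (hMb () ξ).2.2
        linarith [hRem ξ]
      rw [norm_smul, norm_mul, Real.norm_eq_abs, abs_of_pos hw]
      have f3 := wt_mul_le (p := p) (q := max k3 k4 + eM) (by omega) ξ
      calc _ ≤ wt p ξ * (((C3 + C4) * (1 + |ξ|) ^ max k3 k4) * (2 * CM * (1 + |ξ|) ^ eM)) :=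
            mul_le_mul_of_nonneg_left (mul_le_mul f1 f2 (norm_nonneg _) (by positivity)) hw.le
        _ = (C3 + C4) * (2 * CM) * (wt p ξ * (1 + |ξ|) ^ (max k3 k4 + eM)) := by
            rw [pow_add]; ring
        _ ≤ (C3 + C4) * (2 * CM) * (2 ^ (max k3 k4 + eM) * (1 + ξ ^ 2)⁻¹) :=
            mul_le_mul_of_nonneg_left f3 (by positivity)
        _ = _ := by rw [hC5]; ring
    refine (norm_sub_le _ _).trans ?_
    have b4 := norm_add_le (-(deriv W1 ξ * c • M ξ ^ n)) (deriv W2 ξ * s • M ξ ^ n)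
    rw [norm_neg] at b4
    linarith

end Pool.Agent.Lib.MP_24bb3f_an
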