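import Mathlib
import Pool.Agent.Lib.MP_24bb3f_an.Kernel

/-!
Decay of the kernel in the number of periods.
-/

namespace Pool.Agent.Lib.MP_24bb3f_an

open Set Filter Topology MeasureTheory Quaternion
open scoped ContDiff

variable {m : ℝ}

theorem wronskian_ne_zero (hm : 0 < m) {M : ℝ → ℍ} (hM : QE m M) (h0 : Dd M 0 = 0)
    (h1 : deriv (Dd M) 0 = 0) (h2 : ∃ ξ, Dd M ξ ≠ 0) :
    ∃ ξ, deriv (Aa M) ξ * Bb M ξ - Aa M ξ * deriv (Bb M) ξ ≠ 0 := by
  by_contra hno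
  push Not at hno
  have hA : ContDiff ℝ ∞ (Aa M) := contDiff_of_ofReal ((hM.ecl_Aa hm).contDiff hm)
  have hB : ContDiff ℝ ∞ (Bb M) := contDiff_of_ofReal (hM.ecl_Bb.contDiff hm)
  have hD : ContDiff ℝ ∞ (Dd M) := contDiff_of_ofReal (hM.ecl_Dd.contDiff hm)
  have hB0 : Bb M 0 ≠ 0 := by simp [Bb, h0]
  obtain ⟨ε, hε, hball⟩ := Metric.eventually_nhds_iff_ball.1
    (hB.continuous.continuousAt.eventually_ne hB0)
  have hq : ∀ x ∈ Metric.ball (0 : ℝ) ε, HasDerivAt (fun x => Aa M x / Bb M x) 0 x := by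
    intro x hx
    have := (hA.differentiable (by simp) x).hasDerivAt.fun_div
      (hB.differentiable (by simp) x).hasDerivAt (hball x hx)
    refine this.congr_deriv ?_
    rw [hno x, zero_div]
  have hA0 : ∀ x ∈ Metric.ball (0 : ℝ) ε, ((deriv (Dd M) x : ℝ) : ℂ) = 0 := by
    intro x hx
    have := Metric.isOpen_ball.is_const_of_deriv_eq_zero (convex_ball (0 : ℝ) ε).isPreconnected
      (fun x hx => (hq x hx).differentiableAt.differentiableWithinAt)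
      (fun x hx => (hq x hx).deriv) hx (Metric.mem_ball_self hε)
    have h3 : Aa M 0 = 0 := by simp [Aa, h1]
    rw [h3, zero_div, div_eq_zero_iff] at this
    have h4 : Aa M x = 0 := this.resolve_right (hball x hx)
    have h5 : deriv (Dd M) x = 0 := pow_eq_zero_iff (two_ne_zero) |>.1 h4
    simp [h5]
  have hall := analytic_eq_zero ((hM.ecl_Dd.deriv_real hm).analyticAt hm) (x := 0)
    (Metric.eventually_nhds_iff_ball.2 ⟨ε, hε, hA0⟩)
  obtain ⟨ξ, hξ⟩ := h2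
  apply hξ
  rw [is_const_of_deriv_eq_zero (hD.differentiable (by simp))
    (fun x => by exact_mod_cast hall x) ξ 0, h0]

theorem kernel_bound {P : Type} (hm : 0 < m) {M : ℝ → ℍ} (hM : QE m M) (hu : ∀ x, ‖M x‖ = 1)
    (h0 : Dd M 0 = 0) (h1 : deriv (Dd M) 0 = 0) (h2 : ∃ ξ, Dd M ξ ≠ 0)
    {R : P → ℝ → ℍ} (hR : PB R) (hR1 : ∀ a ξ, ‖R a ξ‖ ≤ 1) :
    ∃ (p : ℕ) (C σ : ℝ), 1 ≤ p ∧ 0 < C ∧ 0 < σ ∧ ∀ (a : P) (n : ℕ), 1 ≤ n → ∀ x φ : ℝ,
      ‖∫ ξ, (wt p ξ * Real.cos (x * ξ + φ)) • (R a ξ * M ξ ^ n)‖ ≤ C / (n : ℝ) ^ σ := by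
  obtain ⟨p0, hgood⟩ := good_bound hm hM hu hR hR1
  obtain ⟨Cg, hCg, hgood⟩ := hgood (max p0 2) (le_max_left _ _)
  set p := max p0 2 with hp
  obtain ⟨Cs, c0, L, hCs, hc0, hsub⟩ := pencil_sublevel hm (hM.ecl_Aa hm) hM.ecl_Bb
    (wronskian_ne_zero hm hM h0 h1 h2)
  set c := min c0 1 with hc
  have hcpos : 0 < c := by positivity
  have hc1 : c ≤ 1 := min_le_right _ _
  refine ⟨p, 2 * Real.pi + 2 * Cs + Cg / c ^ 4, 1 / (4 * L + 3), by omega, by positivity,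
    by positivity, fun a n hn x φ => ?_⟩
  have hn0 : (0 : ℝ) < n := by exact_mod_cast hn
  have hn1 : (1 : ℝ) ≤ n := by exact_mod_cast hn
  set T := (n : ℝ) ^ (1 / (4 * L + 3) : ℝ) with hT
  have hT1 : 1 ≤ T := Real.one_le_rpow hn1 (by positivity)
  have hT0 : 0 < T := by linarith
  have hTn : T ^ (4 * L + 3) = n := by
    rw [hT, ← Real.rpow_natCast, ← Real.rpow_mul hn0.le]
    push_cast
    rw [one_div_mul_cancel (by positivity), Real.rpow_one]
  set η := c / T ^ L with hη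
  have hη0 : 0 < η := by positivity
  have hη1 : η ≤ 1 := by
    rw [hη, div_le_one (by positivity)]; exact hc1.trans (one_le_pow₀ hT1)
  set κ := η ^ 2 / T with hκ
  have hκ0 : 0 < κ := by positivity
  have hκ1 : κ ≤ 1 := by
    rw [hκ, div_le_one hT0]; exact (pow_le_one₀ hη0.le hη1).trans hT1
  set v := x / n with hv
  have hx : x = n * v := by rw [hv]; field_simp
  have hA : ContDiff ℝ ∞ (Aa M) := contDiff_of_ofReal ((hM.ecl_Aa hm).contDiff hm)
  have hB : ContDiff ℝ ∞ (Bb M) := contDiff_of_ofReal (hM.ecl_Bb.contDiff hm)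
  have hAc := hA.continuous
  have hBc := hB.continuous
  have hhc : Continuous (ht M v) := by unfold ht; fun_prop
  have hMc : Continuous M := by
    obtain ⟨_, _, _, h⟩ := (hM.pb hm : PB fun (_ : Unit) => M)
    exact continuous_iff_continuousAt.2 fun x => (h () x).1.continuousAt
  have hRc : Continuous (R a) := by
    obtain ⟨_, _, _, h⟩ := hR
    exact continuous_iff_continuousAt.2 fun x => (h a x).1.continuousAt
  have hwc := continuous_wt p
  have hY : ∀ ξ, ‖R a ξ * M ξ ^ n‖ ≤ 1 := fun ξ => by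
    rw [norm_mul, norm_pow, hu, one_pow, mul_one]; exact hR1 a ξ
  have hint : ∀ g : ℝ → ℝ, Continuous g → (∀ ξ, 0 ≤ g ξ) → (∀ ξ, g ξ ≤ 1) →
      (∀ ξ, ‖(wt p ξ * g ξ * Real.cos (n * v * ξ + φ)) • (R a ξ * M ξ ^ n)‖ ≤ wt p ξ * g ξ) ∧
      Integrable fun ξ => (wt p ξ * g ξ * Real.cos (n * v * ξ + φ)) • (R a ξ * M ξ ^ n) := by
    intro g hg hg0 hg1
    have hb : ∀ ξ, ‖(wt p ξ * g ξ * Real.cos (n * v * ξ + φ)) • (R a ξ * M ξ ^ n)‖ ≤
        wt p ξ * g ξ := by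
      intro ξ
      have e0 : 0 ≤ wt p ξ * g ξ := mul_nonneg (wt_pos p ξ).le (hg0 ξ)
      rw [norm_smul]
      refine (mul_le_of_le_one_right (norm_nonneg _) (hY ξ)).trans ?_
      rw [norm_mul, Real.norm_eq_abs, abs_of_nonneg e0]
      exact mul_le_of_le_one_right e0 (Real.abs_cos_le_one _)
    refine ⟨hb, integrable_inv_one_add_sq.mono' (Continuous.aestronglyMeasurable (by fun_prop))
      (Eventually.of_forall fun ξ => (hb ξ).trans ?_)⟩
    exact (mul_le_of_le_one_right (wt_pos p ξ).le (hg1 ξ)).trans (wt_le (by omega) ξ)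
  have hden : ∀ ξ, 0 < ht M v ξ ^ 2 + κ ^ 2 := fun ξ => by positivity
  obtain ⟨hb1, hi1⟩ := hint (fun ξ => κ ^ 2 / (ht M v ξ ^ 2 + κ ^ 2))
    (continuous_const.div (by fun_prop) fun ξ => (hden ξ).ne') (fun ξ => by positivity)
    (fun ξ => by rw [div_le_one (hden ξ)]; nlinarith [sq_nonneg (ht M v ξ)])
  obtain ⟨-, hi2⟩ := hint (fun ξ => ht M v ξ ^ 2 / (ht M v ξ ^ 2 + κ ^ 2))
    ((hhc.pow 2).div (by fun_prop) fun ξ => (hden ξ).ne') (fun ξ => by positivity)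
    (fun ξ => by rw [div_le_one (hden ξ)]; nlinarith [sq_nonneg κ])
  have hsplit : ∫ ξ, (wt p ξ * Real.cos (x * ξ + φ)) • (R a ξ * M ξ ^ n) =
      (∫ ξ, (wt p ξ * (κ ^ 2 / (ht M v ξ ^ 2 + κ ^ 2)) * Real.cos (n * v * ξ + φ)) •
        (R a ξ * M ξ ^ n)) +
      ∫ ξ, (wt p ξ * (ht M v ξ ^ 2 / (ht M v ξ ^ 2 + κ ^ 2)) * Real.cos (n * v * ξ + φ)) •
        (R a ξ * M ξ ^ n) := by
    rw [← integral_add hi1 hi2]
    refine integral_congr_ae (Eventually.of_forall fun ξ => ?_)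
    simp only
    rw [← add_smul, ← hx]
    congr 1
    have := (hden ξ).ne'
    field_simp
    ring
  have hg : ‖∫ ξ, (wt p ξ * (ht M v ξ ^ 2 / (ht M v ξ ^ 2 + κ ^ 2)) * Real.cos (n * v * ξ + φ)) •
      (R a ξ * M ξ ^ n)‖ ≤ Cg / c ^ 4 / T := by
    have e1 := hgood a n v φ κ hκ0 hκ1
    simp only [mul_smul (κ ^ 2 * n)] at e1
    rw [integral_smul, norm_smul, Real.norm_eq_abs, abs_of_pos (by positivity)] at e1
    have e2 : κ ^ 2 * n = c ^ 4 * T := by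
      rw [hκ, hη, ← hTn]; field_simp; ring
    rw [e2] at e1
    rw [div_div, le_div_iff₀ (by positivity)]
    calc _ ≤ _ * (c ^ 4 * T) := le_rfl
      _ ≤ Cg := by rw [mul_comm]; exact e1
  set S1 := {x ∈ Icc (-T) T | |al v * Aa M x - be v * Bb M x| < c0 / T ^ L} with hS1
  set S2 := {x ∈ Icc (-T) T | |0 * Aa M x - 1 * Bb M x| < c0 / T ^ L} with hS2
  have hv1 : volume S1 ≤ ENNReal.ofReal (Cs / T) :=
    hsub _ _ (al_nonneg v) (be_nonneg v) (al_add_be v) T hT1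
  have hv2 : volume S2 ≤ ENNReal.ofReal (Cs / T) :=
    hsub 0 1 le_rfl zero_le_one (by norm_num) T hT1
  have hm1 : MeasurableSet S1 :=
    measurableSet_Icc.inter (isOpen_lt (f := fun x => |al v * Aa M x - be v * Bb M x|)
      (by fun_prop) continuous_const).measurableSet
  have hm2 : MeasurableSet S2 :=
    measurableSet_Icc.inter (isOpen_lt (f := fun x => |0 * Aa M x - 1 * Bb M x|)
      (by fun_prop) continuous_const).measurableSet
  have hind : ∀ S : Set ℝ, MeasurableSet S → volume S ≤ ENNReal.ofReal (Cs / T) →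
      Integrable (S.indicator fun _ => (1 : ℝ)) ∧ ∫ ξ, S.indicator (fun _ => (1 : ℝ)) ξ ≤ Cs / T := by
    intro S hS hvol
    have hfin : volume S ≠ ⊤ := (hvol.trans_lt ENNReal.ofReal_lt_top).ne
    refine ⟨(integrable_indicator_iff hS).2 (integrableOn_const hfin), ?_⟩
    rw [integral_indicator hS, setIntegral_const, smul_eq_mul, mul_one, measureReal_def]
    exact ENNReal.toReal_le_of_le_ofReal (by positivity) hvol
  obtain ⟨hI1, hJ1⟩ := hind S1 hm1 hv1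
  obtain ⟨hI2, hJ2⟩ := hind S2 hm2 hv2
  have hηc : η ≤ c0 / T ^ L := div_le_div_of_nonneg_right (min_le_left _ _) (by positivity)
  have hpt : ∀ ξ, wt p ξ * (κ ^ 2 / (ht M v ξ ^ 2 + κ ^ 2)) ≤
      (2 / T * (1 + ξ ^ 2)⁻¹ + S1.indicator (fun _ => (1 : ℝ)) ξ) +
        S2.indicator (fun _ => (1 : ℝ)) ξ := by
    intro ξ
    have i1 : 0 ≤ S1.indicator (fun _ => (1 : ℝ)) ξ := indicator_nonneg (fun _ _ => zero_le_one) _
    have i2 : 0 ≤ S2.indicator (fun _ => (1 : ℝ)) ξ := indicator_nonneg (fun _ _ => zero_le_one) _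
    have i3 : 0 < (1 + ξ ^ 2)⁻¹ := by positivity
    have i4 : (1 + ξ ^ 2)⁻¹ ≤ 1 := inv_le_one_of_one_le₀ (by nlinarith [sq_nonneg ξ])
    have i5 : wt p ξ ≤ (1 + ξ ^ 2)⁻¹ := wt_le (by omega) ξ
    have i6 : κ ^ 2 / (ht M v ξ ^ 2 + κ ^ 2) ≤ 1 := by
      rw [div_le_one (hden ξ)]; nlinarith [sq_nonneg (ht M v ξ)]
    have i7 : 0 ≤ κ ^ 2 / (ht M v ξ ^ 2 + κ ^ 2) := by positivity
    have i8 := wt_pos p ξ
    have i9 : 0 ≤ 2 / T * (1 + ξ ^ 2)⁻¹ := by positivity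
    have i10 : wt p ξ * (κ ^ 2 / (ht M v ξ ^ 2 + κ ^ 2)) ≤ 1 := by nlinarith
    by_cases c1 : ξ ∈ S1
    · rw [indicator_of_mem c1]; linarith
    by_cases c2 : ξ ∈ S2
    · rw [indicator_of_mem c2]; linarith
    suffices h : wt p ξ * (κ ^ 2 / (ht M v ξ ^ 2 + κ ^ 2)) ≤ 1 / T * (1 + ξ ^ 2)⁻¹ by
      have : 1 / T * (1 + ξ ^ 2)⁻¹ ≤ 2 / T * (1 + ξ ^ 2)⁻¹ := by gcongr; norm_num
      linarith
    by_cases c3 : ξ ∈ Icc (-T) T
    · have d1 : η ≤ |al v * Aa M ξ - be v * Bb M ξ| :=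
        hηc.trans (not_lt.1 fun h => c1 ⟨c3, h⟩)
      have d2 : η ≤ |Bb M ξ| := by
        have : c0 / T ^ L ≤ |0 * Aa M ξ - 1 * Bb M ξ| := not_lt.1 fun h => c2 ⟨c3, h⟩
        simpa using hηc.trans this
      have d3 : η ^ 2 ≤ |ht M v ξ| := by
        unfold ht
        rw [abs_mul, sq]
        exact mul_le_mul d2 d1 hη0.le (abs_nonneg _)
      have d4 : (η ^ 2) ^ 2 ≤ ht M v ξ ^ 2 := by
        rw [← sq_abs (ht M v ξ)]; exact pow_le_pow_left₀ (by positivity) d3 2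
      have d5 : κ ^ 2 / (ht M v ξ ^ 2 + κ ^ 2) ≤ 1 / T := by
        rw [div_le_div_iff₀ (hden ξ) hT0]
        have : κ ^ 2 * T ≤ (η ^ 2) ^ 2 := by
          rw [hκ, div_pow, div_mul_eq_mul_div, div_le_iff₀ (by positivity)]
          exact mul_le_mul_of_nonneg_left (by nlinarith) (by positivity)
        nlinarith [sq_nonneg κ]
      rw [mul_comm]
      exact mul_le_mul d5 i5 i8.le (by positivity)
    · have d1 : T < |ξ| := by
        by_contra hle
        exact c3 (abs_le.1 (not_lt.1 hle))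
      have d2 := wt_mul_le (p := p) (q := 1) (by omega) ξ
      have d3 : wt p ξ ≤ ((1 + ξ ^ 2) ^ 2)⁻¹ :=
        inv_anti₀ (by positivity) (pow_le_pow_right₀ (by nlinarith [sq_nonneg ξ]) (by omega))
      have d4 : (1 + ξ ^ 2)⁻¹ ≤ 1 / T := by
        rw [one_div]
        exact inv_anti₀ hT0 (by nlinarith [sq_abs ξ])
      calc _ ≤ wt p ξ := mul_le_of_le_one_right i8.le i6
        _ ≤ (1 + ξ ^ 2)⁻¹ * (1 + ξ ^ 2)⁻¹ := by rw [← mul_inv, ← sq]; exact d3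
        _ ≤ _ := mul_le_mul_of_nonneg_right d4 i3.le
  have hbad : ‖∫ ξ, (wt p ξ * (κ ^ 2 / (ht M v ξ ^ 2 + κ ^ 2)) * Real.cos (n * v * ξ + φ)) •
      (R a ξ * M ξ ^ n)‖ ≤ 2 / T * Real.pi + Cs / T + Cs / T := by
    have e1 := integrable_inv_one_add_sq.const_mul (2 / T)
    refine (norm_integral_le_of_norm_le ((e1.add hI1).add hI2)
      (Eventually.of_forall fun ξ => (hb1 ξ).trans (hpt ξ))).trans ?_
    have e2 := integral_add (e1.add hI1) hI2
    have e3 := integral_add e1 hI1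
    simp only [Pi.add_apply] at e2 e3 ⊢
    rw [e2, e3, integral_const_mul, integral_univ_inv_one_add_sq]
    linarith
  rw [hsplit]
  refine (norm_add_le _ _).trans ((add_le_add hbad hg).trans (le_of_eq ?_))
  field_simp
  ring

end Pool.Agent.Lib.MP_24bb3f_an
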