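import Mathlib
import Pool.Agent.Lib.MP_24bb3f_an.Kernel

/-!
Composite pulses: products of the propagators of constant pieces, and the recursion that raises
the order of vanishing at `ξ = 0` of the diagonal entry of the period map.
-/

namespace Pool.Agent.Lib.MP_24bb3f_an

open Set Filter Topology MeasureTheory Quaternion
open scoped ComplexConjugate

variable {m : ℝ}

/-- The generator of a constant piece. -/
def Xq (m : ℝ) (c : ℂ) (ξ : ℝ) : ℍ := ⟨0, m * c.re, m * c.im, ξ⟩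

/-- The propagator of a constant piece. -/
noncomputable def pul (m : ℝ) (c : ℂ) (s ξ : ℝ) : ℍ :=
  ⟨Real.cos (s * om m ξ), Real.sin (s * om m ξ) * (om m ξ)⁻¹ * (m * c.re),
    Real.sin (s * om m ξ) * (om m ξ)⁻¹ * (m * c.im), Real.sin (s * om m ξ) * (om m ξ)⁻¹ * ξ⟩

@[simp] theorem Xq_re (c : ℂ) (ξ : ℝ) : (Xq m c ξ).re = 0 := rfl
@[simp] theorem Xq_imI (c : ℂ) (ξ : ℝ) : (Xq m c ξ).imI = m * c.re := rfl
@[simp] theorem Xq_imJ (c : ℂ) (ξ : ℝ) : (Xq m c ξ).imJ = m * c.im := rfl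
@[simp] theorem Xq_imK (c : ℂ) (ξ : ℝ) : (Xq m c ξ).imK = ξ := rfl
@[simp] theorem pul_re (c : ℂ) (s ξ : ℝ) : (pul m c s ξ).re = Real.cos (s * om m ξ) := rfl
@[simp] theorem pul_imI (c : ℂ) (s ξ : ℝ) :
    (pul m c s ξ).imI = Real.sin (s * om m ξ) * (om m ξ)⁻¹ * (m * c.re) := rfl
@[simp] theorem pul_imJ (c : ℂ) (s ξ : ℝ) :
    (pul m c s ξ).imJ = Real.sin (s * om m ξ) * (om m ξ)⁻¹ * (m * c.im) := rfl
@[simp] theorem pul_imK (c : ℂ) (s ξ : ℝ) :
    (pul m c s ξ).imK = Real.sin (s * om m ξ) * (om m ξ)⁻¹ * ξ := rfl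

theorem unit_sq {c : ℂ} (hc : ‖c‖ = 1) : c.re ^ 2 + c.im ^ 2 = 1 := by
  have := Complex.sq_norm c
  rw [hc, Complex.normSq_apply] at this
  linarith

theorem pul_eq (c : ℂ) (s ξ : ℝ) : pul m c s ξ =
    Real.cos (s * om m ξ) • (1 : ℍ) + (Real.sin (s * om m ξ) * (om m ξ)⁻¹) • Xq m c ξ := by
  ext <;> simp

theorem pul_zero (c : ℂ) (ξ : ℝ) : pul m c 0 ξ = 1 := by
  ext <;> simp

theorem norm_pul (hm : 0 < m) {c : ℂ} (hc : ‖c‖ = 1) (s ξ : ℝ) : ‖pul m c s ξ‖ = 1 := by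
  rw [quat_unit_iff]
  have h1 := unit_sq hc
  have h2 := om_sq m ξ
  have h3 := (om_pos hm ξ).ne'
  have h4 := Real.sin_sq_add_cos_sq (s * om m ξ)
  simp only [pul_re, pul_imI, pul_imJ, pul_imK]
  field_simp
  linear_combination (om m ξ ^ 2) * h4 + (Real.sin (s * om m ξ) ^ 2 * m ^ 2) * h1 -
    (Real.sin (s * om m ξ) ^ 2) * h2

theorem hasDerivAt_pul (hm : 0 < m) {c : ℂ} (hc : ‖c‖ = 1) (s ξ : ℝ) :
    HasDerivAt (fun s => pul m c s ξ) (Xq m c ξ * pul m c s ξ) s := by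
  have h0 : HasDerivAt (fun s : ℝ => s * om m ξ) (om m ξ) s := by
    simpa using (hasDerivAt_id s).mul_const (om m ξ)
  have h5 := (h0.cos.smul_const (1 : ℍ)).fun_add
    ((h0.sin.mul_const (om m ξ)⁻¹).smul_const (Xq m c ξ))
  simp only [← pul_eq] at h5
  refine h5.congr_deriv ?_
  have h1 := unit_sq hc
  have h2 := om_sq m ξ
  have h3 := (om_pos hm ξ).ne'
  ext <;> simp <;> field_simp <;> first
    | ring1
    | linear_combination (-Real.sin (s * om m ξ)) * h2 + (Real.sin (s * om m ξ) * m ^ 2) * h1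

theorem ecl_cos (s : ℝ) : Ecl m fun ξ => ((Real.cos (s * om m ξ) : ℝ) : ℂ) :=
  ((ecl_const (1 / 2)).mul ((ecl_ex s).add (ecl_ex (-s)))).congr fun ξ => by
    simp only [ex]
    push_cast
    rw [Complex.cos]
    ring_nf

theorem ecl_sin (s : ℝ) : Ecl m fun ξ => ((Real.sin (s * om m ξ) : ℝ) : ℂ) :=
  ((ecl_const (Complex.I / 2)).mul ((ecl_ex (-s)).sub (ecl_ex s))).congr fun ξ => by
    simp only [ex]
    push_cast
    rw [Complex.sin]
    ring_nf

theorem qe_pul (c : ℂ) (s : ℝ) : QE m (pul m c s) where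
  re := ecl_cos s
  imI := (((ecl_sin s).mul Cf.inv.ecl).mul (ecl_const (m * c.re))).congr fun ξ => by simp
  imJ := (((ecl_sin s).mul Cf.inv.ecl).mul (ecl_const (m * c.im))).congr fun ξ => by simp
  imK := (((ecl_sin s).mul Cf.inv.ecl).mul Cf.id.ecl).congr fun ξ => by simp

theorem PB.cos {P : Type} {h : P → ℝ → ℝ} (hh : PB h) : PB fun a ξ => Real.cos (h a ξ) := by
  obtain ⟨C, p, hC, h2⟩ := hh
  refine ⟨C + 1, p, by positivity, fun a ξ => ?_⟩
  obtain ⟨d, -, b'⟩ := h2 a ξ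
  have hd := d.hasDerivAt.cos
  have hw : 1 ≤ (1 + |ξ|) ^ p := one_le_pow₀ (one_le_w ξ)
  refine ⟨hd.differentiableAt, ?_, ?_⟩
  · have := Real.abs_cos_le_one (h a ξ)
    rw [Real.norm_eq_abs]
    nlinarith
  · rw [hd.deriv, norm_mul, norm_neg]
    calc _ ≤ 1 * (C * (1 + |ξ|) ^ p) :=
          mul_le_mul (Real.abs_sin_le_one _) b' (norm_nonneg _) zero_le_one
      _ ≤ _ := by nlinarith

theorem PB.sin {P : Type} {h : P → ℝ → ℝ} (hh : PB h) : PB fun a ξ => Real.sin (h a ξ) := by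
  have := (hh.sub (PB.const (P := P) (c := fun _ => Real.pi / 2) (C := ‖Real.pi / 2‖)
    fun _ => le_rfl)).cos
  simpa [Real.cos_sub_pi_div_two] using this

theorem pb_om {P : Type} (hm : 0 < m) : PB fun (_ : P) => om m := by
  refine ⟨1 + m, 1, by positivity, fun _ ξ => ⟨(hasDerivAt_om hm ξ).differentiableAt, ?_, ?_⟩⟩
  · rw [Real.norm_eq_abs, abs_of_pos (om_pos hm ξ)]
    nlinarith [om_le hm ξ, abs_nonneg ξ]
  · rw [(hasDerivAt_om hm ξ).deriv, Real.norm_eq_abs, abs_mul,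
      abs_of_pos (inv_pos.2 (om_pos hm ξ)), ← div_eq_mul_inv]
    have : |ξ| / om m ξ ≤ 1 := (div_le_one (om_pos hm ξ)).2 (abs_le_om m ξ)
    nlinarith [abs_nonneg ξ]

theorem pb_pul {P : Type} (hm : 0 < m) {c : P → ℂ} {s : P → ℝ} (hc : ∀ a, ‖c a‖ = 1)
    (hs : ∀ a, |s a| ≤ 1) : PB fun a => pul m (c a) (s a) := by
  have k : ∀ q : ℍ, PB fun (_ : P) (_ : ℝ) => q := fun q => PB.const (C := ‖q‖) fun _ => le_rfl
  have h1 : PB fun (a : P) ξ => s a * om m ξ := (PB.const (C := 1) hs).mul (pb_om hm)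
  have h2 : PB fun (_ : P) ξ => (om m ξ)⁻¹ := Cf.inv.ecl.pb_real hm
  have h3 : PB fun (_ : P) (ξ : ℝ) => ξ := Cf.id.ecl.pb_real hm
  have h4 : PB fun (a : P) (_ : ℝ) => m * (c a).re := PB.const (C := m) fun a => by
    rw [norm_mul, Real.norm_eq_abs, abs_of_pos hm]
    exact mul_le_of_le_one_right hm.le ((Complex.abs_re_le_norm _).trans (hc a).le)
  have h5 : PB fun (a : P) (_ : ℝ) => m * (c a).im := PB.const (C := m) fun a => by
    rw [norm_mul, Real.norm_eq_abs, abs_of_pos hm]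
    exact mul_le_of_le_one_right hm.le ((Complex.abs_im_le_norm _).trans (hc a).le)
  have := (((h1.cos.smul (k 1)).add (((h1.sin.mul h2).mul h4).smul (k qI))).add
    (((h1.sin.mul h2).mul h5).smul (k qJ))).add (((h1.sin.mul h2).mul h3).smul (k qK))
  convert this using 3 with a x
  exact quat_decomp (pul m (c a) (s a) x)

/-- The product of the first `j` unit-time pieces. -/
noncomputable def prd (m : ℝ) (c : ℕ → ℂ) : ℕ → ℝ → ℍ
  | 0, _ => 1
  | j + 1, ξ => pul m (c j) 1 ξ * prd m c j ξ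

theorem qe_prd (c : ℕ → ℂ) (j : ℕ) : QE m (prd m c j) := by
  induction j with
  | zero => exact QE.one
  | succ j ih => exact (qe_pul (c j) 1).mul ih

theorem norm_prd (hm : 0 < m) {c : ℕ → ℂ} (hc : ∀ j, ‖c j‖ = 1) (j : ℕ) (ξ : ℝ) :
    ‖prd m c j ξ‖ = 1 := by
  induction j with
  | zero => simp [prd]
  | succ j ih => rw [prd, norm_mul, ih, norm_pul hm (hc j), mul_one]

theorem prd_add (c : ℕ → ℂ) (a b : ℕ) (ξ : ℝ) :
    prd m c (a + b) ξ = prd m (fun j => c (a + j)) b ξ * prd m c a ξ := by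
  induction b with
  | zero => simp [prd]
  | succ b ih => rw [← add_assoc, prd, prd, ih, mul_assoc]

theorem prd_congr {c c' : ℕ → ℂ} {N : ℕ} (h : ∀ j < N, c j = c' j) (ξ : ℝ) :
    prd m c N ξ = prd m c' N ξ := by
  induction N with
  | zero => rfl
  | succ N ih => rw [prd, prd, h N (by omega), ih fun j hj => h j (by omega)]

theorem prd_periodic {c : ℕ → ℂ} {N : ℕ} (h : ∀ j, c (N + j) = c j) (n j : ℕ) (ξ : ℝ) :
    prd m c (N * n + j) ξ = prd m c j ξ * prd m c N ξ ^ n := by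
  induction n generalizing j with
  | zero => simp
  | succ n ih =>
    have : N * (n + 1) + j = N + (N * n + j) := by ring
    rw [this, prd_add, funext h, ih, pow_succ, mul_assoc]

/-- The diagonal entry. -/
def aa (q : ℍ) : ℂ := ⟨q.re, -q.imK⟩

/-- The off-diagonal entry, up to a conjugation and a constant factor. -/
def bb (q : ℍ) : ℂ := ⟨q.imI, q.imJ⟩

theorem aa_mul (p q : ℍ) : aa (p * q) = aa p * aa q - conj (bb p) * bb q := by
  apply Complex.ext <;> simp [aa, bb] <;> ring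

theorem bb_mul (p q : ℍ) : bb (p * q) = conj (aa p) * bb q + bb p * aa q := by
  apply Complex.ext <;> simp [aa, bb] <;> ring

theorem aa_bb_unit {q : ℍ} (h : ‖q‖ = 1) : conj (bb q) * bb q = 1 - conj (aa q) * aa q := by
  have h1 := (quat_unit_iff q).1 h
  apply Complex.ext <;> simp [aa, bb] <;> first | ring1 | linear_combination h1

/-- Rotation about the third axis. -/
def rot (u : ℂ) (q : ℍ) : ℍ := ⟨q.re, (u * bb q).re, (u * bb q).im, q.imK⟩

theorem aa_rot (u : ℂ) (q : ℍ) : aa (rot u q) = aa q := rfl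

theorem bb_rot (u : ℂ) (q : ℍ) : bb (rot u q) = u * bb q := rfl

theorem eq_of_aa_bb {p q : ℍ} (h1 : aa p = aa q) (h2 : bb p = bb q) : p = q := by
  have e1 := congrArg Complex.re h1
  have e2 := congrArg Complex.im h1
  have e3 := congrArg Complex.re h2
  have e4 := congrArg Complex.im h2
  simp only [aa, bb, neg_inj] at e1 e2 e3 e4
  ext <;> assumption

theorem conj_mul_unit {u : ℂ} (hu : ‖u‖ = 1) : conj u * u = 1 := by
  rw [Complex.conj_mul', hu]; simp

theorem rot_mul {u : ℂ} (hu : ‖u‖ = 1) (p q : ℍ) : rot u (p * q) = rot u p * rot u q := by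
  have h := conj_mul_unit hu
  apply eq_of_aa_bb
  · simp only [aa_rot, bb_rot, aa_mul, map_mul]
    linear_combination (conj (bb p) * bb q) * h
  · simp only [aa_rot, bb_rot, bb_mul]
    ring

theorem rot_one (u : ℂ) : rot u 1 = 1 := by
  apply eq_of_aa_bb
  · rfl
  · rw [bb_rot]
    have : bb 1 = 0 := rfl
    rw [this, mul_zero]

theorem rot_pul (u c : ℂ) (s ξ : ℝ) : rot u (pul m c s ξ) = pul m (u * c) s ξ := by
  apply eq_of_aa_bb
  · rfl
  · rw [bb_rot]
    apply Complex.ext <;> simp [bb] <;> ring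

theorem rot_prd {u : ℂ} (hu : ‖u‖ = 1) (c : ℕ → ℂ) (N : ℕ) (ξ : ℝ) :
    prd m (fun j => u * c j) N ξ = rot u (prd m c N ξ) := by
  induction N with
  | zero => exact (rot_one u).symm
  | succ N ih => rw [prd, prd, rot_mul hu, rot_pul, ih]

/-- A primitive cube root of unity. -/
noncomputable def zeta : ℂ := ⟨-1 / 2, Real.sqrt 3 / 2⟩

theorem norm_zeta : ‖zeta‖ = 1 := by
  have h : Real.sqrt 3 ^ 2 = 3 := Real.sq_sqrt (by norm_num)
  have : ‖zeta‖ ^ 2 = 1 := by
    rw [Complex.sq_norm, Complex.normSq_apply]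
    simp only [zeta]
    linear_combination (1 / 4 : ℝ) * h
  nlinarith [norm_nonneg zeta]

theorem zeta_add_conj : zeta + conj zeta = -1 := by
  apply Complex.ext <;> simp [zeta]

theorem aa_triple {q : ℍ} (h : ‖q‖ = 1) {z : ℂ} (hz : ‖z‖ = 1) :
    aa (q * rot (z * zeta) q * rot (z * z) q) =
      aa q ^ 3 + (1 - conj (aa q) * aa q) * z * (aa q - z * conj (aa q)) := by
  have h1 := aa_bb_unit h
  have h2 := conj_mul_unit hz
  have h3 := zeta_add_conj
  simp only [aa_mul, bb_mul, aa_rot, bb_rot, map_add, map_mul, Complex.conj_conj]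
  rw [← h1]
  linear_combination (-(conj (bb q) * bb q * aa q * z)) * h3 -
    (conj (bb q) * bb q * aa q * z * conj zeta) * h2

theorem analytic_factor {h : ℝ → ℂ} (hh : AnalyticAt ℝ h 0) (h0 : h 0 = 0) :
    ∃ g : ℝ → ℂ, AnalyticAt ℝ g 0 ∧ ∀ ξ : ℝ, h ξ = ξ * g ξ := by
  obtain ⟨p, hp⟩ := hh
  refine ⟨dslope h 0, ⟨_, hp.has_fpower_series_dslope_fslope⟩, fun ξ => ?_⟩
  have := sub_smul_dslope h 0 ξ
  rw [h0, sub_zero, sub_zero] at this
  rw [← this]; simp

theorem exists_flat (k : ℕ) : ∃ (N : ℕ) (c : ℕ → ℂ), 0 < N ∧ (∀ j, ‖c j‖ = 1) ∧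
    ∃ g : ℝ → ℂ, AnalyticAt ℝ g 0 ∧
      ∀ ξ : ℝ, aa (prd (Real.pi / 2) c N ξ) = (ξ : ℂ) ^ (k + 1) * g ξ := by
  have hm : 0 < Real.pi / 2 := by positivity
  have han : ∀ (c : ℕ → ℂ) (N : ℕ), AnalyticAt ℝ (fun ξ => aa (prd (Real.pi / 2) c N ξ)) 0 := by
    intro c N
    have h := qe_prd (m := Real.pi / 2) c N
    have : Ecl (Real.pi / 2) fun ξ => aa (prd (Real.pi / 2) c N ξ) :=
      (h.re.sub ((ecl_const Complex.I).mul h.imK)).congr fun ξ => by
        apply Complex.ext <;> simp [aa]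
    exact this.analyticAt hm 0
  induction k with
  | zero =>
    refine ⟨1, fun _ => 1, one_pos, fun _ => norm_one, ?_⟩
    simp only [zero_add, pow_one]
    refine analytic_factor (han _ _) ?_
    have : om (Real.pi / 2) 0 = Real.pi / 2 := by
      unfold om
      rw [zero_pow two_ne_zero, zero_add, Real.sqrt_sq hm.le]
    apply Complex.ext <;> simp [aa, prd, this]
  | succ k ih =>
    obtain ⟨N, c, hN, hc, g, hg, hfac⟩ := ih
    obtain ⟨z, hz, hzg⟩ : ∃ z : ℂ, ‖z‖ = 1 ∧ g 0 - z * conj (g 0) = 0 := by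
      by_cases h0 : g 0 = 0
      · exact ⟨1, norm_one, by simp [h0]⟩
      · have h1 : conj (g 0) ≠ 0 := by simpa using h0
        refine ⟨g 0 / conj (g 0), ?_, by field_simp; ring⟩
        rw [norm_div, Complex.norm_conj, div_self (norm_ne_zero_iff.2 h0)]
    have hu : ‖z * zeta‖ = 1 := by rw [norm_mul, hz, norm_zeta, mul_one]
    have hv : ‖z * z‖ = 1 := by rw [norm_mul, hz, mul_one]
    let c' : ℕ → ℂ := fun j =>
      if j < N then z * z * c j else if j < 2 * N then z * zeta * c (j - N) else c (j - 2 * N)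
    have hc' : ∀ j, ‖c' j‖ = 1 := by
      intro j
      simp only [c']
      split_ifs
      · rw [norm_mul, hv, hc, mul_one]
      · rw [norm_mul, hu, hc, mul_one]
      · exact hc _
    have hprd : ∀ ξ, prd (Real.pi / 2) c' (N + N + N) ξ = prd (Real.pi / 2) c N ξ *
        rot (z * zeta) (prd (Real.pi / 2) c N ξ) * rot (z * z) (prd (Real.pi / 2) c N ξ) := by
      intro ξ
      rw [prd_add, prd_add, ← rot_prd hu, ← rot_prd hv, mul_assoc]
      congr 1
      · refine prd_congr (fun j _ => ?_) ξ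
        simp only [c']
        rw [if_neg (by omega), if_neg (by omega)]
        congr 1; omega
      · congr 1
        · refine prd_congr (fun j hj => ?_) ξ
          simp only [c']
          rw [if_neg (by omega), if_pos (by omega)]
          congr 2; omega
        · refine prd_congr (fun j hj => ?_) ξ
          simp only [c']
          rw [if_pos hj]
    have hcg : AnalyticAt ℝ (fun ξ => conj (g ξ)) 0 :=
      ((Complex.conjCLE : ℂ →L[ℝ] ℂ).analyticAt (g 0)).comp hg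
    obtain ⟨g1, hg1, hfac1⟩ := analytic_factor (h := fun ξ => g ξ - z * conj (g ξ))
      (hg.sub (analyticAt_const.mul hcg)) hzg
    have hid : AnalyticAt ℝ (fun ξ : ℝ => (ξ : ℂ)) 0 := Complex.ofRealCLM.analyticAt 0
    refine ⟨N + N + N, c', by omega, hc', fun ξ => (ξ : ℂ) ^ (2 * k + 1) * g ξ ^ 3 +
      (1 - (ξ : ℂ) ^ (k + 1) * conj (g ξ) * ((ξ : ℂ) ^ (k + 1) * g ξ)) * z * g1 ξ, ?_, fun ξ => ?_⟩
    · exact ((hid.pow _).mul (hg.pow 3)).add
        (((analyticAt_const.sub (((hid.pow _).mul hcg).mul ((hid.pow _).mul hg))).mul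
          analyticAt_const).mul hg1)
    · rw [hprd, aa_triple (norm_prd hm hc N ξ) hz, hfac]
      have := hfac1 ξ
      simp only [map_mul, map_pow, Complex.conj_ofReal]
      linear_combination ((ξ : ℂ) ^ (k + 1) * z *
        (1 - (ξ : ℂ) ^ (k + 1) * conj (g ξ) * ((ξ : ℂ) ^ (k + 1) * g ξ))) * this

end Pool.Agent.Lib.MP_24bb3f_an
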