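import Mathlib
import Pool.Agent.Lib.MP_24bb3f_an.Pulse
import Pool.Agent.Lib.MP_24bb3f_an.Decay

/-!
The propagator at time `t ≥ 0` for a piecewise constant forcing, its integral equation, and the
two estimates: decay of the kernel, and closeness to the identity at low frequency.
-/

namespace Pool.Agent.Lib.MP_24bb3f_an

open Set Filter Topology MeasureTheory Quaternion

variable {m : ℝ}

/-- The propagator. -/
noncomputable def flow (m : ℝ) (c : ℕ → ℂ) (t ξ : ℝ) : ℍ :=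
  pul m (c ⌊t⌋₊) (t - ⌊t⌋₊) ξ * prd m c ⌊t⌋₊ ξ

theorem norm_flow (hm : 0 < m) {c : ℕ → ℂ} (hc : ∀ j, ‖c j‖ = 1) (t ξ : ℝ) :
    ‖flow m c t ξ‖ = 1 := by
  rw [flow, norm_mul, norm_pul hm (hc _), norm_prd hm hc, mul_one]

theorem flow_nat (c : ℕ → ℂ) (j : ℕ) (ξ : ℝ) : flow m c j ξ = prd m c j ξ := by
  simp [flow, pul_zero]

theorem flow_zero (c : ℕ → ℂ) (ξ : ℝ) : flow m c 0 ξ = 1 := by
  simpa [prd] using flow_nat (m := m) c 0 ξ

theorem continuous_pul (hm : 0 < m) :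
    Continuous fun p : ℂ × ℝ × ℝ => pul m p.1 p.2.1 p.2.2 := by
  have h1 : Continuous (om m) :=
    continuous_iff_continuousAt.2 fun x => (hasDerivAt_om hm x).continuousAt
  have h2 : Continuous fun x => (om m x)⁻¹ := h1.inv₀ fun x => (om_pos hm x).ne'
  have : (fun p : ℂ × ℝ × ℝ => pul m p.1 p.2.1 p.2.2) = fun p =>
      Real.cos (p.2.1 * om m p.2.2) • (1 : ℍ) +
      (Real.sin (p.2.1 * om m p.2.2) * (om m p.2.2)⁻¹ * (m * p.1.re)) • qI +
      (Real.sin (p.2.1 * om m p.2.2) * (om m p.2.2)⁻¹ * (m * p.1.im)) • qJ +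
      (Real.sin (p.2.1 * om m p.2.2) * (om m p.2.2)⁻¹ * p.2.2) • qK :=
    funext fun p => quat_decomp _
  rw [this]
  fun_prop (disch := intro x; exact (om_pos hm _).ne')

theorem continuous_pul' (hm : 0 < m) {X : Type} [TopologicalSpace X] {f : X → ℂ} {g h : X → ℝ}
    (hf : Continuous f) (hg : Continuous g) (hh : Continuous h) :
    Continuous fun x => pul m (f x) (g x) (h x) :=
  (continuous_pul hm).comp (hf.prodMk (hg.prodMk hh))

theorem continuous_Xq : Continuous fun p : ℂ × ℝ => Xq m p.1 p.2 := by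
  have : (fun p : ℂ × ℝ => Xq m p.1 p.2) = fun p =>
      (0 : ℝ) • (1 : ℍ) + (m * p.1.re) • qI + (m * p.1.im) • qJ + p.2 • qK :=
    funext fun p => quat_decomp _
  rw [this]
  fun_prop

theorem continuous_Xq' {X : Type} [TopologicalSpace X] {f : X → ℂ} {g : X → ℝ}
    (hf : Continuous f) (hg : Continuous g) : Continuous fun x => Xq m (f x) (g x) :=
  continuous_Xq.comp (hf.prodMk hg)

theorem continuous_prd (hm : 0 < m) (c : ℕ → ℂ) (j : ℕ) : Continuous (prd m c j) := by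
  obtain ⟨_, _, _, h⟩ := ((qe_prd c j).pb hm : PB fun (_ : Unit) => prd m c j)
  exact continuous_iff_continuousAt.2 fun x => (h () x).1.continuousAt

theorem continuous_flow (hm : 0 < m) (c : ℕ → ℂ) (t : ℝ) : Continuous (flow m c t) := by
  have h1 : Continuous fun ξ : ℝ => pul m (c ⌊t⌋₊) (t - ⌊t⌋₊) ξ :=
    continuous_pul' hm continuous_const continuous_const continuous_id'
  exact h1.mul (continuous_prd hm c _)

theorem norm_Xq_le (hm : 0 < m) {c : ℂ} (hc : ‖c‖ = 1) (ξ : ℝ) : ‖Xq m c ξ‖ ≤ |ξ| + m := by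
  refine (abs_le_of_sq_le_sq' ?_ (by positivity)).2
  rw [quat_norm_sq]
  have := unit_sq hc
  simp only [Xq_re, Xq_imI, Xq_imJ, Xq_imK]
  have h1 := sq_abs ξ
  have h2 : 0 ≤ |ξ| * m := by positivity
  nlinarith

/-- The right-hand side of the equation, jointly measurable. -/
theorem stronglyMeasurable_rhs (hm : 0 < m) (c : ℕ → ℂ) :
    StronglyMeasurable fun p : ℝ × ℝ => Xq m (c ⌊p.1⌋₊) p.2 * flow m c p.1 p.2 := by
  have h1 : Continuous fun q : ℕ × ℝ × ℝ =>
      Xq m (c q.1) q.2.2 * (pul m (c q.1) (q.2.1 - q.1) q.2.2 * prd m c q.1 q.2.2) := by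
    refine continuous_prod_of_discrete_left.2 fun j => ?_
    have e1 : Continuous fun p : ℝ × ℝ => Xq m (c j) p.2 :=
      continuous_Xq' continuous_const continuous_snd
    have e2 : Continuous fun p : ℝ × ℝ => pul m (c j) (p.1 - j) p.2 :=
      continuous_pul' hm continuous_const (continuous_fst.sub continuous_const) continuous_snd
    have e3 : Continuous fun p : ℝ × ℝ => prd m c j p.2 :=
      (continuous_prd hm c j).comp continuous_snd
    have e4 := e1.fun_mul (e2.fun_mul e3)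
    simpa only using e4
  have h2 : Measurable fun p : ℝ × ℝ => ((⌊p.1⌋₊, p) : ℕ × ℝ × ℝ) :=
    (Nat.measurable_floor.comp measurable_fst).prodMk measurable_id
  have h3 := h1.comp_stronglyMeasurable h2.stronglyMeasurable
  simpa only [flow] using h3

theorem norm_rhs_le (hm : 0 < m) {c : ℕ → ℂ} (hc : ∀ j, ‖c j‖ = 1) (s ξ : ℝ) :
    ‖Xq m (c ⌊s⌋₊) ξ * flow m c s ξ‖ ≤ |ξ| + m := by
  rw [norm_mul, norm_flow hm hc, mul_one]
  exact norm_Xq_le hm (hc _) ξ

theorem intervalIntegrable_rhs (hm : 0 < m) {c : ℕ → ℂ} (hc : ∀ j, ‖c j‖ = 1) (ξ a b : ℝ) :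
    IntervalIntegrable (fun s => Xq m (c ⌊s⌋₊) ξ * flow m c s ξ) volume a b := by
  have h1 : StronglyMeasurable fun s : ℝ => Xq m (c ⌊s⌋₊) ξ * flow m c s ξ := by
    have := (stronglyMeasurable_rhs hm c).comp_measurable (measurable_prodMk_right (y := ξ))
    simpa only [Function.comp_def] using this
  exact (intervalIntegrable_const (c := |ξ| + m)).mono_fun' h1.aestronglyMeasurable
    (Eventually.of_forall fun s => norm_rhs_le hm hc s ξ)

theorem flow_piece (hm : 0 < m) {c : ℕ → ℂ} (hc : ∀ j, ‖c j‖ = 1) (ξ : ℝ) (j : ℕ) {t : ℝ}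
    (h1 : (j : ℝ) ≤ t) (h2 : t ≤ j + 1) :
    ∫ s in (j : ℝ)..t, Xq m (c ⌊s⌋₊) ξ * flow m c s ξ =
      pul m (c j) (t - j) ξ * prd m c j ξ - prd m c j ξ := by
  have hd : ∀ s : ℝ, HasDerivAt (fun s => pul m (c j) (s - j) ξ * prd m c j ξ)
      (Xq m (c j) ξ * (pul m (c j) (s - j) ξ * prd m c j ξ)) s := by
    intro s
    have := ((hasDerivAt_pul hm (hc j) (s - j) ξ).comp_sub_const s (j : ℝ)).mul_const
      (prd m c j ξ)
    rwa [mul_assoc] at this
  have hcont : Continuous fun s : ℝ => Xq m (c j) ξ * (pul m (c j) (s - j) ξ * prd m c j ξ) :=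
    continuous_const.mul (continuous_iff_continuousAt.2 fun s => (hd s).continuousAt)
  have h3 := intervalIntegral.integral_eq_sub_of_hasDerivAt (a := (j : ℝ)) (b := t)
    (fun s _ => hd s) (hcont.intervalIntegrable _ _)
  simp only [sub_self, pul_zero, one_mul] at h3
  rw [← h3]
  refine intervalIntegral.integral_congr_ae ?_
  have hne : ∀ᵐ s : ℝ, s ≠ (j : ℝ) + 1 := by
    simp [ae_iff]
  filter_upwards [hne] with s hs hs'
  rw [uIoc_of_le h1] at hs'
  have : ⌊s⌋₊ = j := by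
    rw [Nat.floor_eq_iff ((Nat.cast_nonneg j).trans hs'.1.le)]
    exact ⟨hs'.1.le, lt_of_le_of_ne (hs'.2.trans h2) hs⟩
  rw [flow, this]

theorem flow_integral (hm : 0 < m) {c : ℕ → ℂ} (hc : ∀ j, ‖c j‖ = 1) (ξ : ℝ) {t : ℝ}
    (ht : 0 ≤ t) : ∫ s in (0 : ℝ)..t, Xq m (c ⌊s⌋₊) ξ * flow m c s ξ = flow m c t ξ - 1 := by
  have hnat : ∀ j : ℕ, ∫ s in (0 : ℝ)..j, Xq m (c ⌊s⌋₊) ξ * flow m c s ξ = prd m c j ξ - 1 := by
    intro j
    induction j with
    | zero => simp [prd]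
    | succ j ih =>
      rw [← intervalIntegral.integral_add_adjacent_intervals (b := (j : ℝ))
        (intervalIntegrable_rhs hm hc ξ _ _) (intervalIntegrable_rhs hm hc ξ _ _), ih,
        flow_piece hm hc ξ j (by push_cast; linarith) (by push_cast; linarith)]
      push_cast
      rw [add_sub_cancel_left, prd]
      abel
  rw [← intervalIntegral.integral_add_adjacent_intervals (b := (⌊t⌋₊ : ℝ))
    (intervalIntegrable_rhs hm hc ξ _ _) (intervalIntegrable_rhs hm hc ξ _ _), hnat,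
    flow_piece hm hc ξ _ (Nat.floor_le ht) (Nat.lt_floor_add_one t).le, flow]
  abel

theorem continuousOn_flow (hm : 0 < m) {c : ℕ → ℂ} (hc : ∀ j, ‖c j‖ = 1) (ξ : ℝ) :
    ContinuousOn (fun t => flow m c t ξ) (Ici 0) := by
  have h1 := intervalIntegral.continuous_primitive (intervalIntegrable_rhs hm hc ξ) 0
  refine (h1.add (continuous_const (y := (1 : ℍ)))).continuousOn.congr fun t ht => ?_
  simp only [Pi.add_apply]
  rw [flow_integral hm hc ξ ht, sub_add_cancel]

theorem norm_pow_sub_one_le {V : ℍ} (h : ‖V‖ = 1) (n : ℕ) : ‖V ^ n - 1‖ ≤ n * ‖V - 1‖ := by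
  induction n with
  | zero => simp
  | succ n ih =>
    have : V ^ (n + 1) - 1 = (V ^ n - 1) * V + (V - 1) := by rw [pow_succ]; noncomm_ring
    rw [this]
    refine (norm_add_le _ _).trans ?_
    rw [norm_mul, h]
    push_cast
    linarith

theorem flow_main (k : ℕ) : ∃ (N : ℕ) (c : ℕ → ℂ), 0 < N ∧ (∀ j, ‖c j‖ = 1) ∧
    (∀ j, c (N + j) = c j) ∧
    (∃ (p : ℕ) (C σ : ℝ), 1 ≤ p ∧ 0 < C ∧ 0 < σ ∧ ∀ t : ℝ, 0 < t → ∀ x φ : ℝ,
      ‖∫ ξ, (wt p ξ * Real.cos (x * ξ + φ)) • flow (Real.pi / 2) c t ξ‖ ≤ C / t ^ σ) ∧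
    (∃ C : ℝ, 0 < C ∧ ∀ (n : ℕ) (ξ : ℝ),
      ‖flow (Real.pi / 2) c ((N * (4 * n) : ℕ) : ℝ) ξ - 1‖ ≤ C * n * |ξ| ^ (k + 2)) := by
  have hm : 0 < Real.pi / 2 := by positivity
  obtain ⟨N, c0, hN, hc0, g, hg, hfac0⟩ := exists_flat (k + 1)
  let c : ℕ → ℂ := fun j => c0 (j % N)
  have hc : ∀ j, ‖c j‖ = 1 := fun j => hc0 _
  have hper : ∀ j, c (N + j) = c j := fun j => by simp only [c, Nat.add_mod_left]
  set M := prd (Real.pi / 2) c N with hM
  have hfac : ∀ ξ : ℝ, aa (M ξ) = (ξ : ℂ) ^ (k + 2) * g ξ := fun ξ => by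
    rw [← hfac0 ξ, hM, prd_congr (c' := c0) fun j hj => by simp only [c, Nat.mod_eq_of_lt hj]]
  have hD : Dd M = fun ξ => ξ ^ (k + 2) * (g ξ).re := by
    funext ξ
    have := congrArg Complex.re (hfac ξ)
    rw [← Complex.ofReal_pow, Complex.re_ofReal_mul] at this
    exact this
  have hu : ∀ ξ, ‖M ξ‖ = 1 := norm_prd hm hc N
  refine ⟨N, c, hN, hc, hper, ?_, ?_⟩
  · have h0 : Dd M 0 = 0 := by simp [hD]
    have h1 : deriv (Dd M) 0 = 0 := by
      have e1 : HasDerivAt (fun ξ => (g ξ).re) (deriv g 0).re 0 :=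
        Complex.reCLM.hasFDerivAt.comp_hasDerivAt 0 hg.differentiableAt.hasDerivAt
      have e2 := (hasDerivAt_pow (k + 2) (0 : ℝ)).fun_mul e1
      rw [hD, e2.deriv]
      simp
    have h2 : ∃ ξ, Dd M ξ ≠ 0 := by
      refine ⟨Real.sqrt 3 * (Real.pi / 2), ?_⟩
      have e1 : om (Real.pi / 2) (Real.sqrt 3 * (Real.pi / 2)) = Real.pi := by
        unfold om
        rw [mul_pow, Real.sq_sqrt (by norm_num : (0 : ℝ) ≤ 3),
          show 3 * (Real.pi / 2) ^ 2 + (Real.pi / 2) ^ 2 = Real.pi ^ 2 by ring,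
          Real.sqrt_sq Real.pi_pos.le]
      have e2 : ∀ j, (prd (Real.pi / 2) c j (Real.sqrt 3 * (Real.pi / 2))).re = (-1) ^ j := by
        intro j
        induction j with
        | zero => simp [prd]
        | succ j ih => simp [prd, e1, ih, pow_succ]
      change (prd (Real.pi / 2) c N _).re ≠ 0
      rw [e2]
      exact pow_ne_zero _ (by norm_num)
    let P := Fin N × {s : ℝ // |s| ≤ 1}
    have hR : PB fun (a : P) ξ => pul (Real.pi / 2) (c a.1) a.2 ξ * prd (Real.pi / 2) c a.1 ξ := by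
      refine (pb_pul hm (fun a : P => hc a.1) (fun a : P => a.2.2)).mul ?_
      have key : ∀ n : ℕ, PB fun (j : Fin n) => prd (Real.pi / 2) c j := by
        intro n
        induction n with
        | zero => exact ⟨1, 0, one_pos, fun j => j.elim0⟩
        | succ n ih =>
          obtain ⟨C, p, hC, h⟩ := ih
          obtain ⟨D, q, hD, h'⟩ := ((qe_prd c n).pb hm : PB fun (_ : Unit) => prd _ c n)
          refine ⟨C + D, max p q, by positivity, fun j ξ => ?_⟩
          have h3 := mul_le_mul_of_nonneg_left (w_pow_mono ξ (le_max_left p q)) hC.le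
          have h4 := mul_le_mul_of_nonneg_left (w_pow_mono ξ (le_max_right p q)) hD.le
          have h5 : 0 ≤ C * (1 + |ξ|) ^ max p q := by positivity
          have h6 : 0 ≤ D * (1 + |ξ|) ^ max p q := by positivity
          rcases Nat.lt_or_ge j n with hlt | hge
          · obtain ⟨d, b, b'⟩ := h ⟨j, hlt⟩ ξ
            exact ⟨d, le_trans b (by linarith), le_trans b' (by linarith)⟩
          · have : (j : ℕ) = n := by omega
            simp only [this]
            obtain ⟨d, b, b'⟩ := h' () ξ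
            exact ⟨d, le_trans b (by linarith), le_trans b' (by linarith)⟩
      exact (key N).reparam Prod.fst
    obtain ⟨p, C, σ, hp, hC, hσ, hker⟩ := kernel_bound hm (qe_prd c N) hu h0 h1 h2 hR
      (fun a ξ => by rw [norm_mul, norm_pul hm (hc _), norm_prd hm hc, mul_one])
    have hN0 : (0 : ℝ) < N := by exact_mod_cast hN
    refine ⟨p, (C + Real.pi) * (2 * N) ^ σ, σ, hp, by positivity, hσ, fun t ht x φ => ?_⟩
    set n := ⌊t⌋₊ / N with hn
    have htn : t < N * (n + 1) := by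
      have e1 : ⌊t⌋₊ < N * (n + 1) := Nat.lt_mul_div_succ _ hN
      have e2 : ((⌊t⌋₊ + 1 : ℕ) : ℝ) ≤ ((N * (n + 1) : ℕ) : ℝ) := by exact_mod_cast e1
      push_cast at e2
      linarith [Nat.lt_floor_add_one t]
    have htσ : 0 < t ^ σ := Real.rpow_pos_of_pos ht σ
    rcases Nat.eq_zero_or_pos n with h0 | hpos
    · have e1 : ‖∫ ξ, (wt p ξ * Real.cos (x * ξ + φ)) • flow (Real.pi / 2) c t ξ‖ ≤ Real.pi := by
        refine (norm_integral_le_of_norm_le integrable_inv_one_add_sq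
          (Eventually.of_forall fun ξ => ?_)).trans integral_univ_inv_one_add_sq.le
        rw [norm_smul, norm_flow hm hc, mul_one, norm_mul, Real.norm_eq_abs,
          abs_of_pos (wt_pos p ξ)]
        exact (mul_le_of_le_one_right (wt_pos p ξ).le (Real.abs_cos_le_one _)).trans (wt_le hp ξ)
      refine e1.trans ?_
      rw [le_div_iff₀ htσ]
      rw [h0] at htn
      have e2 : t ^ σ ≤ (2 * N) ^ σ := Real.rpow_le_rpow ht.le (by push_cast at htn; linarith) hσ.le
      exact mul_le_mul (by linarith) e2 htσ.le (by positivity)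
    · have hs : |t - ⌊t⌋₊| ≤ 1 := by
        rw [abs_le]
        constructor <;> linarith [Nat.floor_le ht.le, Nat.lt_floor_add_one t]
      have e1 := hker (⟨⌊t⌋₊ % N, Nat.mod_lt _ hN⟩, ⟨t - ⌊t⌋₊, hs⟩) n hpos x φ
      have e2 : ∀ ξ, flow (Real.pi / 2) c t ξ =
          pul (Real.pi / 2) (c (⌊t⌋₊ % N)) (t - ⌊t⌋₊) ξ * prd (Real.pi / 2) c (⌊t⌋₊ % N) ξ *
            M ξ ^ n := by
        intro ξ
        have e3 : c ⌊t⌋₊ = c (⌊t⌋₊ % N) := by simp only [c, Nat.mod_mod]
        have e4 := prd_periodic (m := Real.pi / 2) hper n (⌊t⌋₊ % N) ξ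
        rw [hn, Nat.div_add_mod] at e4
        rw [flow, e3, e4, mul_assoc]
      simp only [e2]
      refine le_trans e1 ?_
      have hn1 : (1 : ℝ) ≤ n := by exact_mod_cast hpos
      rw [div_le_div_iff₀ (by positivity) htσ]
      have e5 : t ^ σ ≤ (2 * N * n) ^ σ := Real.rpow_le_rpow ht.le (by nlinarith) hσ.le
      rw [Real.mul_rpow (by positivity) (by positivity)] at e5
      calc C * t ^ σ ≤ (C + Real.pi) * ((2 * N) ^ σ * n ^ σ) :=
            mul_le_mul (by linarith [Real.pi_pos]) e5 htσ.le (by positivity)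
        _ = _ := by ring
  · obtain ⟨δ, hδ, hball⟩ := Metric.eventually_nhds_iff_ball.1
      (hg.continuousAt.norm.eventually (gt_mem_nhds (lt_add_one ‖g 0‖)))
    have hDb : ∀ ξ, |(M ξ).re| ≤ (‖g 0‖ + 1 + 1 / δ ^ (k + 2)) * |ξ| ^ (k + 2) := by
      intro ξ
      have e0 : 0 ≤ |ξ| ^ (k + 2) := by positivity
      by_cases hξ : |ξ| < δ
      · have e1 : (M ξ).re = ξ ^ (k + 2) * (g ξ).re := congrFun hD ξ
        have e2 := (Complex.abs_re_le_norm (g ξ)).trans
          (hball ξ (by simpa using hξ)).le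
        rw [e1, abs_mul, abs_pow, mul_comm]
        refine mul_le_mul_of_nonneg_right ?_ e0
        have : 0 ≤ 1 / δ ^ (k + 2) := by positivity
        linarith
      · have e1 : |(M ξ).re| ≤ 1 := (abs_re_le _).trans (hu ξ).le
        have e2 : δ ^ (k + 2) ≤ |ξ| ^ (k + 2) := pow_le_pow_left₀ hδ.le (not_lt.1 hξ) _
        have e3 : 1 ≤ 1 / δ ^ (k + 2) * |ξ| ^ (k + 2) := by
          rw [one_div_mul_eq_div, one_le_div (by positivity)]; exact e2
        have e4 : 0 ≤ (‖g 0‖ + 1) * |ξ| ^ (k + 2) := by positivity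
        linarith
    refine ⟨4 * (‖g 0‖ + 1 + 1 / δ ^ (k + 2)), by positivity, fun n ξ => ?_⟩
    have e1 := prd_periodic (m := Real.pi / 2) hper (4 * n) 0 ξ
    rw [add_zero] at e1
    have e2 : M ξ ^ (4 * n) = (-(M ξ ^ 2)) ^ (2 * n) := by
      rw [Even.neg_pow (even_two_mul n), ← pow_mul]; congr 1; ring
    have e3 : ‖-(M ξ ^ 2) - 1‖ = 2 * |(M ξ).re| := by
      rw [sq_unit (hu ξ), neg_sub, sub_sub_cancel_left, norm_neg, norm_smul, hu, mul_one,
        Real.norm_eq_abs, abs_mul, abs_two]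
    rw [flow_nat, e1, prd, one_mul, ← hM, e2]
    refine (norm_pow_sub_one_le (by rw [norm_neg, norm_pow, hu, one_pow]) _).trans ?_
    rw [e3]
    push_cast
    have := mul_le_mul_of_nonneg_left (hDb ξ) (by positivity : (0 : ℝ) ≤ 4 * n)
    linarith

end Pool.Agent.Lib.MP_24bb3f_an
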