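import Mathlib
import Pool.Agent.Lib.MP_24bb3f_an.Flow

/-!
The action of quaternions on `ℂ²`, the forcing, and the definitions of weak solution and of decay
estimate.
-/

namespace Pool.Agent.Lib.MP_24bb3f_an

open Set Filter Topology MeasureTheory Quaternion Complex
open scoped SchwartzMap FourierTransform

/-- The space of spinors. -/
abbrev V := EuclideanSpace ℂ (Fin 2)

/-- The matrix of a quaternion. -/
def rho : ℍ →ₗ[ℝ] Matrix (Fin 2) (Fin 2) ℂ where
  toFun q := !![q.re - I * q.imK, -q.imJ - I * q.imI; q.imJ - I * q.imI, q.re + I * q.imK]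
  map_add' p q := by
    ext i j
    fin_cases i <;> fin_cases j <;> simp <;> ring
  map_smul' a q := by
    ext i j
    fin_cases i <;> fin_cases j <;> simp <;> ring

theorem rho_apply (q : ℍ) : rho q =
    !![q.re - I * q.imK, -q.imJ - I * q.imI; q.imJ - I * q.imI, q.re + I * q.imK] := rfl

theorem rho_one : rho 1 = 1 := by
  ext i j
  fin_cases i <;> fin_cases j <;> simp [rho_apply]

theorem rho_mul (p q : ℍ) : rho (p * q) = rho p * rho q := by
  ext i j
  fin_cases i <;> fin_cases j <;>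
    simp [rho_apply, Matrix.mul_apply, Fin.sum_univ_two, Complex.ext_iff] <;>
    constructor <;> ring

/-- Matrices as operators. -/
noncomputable abbrev op (A : Matrix (Fin 2) (Fin 2) ℂ) : V →L[ℂ] V :=
  Matrix.toEuclideanCLM (n := Fin 2) (𝕜 := ℂ) A

/-- The action of quaternions on spinors. -/
noncomputable def act : ℍ →L[ℝ] V →L[ℝ] V :=
  LinearMap.toContinuousLinearMap
    { toFun := fun q => (op (rho q)).restrictScalars ℝ
      map_add' := fun p q => by
        ext1 v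
        simp only [op, map_add]
        rfl
      map_smul' := fun a q => by
        ext1 v
        have : a • rho q = (a : ℂ) • rho q := (Complex.coe_smul a _).symm
        simp only [op, map_smul, RingHom.id_apply, this]
        rfl }

theorem act_apply (q : ℍ) (v : V) : act q v = op (rho q) v := rfl

theorem act_one (v : V) : act 1 v = v := by
  simp [act_apply, rho_one, op]

theorem act_mul (p q : ℍ) (v : V) : act (p * q) v = act p (act q v) := by
  simp [act_apply, rho_mul, op]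

theorem act_smul (q : ℍ) (z : ℂ) (v : V) : act q (z • v) = z • act q v := by
  simp only [act_apply, map_smul]

theorem norm_act (q : ℍ) (v : V) : ‖act q v‖ = ‖q‖ * ‖v‖ := by
  refine (sq_eq_sq₀ (norm_nonneg _) (by positivity)).1 ?_
  rw [mul_pow, quat_norm_sq, EuclideanSpace.norm_sq_eq, EuclideanSpace.norm_sq_eq]
  simp [act_apply, rho_apply, Fin.sum_univ_two, Complex.sq_norm, Complex.normSq_apply,
    Matrix.mulVec, dotProduct]
  ring

/-- The matrix of the forcing for a phase `c`. -/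
def nuM (m : ℝ) (c : ℂ) : Matrix (Fin 2) (Fin 2) ℂ := !![0, m * (starRingEnd ℂ) c; m * c, 0]

theorem nuM_isHermitian (m : ℝ) (c : ℂ) : (nuM m c).IsHermitian := by
  ext i j
  fin_cases i <;> fin_cases j <;> simp [nuM]

theorem act_Xq (m : ℝ) (c : ℂ) (ξ : ℝ) (v : V) :
    I • act (Xq m c ξ) v = op !![1, 0; 0, -1] ((ξ : ℂ) • v) + op (nuM m c) v := by
  have : I • rho (Xq m c ξ) = (ξ : ℂ) • !![1, 0; 0, -1] + nuM m c := by
    ext i j
    fin_cases i <;> fin_cases j <;> simp [rho_apply, nuM, Complex.ext_iff]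
  have h2 := congrArg (fun A => op A v) this
  simp only [op, map_add, map_smul, add_apply, smul_apply] at h2 ⊢
  exact h2

/-- Weak solutions, continuous in time with values in `L²`. -/
def IsSolution (ν : ℝ → Matrix (Fin 2) (Fin 2) ℂ) (α : ℝ → Lp V 2 (volume : Measure ℝ)) : Prop :=
  ContinuousOn α (Ici 0) ∧ ∀ φ : 𝓢(ℝ, ℂ), ∀ t : ℝ, 0 ≤ t →
    I • ((α t : 𝓢'(ℝ, V)) φ - (α 0 : 𝓢'(ℝ, V)) φ) =
      ∫ s in (0 : ℝ)..t,
        (op !![1, 0; 0, -1] (I • TemperedDistribution.derivCLM V (α s : 𝓢'(ℝ, V)) φ) +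
          op (ν s) ((α s : 𝓢'(ℝ, V)) φ))

/-- The symbol of the multiplier. -/
noncomputable def symb (r w : ℝ) : ℝ := (1 + (2 * Real.pi * w) ^ 2) ^ (r / 2)

/-- Decay estimate of order `(r, σ)`. -/
def Decay (ν : ℝ → Matrix (Fin 2) (Fin 2) ℂ) (r σ : ℝ) : Prop :=
  ∃ c : ℝ, ∀ α, IsSolution ν α → ∀ g : Lp V 1 (volume : Measure ℝ),
    TemperedDistribution.fourierMultiplierCLM V (fun w : ℝ => (symb r w : ℂ))
      (α 0 : 𝓢'(ℝ, V)) = (g : 𝓢'(ℝ, V)) →
    ∀ t : ℝ, 0 < t → eLpNorm (α t) ⊤ volume ≤ ENNReal.ofReal (c / t ^ σ * ‖g‖)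

/-- The pairing with a test function on the Fourier side. -/
noncomputable def pr (ψ : 𝓢(ℝ, ℂ)) (a : Lp V 2 (volume : Measure ℝ)) : V := ∫ w, ψ w • a w

/-- Multiplication of a test function by the frequency `-2πw`. -/
noncomputable def mx (ψ : 𝓢(ℝ, ℂ)) : 𝓢(ℝ, ℂ) :=
  SchwartzMap.smulLeftCLM ℂ (fun w : ℝ => ((-(2 * Real.pi) * w : ℝ) : ℂ)) ψ

theorem mx_apply (ψ : 𝓢(ℝ, ℂ)) (w : ℝ) : mx ψ w = ((-(2 * Real.pi) * w : ℝ) : ℂ) * ψ w := by
  have : (fun w : ℝ => ((-(2 * Real.pi) * w : ℝ) : ℂ)).HasTemperateGrowth := by fun_prop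
  rw [mx, SchwartzMap.smulLeftCLM_apply_apply this, smul_eq_mul]

theorem dist_apply (f : Lp V 2 (volume : Measure ℝ)) (φ : 𝓢(ℝ, ℂ)) :
    (f : 𝓢'(ℝ, V)) φ = pr (𝓕⁻ φ) (𝓕 f) := by
  have h := congrArg (fun T : 𝓢'(ℝ, V) => T (𝓕⁻ φ)) (Lp.fourier_toTemperedDistribution_eq f)
  simp only [TemperedDistribution.fourier_apply, FourierTransform.fourier_fourierInv_eq] at h
  rw [h, Lp.toTemperedDistribution_apply, pr]

theorem deriv_apply (f : Lp V 2 (volume : Measure ℝ)) (φ : 𝓢(ℝ, ℂ)) :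
    I • TemperedDistribution.derivCLM V (f : 𝓢'(ℝ, V)) φ = pr (mx (𝓕⁻ φ)) (𝓕 f) := by
  rw [TemperedDistribution.derivCLM_apply_apply, ← map_smul, dist_apply]
  congr 1
  have h1 : SchwartzMap.derivCLM ℂ ℂ φ = LineDeriv.lineDerivOp (1 : ℝ) φ := by
    ext x
    simp [SchwartzMap.lineDerivOp_apply_eq_fderiv]
  have h2 : (fun x : ℝ => inner ℝ x (1 : ℝ)).HasTemperateGrowth := by fun_prop
  rw [h1, smul_neg, ← neg_smul, FourierTransform.fourierInv_smul,
    SchwartzMap.fourierInv_lineDerivOp_eq]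
  ext w
  rw [mx_apply]
  simp only [smul_apply, SchwartzMap.smulLeftCLM_apply_apply h2]
  simp
  ring_nf
  simp

theorem isSolution_iff (ν : ℝ → Matrix (Fin 2) (Fin 2) ℂ) (α : ℝ → Lp V 2 (volume : Measure ℝ)) :
    IsSolution ν α ↔ ContinuousOn α (Ici 0) ∧ ∀ ψ : 𝓢(ℝ, ℂ), ∀ t : ℝ, 0 ≤ t →
      I • (pr ψ (𝓕 (α t)) - pr ψ (𝓕 (α 0))) = ∫ s in (0 : ℝ)..t,
        (op !![1, 0; 0, -1] (pr (mx ψ) (𝓕 (α s))) + op (ν s) (pr ψ (𝓕 (α s)))) := by
  unfold IsSolution
  simp only [deriv_apply]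
  simp only [dist_apply]
  refine and_congr_right fun _ => ⟨fun h ψ t ht => ?_, fun h φ t ht => h _ t ht⟩
  simpa only [FourierTransform.fourierInv_fourier_eq] using h (𝓕 ψ) t ht

end Pool.Agent.Lib.MP_24bb3f_an
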