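import Mathlib
import Pool.Agent.Lib.MP_24bb3f_an.Rep

/-!
Existence of weak solutions for the piecewise constant forcing.
-/

namespace Pool.Agent.Lib.MP_24bb3f_an

open Set Filter Topology MeasureTheory Quaternion Complex
open scoped SchwartzMap FourierTransform

variable {m : ℝ} {c : ℕ → ℂ}

theorem norm_sq_L2 (f : Lp V 2 (volume : Measure ℝ)) : ‖f‖ ^ 2 = ∫ w, ‖f w‖ ^ 2 := by
  rw [← real_inner_self_eq_norm_sq, L2.inner_def]
  simp only [real_inner_self_eq_norm_sq]

theorem integrable_pr (ψ : 𝓢(ℝ, ℂ)) {F : ℝ → V} (hF : MemLp F 2 volume) :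
    Integrable fun w => ψ w • F w :=
  memLp_one_iff_integrable.1 (hF.smul (ψ.memLp 2 volume))

/-- The Fourier transform of the solution. -/
noncomputable def uu (m : ℝ) (c : ℕ → ℂ) (F : ℝ → V) (t w : ℝ) : V :=
  act (flow m c t (-(2 * Real.pi) * w)) (F w)

theorem norm_uu (hm : 0 < m) (hc : ∀ j, ‖c j‖ = 1) (F : ℝ → V) (t w : ℝ) :
    ‖uu m c F t w‖ = ‖F w‖ := by
  rw [uu, norm_act, norm_flow hm hc, one_mul]

theorem meas_uu (hm : 0 < m) {F : ℝ → V} (hF : AEStronglyMeasurable F volume) (t : ℝ) :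
    AEStronglyMeasurable (uu m c F t) volume := by
  have h1 : Continuous fun w : ℝ => flow m c t (-(2 * Real.pi) * w) :=
    (continuous_flow hm c t).comp (continuous_const.mul continuous_id)
  exact act.aestronglyMeasurable_comp₂ h1.aestronglyMeasurable hF

theorem memLp_uu (hm : 0 < m) (hc : ∀ j, ‖c j‖ = 1) {F : ℝ → V} (hF : MemLp F 2 volume) (t : ℝ) :
    MemLp (uu m c F t) 2 volume :=
  hF.of_le (meas_uu hm hF.1 t) (Eventually.of_forall fun w => (norm_uu hm hc F t w).le)

theorem uu_zero (F : ℝ → V) : uu m c F 0 = F := by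
  funext w
  rw [uu, flow_zero, act_one]

/-- The solution with initial data `f`. -/
noncomputable def sol (hm : 0 < m) (hc : ∀ j, ‖c j‖ = 1) (f : Lp V 2 (volume : Measure ℝ))
    (t : ℝ) : Lp V 2 (volume : Measure ℝ) :=
  𝓕⁻ ((memLp_uu hm hc (Lp.memLp (𝓕 f : Lp V 2 (volume : Measure ℝ))) t).toLp _)

theorem fourier_sol (hm : 0 < m) (hc : ∀ j, ‖c j‖ = 1) (f : Lp V 2 (volume : Measure ℝ))
    (t : ℝ) : (𝓕 (sol hm hc f t) : Lp V 2 (volume : Measure ℝ)) =
      (memLp_uu hm hc (Lp.memLp (𝓕 f : Lp V 2 (volume : Measure ℝ))) t).toLp _ :=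
  FourierTransform.fourier_fourierInv_eq _

theorem sol_zero (hm : 0 < m) (hc : ∀ j, ‖c j‖ = 1) (f : Lp V 2 (volume : Measure ℝ)) :
    sol hm hc f 0 = f := by
  have : (memLp_uu hm hc (Lp.memLp (𝓕 f : Lp V 2 (volume : Measure ℝ))) 0).toLp _ =
      (𝓕 f : Lp V 2 (volume : Measure ℝ)) := by
    refine Lp.ext ((MemLp.coeFn_toLp _).trans ?_)
    rw [uu_zero]
  rw [sol, this, FourierTransform.fourierInv_fourier_eq]

theorem continuousOn_toLp_uu (hm : 0 < m) (hc : ∀ j, ‖c j‖ = 1) {F : ℝ → V}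
    (hF : MemLp F 2 volume) :
    ContinuousOn (fun t => (memLp_uu hm hc hF t).toLp _) (Ici 0) := by
  intro t₀ ht₀
  have h1 : ContinuousWithinAt (fun t => ∫ w, ‖uu m c F t w - uu m c F t₀ w‖ ^ 2) (Ici 0) t₀ := by
    refine continuousWithinAt_of_dominated (bound := fun w => 4 * ‖F w‖ ^ 2) ?_ ?_ ?_ ?_
    · exact Eventually.of_forall fun t =>
        ((meas_uu hm hF.1 t).sub (meas_uu hm hF.1 t₀)).norm.pow 2
    · refine Eventually.of_forall fun t => Eventually.of_forall fun w => ?_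
      have e1 := norm_sub_le (uu m c F t w) (uu m c F t₀ w)
      rw [norm_uu hm hc, norm_uu hm hc] at e1
      rw [Real.norm_eq_abs, abs_of_nonneg (by positivity)]
      nlinarith [norm_nonneg (uu m c F t w - uu m c F t₀ w), norm_nonneg (F w)]
    · exact ((memLp_two_iff_integrable_sq_norm hF.1).1 hF).const_mul 4
    · refine Eventually.of_forall fun w => ?_
      have e1 := (continuousOn_flow hm hc (-(2 * Real.pi) * w)) t₀ ht₀
      have e2 : ContinuousWithinAt (fun t => uu m c F t w) (Ici 0) t₀ := by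
        have := (act.flip (F w)).continuous.continuousAt.comp_continuousWithinAt e1
        simpa only [Function.comp_def, ContinuousLinearMap.flip_apply, uu] using this
      exact ((e2.sub continuousWithinAt_const).norm).pow 2
  have h2 := h1.tendsto.sqrt
  simp only [sub_self, norm_zero, ne_eq, OfNat.ofNat_ne_zero, not_false_eq_true, zero_pow,
    integral_zero, Real.sqrt_zero] at h2
  refine tendsto_iff_norm_sub_tendsto_zero.2 (h2.congr fun t => ?_)
  rw [Real.sqrt_eq_iff_mul_self_eq (integral_nonneg fun _ => by positivity) (norm_nonneg _), ← sq,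
    norm_sq_L2]
  refine integral_congr_ae ?_
  filter_upwards [Lp.coeFn_sub ((memLp_uu hm hc hF t).toLp _) ((memLp_uu hm hc hF t₀).toLp _),
    (memLp_uu hm hc hF t).coeFn_toLp, (memLp_uu hm hc hF t₀).coeFn_toLp] with w e1 e2 e3
  rw [e1, Pi.sub_apply, e2, e3]

theorem pr_toLp (ψ : 𝓢(ℝ, ℂ)) {F : ℝ → V} (hF : MemLp F 2 volume) :
    pr ψ (hF.toLp F) = ∫ w, ψ w • F w := by
  refine integral_congr_ae ?_
  filter_upwards [hF.coeFn_toLp] with w hw
  rw [hw]

theorem weak_uu (hm : 0 < m) (hc : ∀ j, ‖c j‖ = 1) {F : ℝ → V} (hF : MemLp F 2 volume)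
    (ψ : 𝓢(ℝ, ℂ)) {t : ℝ} (ht : 0 ≤ t) :
    I • ((∫ w, ψ w • uu m c F t w) - ∫ w, ψ w • uu m c F 0 w) = ∫ s in (0 : ℝ)..t,
      (op !![1, 0; 0, -1] (∫ w, mx ψ w • uu m c F s w) +
        op (nuM m (c ⌊s⌋₊)) (∫ w, ψ w • uu m c F s w)) := by
  set G : ℝ → ℝ → V := fun s w => (I * ψ w) •
    act (Xq m (c ⌊s⌋₊) (-(2 * Real.pi) * w) * flow m c s (-(2 * Real.pi) * w)) (F w) with hG
  have h1 : ∀ s, op !![1, 0; 0, -1] (∫ w, mx ψ w • uu m c F s w) +
      op (nuM m (c ⌊s⌋₊)) (∫ w, ψ w • uu m c F s w) = ∫ w, G s w := by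
    intro s
    have i1 := integrable_pr (mx ψ) (memLp_uu hm hc hF s)
    have i2 := integrable_pr ψ (memLp_uu hm hc hF s)
    rw [← ContinuousLinearMap.integral_comp_comm _ i1, ← ContinuousLinearMap.integral_comp_comm _ i2,
      ← integral_add (ContinuousLinearMap.integrable_comp _ i1)
        (ContinuousLinearMap.integrable_comp _ i2)]
    refine integral_congr_ae (Eventually.of_forall fun w => ?_)
    simp only [hG]
    rw [act_mul, mul_smul, ← act_smul, act_Xq, mx_apply, mul_smul]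
    rfl
  have h2 : Integrable (Function.uncurry G) ((volume.restrict (uIoc 0 t)).prod volume) := by
    have i1 := (integrable_pr (mx ψ) hF).norm
    have i2 := (integrable_pr ψ hF).norm.const_mul m
    have i3 : Integrable (fun _ : ℝ => (1 : ℝ)) (volume.restrict (uIoc 0 t)) :=
      integrableOn_const (by simp [uIoc])
    refine (i3.mul_prod (i1.add i2)).mono' ?_ (Eventually.of_forall fun p => ?_)
    · have e1 : StronglyMeasurable fun p : ℝ × ℝ =>
          Xq m (c ⌊p.1⌋₊) (-(2 * Real.pi) * p.2) * flow m c p.1 (-(2 * Real.pi) * p.2) := by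
        have := (stronglyMeasurable_rhs hm c).comp_measurable
          (g := fun p : ℝ × ℝ => (p.1, -(2 * Real.pi) * p.2)) (by fun_prop)
        simpa only [Function.comp_def] using this
      have e2 : Continuous fun p : ℝ × ℝ => I * ψ p.2 :=
        continuous_const.mul (ψ.continuous.comp continuous_snd)
      exact e2.aestronglyMeasurable.smul
        (act.aestronglyMeasurable_comp₂ e1.aestronglyMeasurable hF.1.comp_snd)
    · have e1 := norm_rhs_le hm hc p.1 (-(2 * Real.pi) * p.2)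
      simp only [Function.uncurry, hG, norm_smul, norm_act, Pi.add_apply, one_mul, mx_apply]
      rw [norm_mul I, norm_I, one_mul, norm_mul ((_ : ℝ) : ℂ), norm_real, Real.norm_eq_abs]
      have e2 := mul_le_mul_of_nonneg_left e1
        (mul_nonneg (norm_nonneg (ψ p.2)) (norm_nonneg (F p.2)))
      linarith
  simp only [h1]
  rw [intervalIntegral_integral_swap h2, ← integral_sub (integrable_pr ψ (memLp_uu hm hc hF t))
    (integrable_pr ψ (memLp_uu hm hc hF 0)), ← integral_smul]
  refine integral_congr_ae (Eventually.of_forall fun w => ?_)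
  simp only [hG]
  rw [intervalIntegral.integral_smul]
  have e1 := (act.flip (F w)).intervalIntegral_comp_comm
    (intervalIntegrable_rhs hm hc (-(2 * Real.pi) * w) 0 t)
  simp only [ContinuousLinearMap.flip_apply] at e1
  rw [e1, flow_integral hm hc _ ht, map_sub, sub_apply, mul_smul, smul_sub (ψ w), uu, uu, flow_zero]

theorem isSolution_sol (hm : 0 < m) (hc : ∀ j, ‖c j‖ = 1) {ν : ℝ → Matrix (Fin 2) (Fin 2) ℂ}
    (hν : ∀ s, 0 ≤ s → ν s = nuM m (c ⌊s⌋₊)) (f : Lp V 2 (volume : Measure ℝ)) :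
    IsSolution ν (sol hm hc f) := by
  rw [isSolution_iff]
  refine ⟨?_, fun ψ t ht => ?_⟩
  · exact FourierTransform.continuous_fourierInv.comp_continuousOn
      (continuousOn_toLp_uu hm hc (Lp.memLp _))
  · simp only [fourier_sol, pr_toLp]
    rw [weak_uu hm hc (Lp.memLp _) ψ ht]
    refine intervalIntegral.integral_congr fun s hs => ?_
    rw [uIcc_of_le ht] at hs
    simp only [hν s hs.1]

end Pool.Agent.Lib.MP_24bb3f_an
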