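import Mathlib
import Pool.Agent.Lib.MP_24bb3f_an.Exist

/-!
Uniqueness of weak solutions for bounded measurable forcing.
-/

namespace Pool.Agent.Lib.MP_24bb3f_an

open Set Filter Topology MeasureTheory Quaternion Complex
open scoped SchwartzMap FourierTransform ContDiff

theorem pr_sub (ψ : 𝓢(ℝ, ℂ)) (a b : Lp V 2 (volume : Measure ℝ)) :
    pr ψ (a - b) = pr ψ a - pr ψ b := by
  rw [pr, pr, pr, ← integral_sub (integrable_pr ψ (Lp.memLp a)) (integrable_pr ψ (Lp.memLp b))]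
  refine integral_congr_ae ?_
  filter_upwards [Lp.coeFn_sub a b] with w hw
  rw [hw, Pi.sub_apply, smul_sub]

theorem norm_pr_le (ψ : 𝓢(ℝ, ℂ)) (a : Lp V 2 (volume : Measure ℝ)) :
    ‖pr ψ a‖ ≤ ‖ψ.toLp 2 volume‖ * ‖a‖ := by
  refine le_trans ?_ (Lp.norm_smul_le (r := 1) (ψ.toLp 2 volume) a)
  rw [L1.norm_eq_integral_norm]
  refine (norm_integral_le_integral_norm _).trans (le_of_eq (integral_congr_ae ?_))
  filter_upwards [Lp.coeFn_lpSMul (r := 1) (ψ.toLp 2 volume) a, ψ.coeFn_toLp 2 volume] with w h1 h2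
  rw [h1, Pi.smul_apply', h2]

theorem continuous_pr (ψ : 𝓢(ℝ, ℂ)) : Continuous (pr ψ) := by
  refine (LipschitzWith.of_dist_le_mul (K := ‖ψ.toLp 2 volume‖₊) fun a b => ?_).continuous
  rw [dist_eq_norm, dist_eq_norm, ← pr_sub]
  exact norm_pr_le ψ _

theorem norm_mx_le {ψ : 𝓢(ℝ, ℂ)} {R : ℝ} (h : ∀ w, R < |w| → ψ w = 0) :
    ‖(mx ψ).toLp 2 volume‖ ≤ 2 * Real.pi * R * ‖ψ.toLp 2 volume‖ := by
  refine Lp.norm_le_mul_norm_of_ae_le_mul ?_
  filter_upwards [ψ.coeFn_toLp 2 volume, (mx ψ).coeFn_toLp 2 volume] with w h1 h2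
  rw [h1, h2, mx_apply]
  by_cases hw : R < |w|
  · simp [h w hw]
  · rw [norm_mul, norm_real, Real.norm_eq_abs, abs_mul, abs_neg,
      abs_of_pos (by positivity : 0 < 2 * Real.pi)]
    exact mul_le_mul_of_nonneg_right
      (mul_le_mul_of_nonneg_left (not_lt.1 hw) (by positivity)) (norm_nonneg _)

theorem intervalIntegrable_weak {ν : ℝ → Matrix (Fin 2) (Fin 2) ℂ} {B : ℝ}
    (hmeas : StronglyMeasurable fun s => op (ν s)) (hB : ∀ s, ‖op (ν s)‖ ≤ B)
    {a : ℝ → Lp V 2 (volume : Measure ℝ)} (ha : ContinuousOn a (Ici 0)) (ψ : 𝓢(ℝ, ℂ)) {t : ℝ}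
    (ht : 0 ≤ t) : IntervalIntegrable
      (fun s => op !![1, 0; 0, -1] (pr (mx ψ) (a s)) + op (ν s) (pr ψ (a s))) volume 0 t := by
  have h0 : ContinuousOn a (uIcc 0 t) := ha.mono (by rw [uIcc_of_le ht]; exact Icc_subset_Ici_self)
  have h1 : ∀ φ, ContinuousOn (fun s => pr φ (a s)) (uIcc 0 t) := fun φ =>
    (continuous_pr φ).comp_continuousOn h0
  refine ((op _).continuous.comp_continuousOn (h1 (mx ψ))).intervalIntegrable.add ?_
  have h2 := (h1 ψ).intervalIntegrable (μ := volume)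
  refine (h2.norm.const_mul B).mono_fun' ?_ (Eventually.of_forall fun s => ?_)
  · have h3 := (intervalIntegrable_iff.1 h2).aestronglyMeasurable
    exact (isBoundedBilinearMap_apply (𝕜 := ℂ) (E := V) (F := V)).continuous.comp_aestronglyMeasurable
      (hmeas.aestronglyMeasurable.prodMk h3)
  · exact ((op (ν s)).le_opNorm _).trans (mul_le_mul_of_nonneg_right (hB s) (norm_nonneg _))

theorem zero_of_weak {ν : ℝ → Matrix (Fin 2) (Fin 2) ℂ} {B : ℝ} (hB : ∀ s, ‖op (ν s)‖ ≤ B)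
    {d : ℝ → Lp V 2 (volume : Measure ℝ)} (hd : ContinuousOn d (Ici 0))
    (h : ∀ ψ : 𝓢(ℝ, ℂ), ∀ t : ℝ, 0 ≤ t → I • pr ψ (d t) = ∫ s in (0 : ℝ)..t,
      (op !![1, 0; 0, -1] (pr (mx ψ) (d s)) + op (ν s) (pr ψ (d s)))) {t : ℝ} (ht : 0 ≤ t) :
    d t = 0 := by
  obtain ⟨A, hA⟩ := isCompact_Icc.exists_bound_of_continuousOn
    (hd.mono (Icc_subset_Ici_self : Icc 0 t ⊆ Ici 0))
  have hA0 : 0 ≤ A := (norm_nonneg _).trans (hA 0 ⟨le_rfl, ht⟩)
  have hB0 : 0 ≤ B := (norm_nonneg _).trans (hB 0)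
  set S := ‖op !![1, 0; 0, -1]‖ with hS
  have hS0 : 0 ≤ S := norm_nonneg _
  have key : ∀ R : ℝ, 0 ≤ R → ∀ n : ℕ, ∀ ψ : 𝓢(ℝ, ℂ), (∀ w, R < |w| → ψ w = 0) →
      ∀ τ ∈ Icc 0 t, ‖pr ψ (d τ)‖ ≤ A * ‖ψ.toLp 2 volume‖ *
        ((S * (2 * Real.pi * R) + B) * τ) ^ n / n.factorial := by
    intro R hR n
    set L := S * (2 * Real.pi * R) + B with hL
    have hL0 : 0 ≤ L := by positivity
    induction n with
    | zero =>
      intro ψ _ τ hτ
      have := (norm_pr_le ψ (d τ)).trans (mul_le_mul_of_nonneg_left (hA τ hτ) (norm_nonneg _))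
      simpa [mul_comm] using this
    | succ n ih =>
      intro ψ hψ τ hτ
      have e1 : ‖pr ψ (d τ)‖ = ‖I • pr ψ (d τ)‖ := by rw [norm_smul, norm_I, one_mul]
      rw [e1, h ψ τ hτ.1]
      have e2 : ∀ w, R < |w| → mx ψ w = 0 := fun w hw => by rw [mx_apply, hψ w hw, mul_zero]
      refine (intervalIntegral.norm_integral_le_of_norm_le hτ.1
        (g := fun s => (A * ‖ψ.toLp 2 volume‖ * L ^ (n + 1) / n.factorial) * s ^ n)
        (Eventually.of_forall fun s hs => ?_)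
        (Continuous.intervalIntegrable (by fun_prop) _ _)).trans (le_of_eq ?_)
      · have hs' : s ∈ Icc 0 t := ⟨hs.1.le, hs.2.trans hτ.2⟩
        have e3 := ih (mx ψ) e2 s hs'
        have e4 := ih ψ hψ s hs'
        have e5 : 0 ≤ A * (L * s) ^ n / n.factorial := by
          have := hs'.1
          positivity
        have e6 := mul_le_mul_of_nonneg_left (norm_mx_le hψ) e5
        have e7 : ‖op !![1, 0; 0, -1] (pr (mx ψ) (d s))‖ ≤
            S * (A * (L * s) ^ n / n.factorial * (2 * Real.pi * R * ‖ψ.toLp 2 volume‖)) := by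
          refine (ContinuousLinearMap.le_opNorm _ _).trans (mul_le_mul_of_nonneg_left ?_ hS0)
          refine e3.trans (le_trans (le_of_eq ?_) e6)
          ring
        have e8 : ‖op (ν s) (pr ψ (d s))‖ ≤
            B * (A * ‖ψ.toLp 2 volume‖ * (L * s) ^ n / n.factorial) :=
          (ContinuousLinearMap.le_opNorm _ _).trans (mul_le_mul (hB s) e4 (norm_nonneg _) hB0)
        refine (norm_add_le _ _).trans ((add_le_add e7 e8).trans (le_of_eq ?_))
        rw [mul_pow, pow_succ L n]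
        generalize L ^ n = X
        rw [hL]
        ring
      · rw [intervalIntegral.integral_const_mul, integral_pow, Nat.factorial_succ]
        push_cast
        field_simp
        ring
  have key2 : ∀ ψ : 𝓢(ℝ, ℂ), HasCompactSupport ψ → pr ψ (d t) = 0 := by
    intro ψ hψ
    obtain ⟨R, hR⟩ := hψ.isCompact.isBounded.subset_closedBall (0 : ℝ)
    have hR' : ∀ w, |R| < |w| → ψ w = 0 := by
      intro w hw
      by_contra hne
      have := hR (subset_tsupport _ hne)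
      rw [mem_closedBall_zero_iff, Real.norm_eq_abs] at this
      linarith [le_abs_self R]
    have e1 := (FloorSemiring.tendsto_pow_div_factorial_atTop
      ((S * (2 * Real.pi * |R|) + B) * t)).const_mul (A * ‖ψ.toLp 2 volume‖)
    rw [mul_zero] at e1
    refine norm_le_zero_iff.1 (ge_of_tendsto' e1 fun n => ?_)
    rw [← mul_div_assoc]
    exact key _ (abs_nonneg R) n ψ hR' t ⟨ht, le_rfl⟩
  rw [Lp.eq_zero_iff_ae_eq_zero]
  apply ae_eq_zero_of_integral_contDiff_smul_eq_zero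
  · exact (Lp.memLp _).locallyIntegrable (by norm_num)
  · intro g g_smooth g_cpt
    have hg₁ : HasCompactSupport (Complex.ofRealCLM ∘ g) := g_cpt.comp_left rfl
    have hg₂ : ContDiff ℝ ∞ (Complex.ofRealCLM ∘ g) := by fun_prop
    have := key2 (hg₁.toSchwartzMap hg₂) hg₁
    rw [← this, pr]
    refine integral_congr_ae (Eventually.of_forall fun w => ?_)
    exact (Complex.coe_smul (g w) _).symm

theorem solution_unique {ν : ℝ → Matrix (Fin 2) (Fin 2) ℂ} {B : ℝ}
    (hmeas : StronglyMeasurable fun s => op (ν s)) (hB : ∀ s, ‖op (ν s)‖ ≤ B)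
    {α β : ℝ → Lp V 2 (volume : Measure ℝ)} (hα : IsSolution ν α) (hβ : IsSolution ν β)
    (h0 : α 0 = β 0) {t : ℝ} (ht : 0 ≤ t) : α t = β t := by
  rw [isSolution_iff] at hα hβ
  have ca : ContinuousOn (fun s => (𝓕 (α s) : Lp V 2 (volume : Measure ℝ))) (Ici 0) :=
    FourierTransform.continuous_fourier.comp_continuousOn hα.1
  have cb : ContinuousOn (fun s => (𝓕 (β s) : Lp V 2 (volume : Measure ℝ))) (Ici 0) :=
    FourierTransform.continuous_fourier.comp_continuousOn hβ.1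
  have := zero_of_weak hB (ca.sub cb) (fun ψ τ hτ => by
    have e1 := hα.2 ψ τ hτ
    have e2 := hβ.2 ψ τ hτ
    rw [← h0] at e2
    have e3 := intervalIntegral.integral_sub (intervalIntegrable_weak hmeas hB ca ψ hτ)
      (intervalIntegrable_weak hmeas hB cb ψ hτ)
    rw [← e1, ← e2, ← smul_sub, sub_sub_sub_cancel_right] at e3
    simp only [Pi.sub_apply, pr_sub, map_sub]
    rw [← e3]
    congr 1
    funext s
    abel) ht
  have e4 : (𝓕 (α t) : Lp V 2 (volume : Measure ℝ)) = 𝓕 (β t) := sub_eq_zero.1 this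
  simpa only [FourierTransform.fourierInv_fourier_eq] using
    congrArg (fun x : Lp V 2 (volume : Measure ℝ) => (𝓕⁻ x : Lp V 2 (volume : Measure ℝ))) e4

end Pool.Agent.Lib.MP_24bb3f_an
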