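import Mathlib
import Pool.Agent.Lib.MP_24bb3f_an.Unique

/-!
The Fourier multiplier identity on the Fourier side, and the inverse Fourier transform of functions
in `L¹ ∩ L²`.
-/

namespace Pool.Agent.Lib.MP_24bb3f_an

open Set Filter Topology MeasureTheory Quaternion Complex
open scoped SchwartzMap FourierTransform ContDiff

theorem integral_fourier_smul (φ : 𝓢(ℝ, ℂ)) {g : ℝ → V} (hg : Integrable g) :
    ∫ x, (𝓕 φ : 𝓢(ℝ, ℂ)) x • g x = ∫ x, φ x • 𝓕 g x := by
  have := VectorFourier.integral_fourierIntegral_smul_eq_flip (L := innerₗ ℝ)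
    Real.continuous_fourierChar continuous_inner (φ.integrable (μ := volume)) hg
  rw [flip_innerₗ] at this
  exact this

theorem continuous_fourier_fun {g : ℝ → V} (hg : Integrable g) : Continuous (𝓕 g) :=
  VectorFourier.fourierIntegral_continuous Real.continuous_fourierChar continuous_inner hg

theorem continuous_fourierInv_fun {g : ℝ → V} (hg : Integrable g) : Continuous (𝓕⁻ g) := by
  rw [Real.fourierInv_eq_fourier_comp_neg]
  exact continuous_fourier_fun hg.comp_neg

theorem ae_eq_of_test {a b : ℝ → V} (ha : LocallyIntegrable a) (hb : LocallyIntegrable b)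
    (h : ∀ ψ : 𝓢(ℝ, ℂ), ∫ w, ψ w • a w = ∫ w, ψ w • b w) : ∀ᵐ w, a w = b w := by
  refine ae_eq_of_integral_contDiff_smul_eq ha hb fun g g_smooth g_cpt => ?_
  have hg₁ : HasCompactSupport (Complex.ofRealCLM ∘ g) := g_cpt.comp_left rfl
  have hg₂ : ContDiff ℝ ∞ (Complex.ofRealCLM ∘ g) := by fun_prop
  have e : ∀ (w : ℝ) (v : V), g w • v = (hg₁.toSchwartzMap hg₂) w • v := fun w v =>
    (Complex.coe_smul (g w) _).symm
  simp only [e]
  exact h _

theorem symb_pos (r w : ℝ) : 0 < symb r w := by unfold symb; positivity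

theorem continuous_symb (r : ℝ) : Continuous (symb r) := by
  unfold symb
  exact Continuous.rpow_const (by fun_prop) fun w => Or.inl (by positivity)

theorem temperate_symb (r : ℝ) : (fun w : ℝ => (symb r w : ℂ)).HasTemperateGrowth := by
  have h1 : (fun w : ℝ => 2 * Real.pi * w).HasTemperateGrowth := by fun_prop
  have h2 := Function.Complex.hasTemperateGrowth_ofReal.comp
    ((Function.hasTemperateGrowth_one_add_norm_sq_rpow ℝ (r / 2)).comp h1)
  simpa only [Function.comp_def, Real.norm_eq_abs, sq_abs, symb] using h2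

theorem mult_apply (r : ℝ) (f : Lp V 2 (volume : Measure ℝ)) (φ : 𝓢(ℝ, ℂ)) :
    TemperedDistribution.fourierMultiplierCLM V (fun w : ℝ => (symb r w : ℂ))
      (f : 𝓢'(ℝ, V)) φ =
    ∫ w, (𝓕⁻ φ : 𝓢(ℝ, ℂ)) w • (symb r w • (𝓕 f : Lp V 2 (volume : Measure ℝ)) w) := by
  rw [TemperedDistribution.fourierMultiplierCLM_apply_apply, dist_apply,
    FourierTransform.fourierInv_fourier_eq, pr]
  refine integral_congr_ae (Eventually.of_forall fun w => ?_)
  simp only [SchwartzMap.smulLeftCLM_apply_apply (temperate_symb r), smul_eq_mul]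
  rw [mul_comm, mul_smul, Complex.coe_smul]

theorem mult_iff (r : ℝ) (f : Lp V 2 (volume : Measure ℝ)) (g : Lp V 1 (volume : Measure ℝ)) :
    TemperedDistribution.fourierMultiplierCLM V (fun w : ℝ => (symb r w : ℂ))
      (f : 𝓢'(ℝ, V)) = (g : 𝓢'(ℝ, V)) ↔
    ∀ᵐ w, symb r w • (𝓕 f : Lp V 2 (volume : Measure ℝ)) w = 𝓕 (g : ℝ → V) w := by
  have hg := L1.integrable_coeFn g
  constructor
  · intro h
    refine ae_eq_of_test ?_ (continuous_fourier_fun hg).locallyIntegrable fun ψ => ?_
    · exact ((Lp.memLp _).locallyIntegrable (by norm_num)).continuous_smul (continuous_symb r)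
    · have := congrArg (fun T : 𝓢'(ℝ, V) => T (𝓕 ψ)) h
      simp only [mult_apply, FourierTransform.fourierInv_fourier_eq,
        Lp.toTemperedDistribution_apply] at this
      rw [this, integral_fourier_smul ψ hg]
  · intro h
    ext1 φ
    rw [mult_apply, Lp.toTemperedDistribution_apply]
    have := integral_fourier_smul (𝓕⁻ φ) hg
    rw [FourierTransform.fourier_fourierInv_eq] at this
    rw [this]
    refine integral_congr_ae ?_
    filter_upwards [h] with w hw
    rw [hw]

theorem fourierInv_toLp_ae {u : ℝ → V} (h1 : Integrable u) (h2 : MemLp u 2 volume) :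
    ∀ᵐ x, (𝓕⁻ (h2.toLp u) : Lp V 2 (volume : Measure ℝ)) x = 𝓕⁻ u x := by
  refine ae_eq_of_test ((Lp.memLp _).locallyIntegrable (by norm_num))
    (continuous_fourierInv_fun h1).locallyIntegrable fun φ => ?_
  rw [← Lp.toTemperedDistribution_apply, dist_apply, FourierTransform.fourier_fourierInv_eq,
    pr_toLp, Real.fourierInv_eq_fourier_comp_neg, ← integral_fourier_smul φ h1.comp_neg,
    ← integral_neg_eq_self]
  refine integral_congr_ae (Eventually.of_forall fun w => ?_)
  simp only [SchwartzMap.fourierInv_coe, SchwartzMap.fourier_coe, Real.fourierInv_eq_fourier_neg,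
    neg_neg]

theorem norm_le_of_eLpNorm_top {h : ℝ → V} (hc : Continuous h) {a : ℝ → V} (ha : ∀ᵐ x, a x = h x)
    {B : ℝ} (hB : eLpNorm a ⊤ volume ≤ ENNReal.ofReal B) (x : ℝ) : ‖h x‖ ≤ max B 0 := by
  have h1 : ∀ᵐ x, ‖h x‖ ≤ max B 0 := by
    filter_upwards [ha, ae_le_eLpNormEssSup (f := a) (μ := volume)] with y e1 e2
    rw [eLpNorm_exponent_top] at hB
    have e3 := e2.trans hB
    rw [e1, ← ofReal_norm] at e3
    exact (ENNReal.ofReal_le_ofReal_iff'.1 e3).elim le_max_of_le_left le_max_of_le_right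
  have h2 : IsClosed {x | ‖h x‖ ≤ max B 0} := isClosed_le hc.norm continuous_const
  have h3 := (h2.ae_eq_univ_iff_eq (μ := volume)).1 (eventuallyEq_univ.2 h1)
  exact (eq_univ_iff_forall.1 h3) x

end Pool.Agent.Lib.MP_24bb3f_an
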