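import Mathlib
import Pool.Agent.Lib.MP_24bb3f_an.Mult

/-!
The decay estimate from the kernel bound.
-/

namespace Pool.Agent.Lib.MP_24bb3f_an

open Set Filter Topology MeasureTheory Quaternion Complex
open scoped SchwartzMap FourierTransform ContDiff

variable {m : ℝ} {c : ℕ → ℂ}

theorem integrable_wt {p : ℕ} (hp : 1 ≤ p) : Integrable (wt p) :=
  integrable_inv_one_add_sq.mono' (continuous_wt p).aestronglyMeasurable
    (Eventually.of_forall fun ξ => by
      rw [Real.norm_eq_abs, abs_of_pos (wt_pos p ξ)]; exact wt_le hp ξ)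

theorem kernel_vec {U : ℝ → ℍ} (hU : Continuous U) (hU1 : ∀ ξ, ‖U ξ‖ = 1) {p : ℕ} (hp : 1 ≤ p)
    {K : ℝ} (hK : ∀ x φ : ℝ, ‖∫ ξ, (wt p ξ * Real.cos (x * ξ + φ)) • U ξ‖ ≤ K) (z : ℝ) (v : V) :
    ‖∫ w : ℝ, cexp (((2 * Real.pi * (w * z) : ℝ) : ℂ) * I) •
      wt p (-(2 * Real.pi) * w) • act (U (-(2 * Real.pi) * w)) v‖ ≤ K * ‖v‖ := by
  have hint : ∀ φ : ℝ, Integrable fun ξ => (wt p ξ * Real.cos (z * ξ + φ)) • U ξ := by
    intro φ
    refine (integrable_wt hp).mono' ?_ (Eventually.of_forall fun ξ => ?_)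
    · exact (((continuous_wt p).mul (by fun_prop)).smul hU).aestronglyMeasurable
    · rw [norm_smul, hU1, mul_one, norm_mul, Real.norm_eq_abs, abs_of_pos (wt_pos p ξ)]
      exact mul_le_of_le_one_right (wt_pos p ξ).le (Real.abs_cos_le_one _)
  set H : ℝ → V := fun ξ => act.flip v ((wt p ξ * Real.cos (z * ξ + 0)) • U ξ) +
    I • act.flip v ((wt p ξ * Real.cos (z * ξ + Real.pi / 2)) • U ξ) with hH
  have h1 : ∀ w : ℝ, cexp (((2 * Real.pi * (w * z) : ℝ) : ℂ) * I) •
      wt p (-(2 * Real.pi) * w) • act (U (-(2 * Real.pi) * w)) v = H (-(2 * Real.pi) * w) := by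
    intro w
    simp only [hH, map_smul, ContinuousLinearMap.flip_apply]
    rw [add_zero, Real.cos_add_pi_div_two,
      show z * (-(2 * Real.pi) * w) = -(2 * Real.pi * (w * z)) by ring, Real.cos_neg, Real.sin_neg,
      neg_neg, exp_mul_I, ← ofReal_cos, ← ofReal_sin]
    simp only [← Complex.coe_smul, smul_smul, ← add_smul]
    congr 1
    push_cast
    ring
  simp only [h1]
  have hint2 : Integrable fun ξ =>
      I • act.flip v ((wt p ξ * Real.cos (z * ξ + Real.pi / 2)) • U ξ) :=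
    ((act.flip v).integrable_comp (hint _)).smul I
  rw [Measure.integral_comp_mul_left H]
  simp only [hH]
  rw [integral_add ((act.flip v).integrable_comp (hint _)) hint2, integral_smul,
    (act.flip v).integral_comp_comm (hint _), (act.flip v).integral_comp_comm (hint _)]
  simp only [ContinuousLinearMap.flip_apply]
  have hK0 : 0 ≤ K := (norm_nonneg _).trans (hK 0 0)
  have h2 : |(-(2 * Real.pi))⁻¹| ≤ 1 / 2 := by
    rw [abs_inv, abs_neg, abs_of_pos (by positivity), inv_eq_one_div]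
    exact one_div_le_one_div_of_le two_pos (by linarith [Real.pi_gt_three])
  rw [norm_smul, Real.norm_eq_abs, abs_abs]
  refine (mul_le_mul h2 (norm_add_le _ _) (norm_nonneg _) (by norm_num)).trans ?_
  rw [norm_smul, norm_I, one_mul, norm_act, norm_act]
  have e1 := mul_le_mul_of_nonneg_right (hK z 0) (norm_nonneg v)
  have e2 := mul_le_mul_of_nonneg_right (hK z (Real.pi / 2)) (norm_nonneg v)
  linarith

theorem norm_fourier_le {g : ℝ → V} (w : ℝ) : ‖𝓕 g w‖ ≤ ∫ y, ‖g y‖ :=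
  VectorFourier.norm_fourierIntegral_le_integral_norm _ _ _ _ _

theorem fourierInv_bound {U : ℝ → ℍ} (hU : Continuous U) (hU1 : ∀ ξ, ‖U ξ‖ = 1) {p : ℕ}
    (hp : 1 ≤ p) {K : ℝ} (hK : ∀ x φ : ℝ, ‖∫ ξ, (wt p ξ * Real.cos (x * ξ + φ)) • U ξ‖ ≤ K)
    {g : ℝ → V} (hg : Integrable g) (x : ℝ) :
    ‖𝓕⁻ (fun w : ℝ => wt p (-(2 * Real.pi) * w) • act (U (-(2 * Real.pi) * w)) (𝓕 g w)) x‖ ≤
      K * ∫ y, ‖g y‖ := by
  set G : ℝ → ℝ → V := fun w y => cexp (((2 * Real.pi * (w * (x - y)) : ℝ) : ℂ) * I) •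
      wt p (-(2 * Real.pi) * w) • act (U (-(2 * Real.pi) * w)) (g y) with hG
  have hw : Integrable fun w : ℝ => wt p (-(2 * Real.pi) * w) :=
    (integrable_wt hp).comp_mul_left' (neg_ne_zero.2 (by positivity))
  have h1 : Integrable (Function.uncurry G) (volume.prod volume) := by
    refine (hw.mul_prod hg.norm).mono' ?_ (Eventually.of_forall fun q => ?_)
    · have e1 : Continuous fun q : ℝ × ℝ => cexp (((2 * Real.pi * (q.1 * (x - q.2)) : ℝ) : ℂ) * I) := by
        fun_prop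
      have e2 : Continuous fun q : ℝ × ℝ => wt p (-(2 * Real.pi) * q.1) :=
        (continuous_wt p).comp (by fun_prop)
      have e3 : Continuous fun q : ℝ × ℝ => U (-(2 * Real.pi) * q.1) := hU.comp (by fun_prop)
      exact e1.aestronglyMeasurable.smul (e2.aestronglyMeasurable.smul
        (act.aestronglyMeasurable_comp₂ e3.aestronglyMeasurable hg.1.comp_snd))
    · simp only [Function.uncurry, hG, norm_smul, norm_act, hU1, norm_exp_ofReal_mul_I, one_mul,
        Real.norm_eq_abs, abs_of_pos (wt_pos p _), le_refl]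
  have h2 : ∀ w : ℝ, cexp (((2 * Real.pi * inner ℝ w x : ℝ) : ℂ) * I) •
      wt p (-(2 * Real.pi) * w) • act (U (-(2 * Real.pi) * w)) (𝓕 g w) = ∫ y, G w y := by
    intro w
    have e1 : Integrable fun y : ℝ => cexp (((-2 * Real.pi * y * w : ℝ) : ℂ) * I) • g y := by
      refine hg.norm.mono' ?_ (Eventually.of_forall fun y => ?_)
      · exact (by fun_prop : Continuous fun y : ℝ =>
          cexp (((-2 * Real.pi * y * w : ℝ) : ℂ) * I)).aestronglyMeasurable.smul hg.1
      · rw [norm_smul, norm_exp_ofReal_mul_I, one_mul]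
    rw [Real.fourier_real_eq_integral_exp_smul, ← ContinuousLinearMap.integral_comp_comm _ e1,
      ← integral_smul, ← integral_smul]
    refine integral_congr_ae (Eventually.of_forall fun y => ?_)
    simp only [hG]
    rw [act_smul, smul_comm (wt p _), smul_smul, ← Complex.exp_add]
    congr 2
    simp only [Real.inner_apply]
    push_cast
    ring
  rw [Real.fourierInv_eq']
  simp only [h2]
  rw [integral_integral_swap h1, ← integral_const_mul]
  exact norm_integral_le_of_norm_le (hg.norm.const_mul K)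
    (Eventually.of_forall fun y => kernel_vec hU hU1 hp hK (x - y) (g y))

theorem symb_two_mul (p : ℕ) (w : ℝ) : wt p (-(2 * Real.pi) * w) * symb (2 * p) w = 1 := by
  rw [wt, symb, mul_div_cancel_left₀ _ two_ne_zero, Real.rpow_natCast, neg_mul, neg_sq]
  exact inv_mul_cancel₀ (by positivity)

theorem decay_pos (hm : 0 < m) (hc : ∀ j, ‖c j‖ = 1) {ν : ℝ → Matrix (Fin 2) (Fin 2) ℂ}
    (hν : ∀ s, 0 ≤ s → ν s = nuM m (c ⌊s⌋₊)) {B : ℝ}
    (hmeas : StronglyMeasurable fun s => op (ν s)) (hB : ∀ s, ‖op (ν s)‖ ≤ B) {p : ℕ} (hp : 1 ≤ p)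
    {C σ : ℝ} (hker : ∀ t : ℝ, 0 < t → ∀ x φ : ℝ,
      ‖∫ ξ, (wt p ξ * Real.cos (x * ξ + φ)) • flow m c t ξ‖ ≤ C / t ^ σ) :
    Decay ν (2 * p) σ := by
  refine ⟨C, fun α hα g hg t ht => ?_⟩
  rw [solution_unique hmeas hB hα (isSolution_sol hm hc hν (α 0)) (sol_zero hm hc _).symm ht.le]
  have hgi := L1.integrable_coeFn g
  have h1 : uu m c (𝓕 (α 0) : Lp V 2 (volume : Measure ℝ)) t =ᵐ[volume] fun w : ℝ =>
      wt p (-(2 * Real.pi) * w) • act (flow m c t (-(2 * Real.pi) * w)) (𝓕 (g : ℝ → V) w) := by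
    filter_upwards [(mult_iff _ _ _).1 hg] with w hw
    rw [← hw, map_smul, smul_smul, symb_two_mul, one_smul, uu]
  have h2 : Integrable (uu m c (𝓕 (α 0) : Lp V 2 (volume : Measure ℝ)) t) := by
    have hw : Integrable fun w : ℝ => wt p (-(2 * Real.pi) * w) :=
      (integrable_wt hp).comp_mul_left' (neg_ne_zero.2 (by positivity))
    refine (hw.mul_const (∫ y, ‖g y‖)).mono' (meas_uu hm (Lp.aestronglyMeasurable _) t) ?_
    filter_upwards [h1] with w e
    rw [e, norm_smul, norm_act, norm_flow hm hc, one_mul, Real.norm_eq_abs,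
      abs_of_pos (wt_pos p _)]
    exact mul_le_mul_of_nonneg_left (norm_fourier_le w) (wt_pos p _).le
  rw [eLpNorm_exponent_top]
  refine eLpNormEssSup_le_of_ae_bound ?_
  filter_upwards [fourierInv_toLp_ae h2 (memLp_uu hm hc (Lp.memLp _) t)] with x hx
  rw [sol, hx, Real.fourierInv_congr_ae h1, L1.norm_eq_integral_norm]
  exact fourierInv_bound (continuous_flow hm c t) (norm_flow hm hc t) hp (hker t ht) hgi x

end Pool.Agent.Lib.MP_24bb3f_an
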