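import Mathlib
import Pool.Agent.Lib.MP_24bb3f_an.Positive

/-!
The upper bound for the decay exponent, by testing on data concentrated at low frequency.
-/

namespace Pool.Agent.Lib.MP_24bb3f_an

open Set Filter Topology MeasureTheory Quaternion Complex
open scoped SchwartzMap FourierTransform ContDiff

variable {m : ℝ} {c : ℕ → ℂ}

theorem exists_test : ∃ (φ : ℝ → ℝ) (e : V) (g : ℝ → V), Continuous φ ∧ (∀ w, 0 ≤ φ w) ∧
    (∀ w, 1 ≤ |w| → φ w = 0) ∧ 0 < ∫ w, φ w ∧ ‖e‖ = 1 ∧ Integrable g ∧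
    ∀ w, 𝓕 g w = φ w • e := by
  let b : ContDiffBump (0 : ℝ) := ⟨1 / 2, 1, by norm_num, by norm_num⟩
  let e : V := EuclideanSpace.single 0 1
  have h1 : HasCompactSupport fun w => b w • e := b.hasCompactSupport.smul_right
  have h2 : ContDiff ℝ ∞ fun w => b w • e := b.contDiff.smul contDiff_const
  refine ⟨b, e, (𝓕⁻ (h1.toSchwartzMap h2) : 𝓢(ℝ, V)), b.continuous, fun w => b.nonneg,
    fun w hw => b.zero_of_le_dist (by simpa [b] using hw), b.integral_pos, by simp [e],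
    SchwartzMap.integrable _, fun w => ?_⟩
  rw [← SchwartzMap.fourier_coe, FourierTransform.fourier_fourierInv_eq]
  rfl

theorem fourier_scale (g : ℝ → V) {l : ℝ} (hl : 0 < l) (w : ℝ) :
    𝓕 (fun x => l • g (l * x)) w = 𝓕 g (w / l) := by
  rw [Real.fourier_real_eq_integral_exp_smul, Real.fourier_real_eq_integral_exp_smul]
  have := Measure.integral_comp_mul_left
    (fun y : ℝ => cexp (((-2 * Real.pi * y * (w / l) : ℝ) : ℂ) * I) • l • g y) l
  have e : ∀ v : ℝ, -2 * Real.pi * (l * v) * (w / l) = -2 * Real.pi * v * w := fun v => by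
    field_simp
  simp only [e] at this
  rw [this, abs_of_pos (inv_pos.2 hl), ← integral_smul]
  refine integral_congr_ae (Eventually.of_forall fun y => ?_)
  simp only
  rw [smul_comm l⁻¹, smul_smul l⁻¹, inv_mul_cancel₀ hl.ne', one_smul]

theorem norm_scale (g : ℝ → V) {l : ℝ} (hl : 0 < l) :
    ∫ x, ‖l • g (l * x)‖ = ∫ x, ‖g x‖ := by
  rw [Measure.integral_comp_mul_left (fun y : ℝ => ‖l • g y‖) l, abs_of_pos (inv_pos.2 hl),
    ← integral_smul]
  refine integral_congr_ae (Eventually.of_forall fun y => ?_)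
  simp only
  rw [norm_smul, Real.norm_eq_abs, abs_of_pos hl, smul_eq_mul, ← mul_assoc, inv_mul_cancel₀ hl.ne',
    one_mul]

theorem test_bound (hm : 0 < m) (hc : ∀ j, ‖c j‖ = 1) {ν : ℝ → Matrix (Fin 2) (Fin 2) ℂ}
    (hν : ∀ s, 0 ≤ s → ν s = nuM m (c ⌊s⌋₊)) {r σ : ℝ} (hr : 0 ≤ r) (hD : Decay ν r σ) :
    ∃ D : ℝ, ∀ l : ℝ, 0 < l → l ≤ 1 → ∀ t : ℝ, 0 < t →
      (∀ ξ, |ξ| ≤ 2 * Real.pi * l → ‖flow m c t ξ - 1‖ ≤ 1 / 2) → l ≤ D / t ^ σ := by
  obtain ⟨φ, e, g, hφc, hφ0, hφs, hφi, he, hg, hFg⟩ := exists_test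
  obtain ⟨c₀, hD⟩ := hD
  set J := ∫ w, φ w with hJ
  have hs := symb_pos r 1
  refine ⟨2 * symb r 1 / J * (|c₀| * ∫ x, ‖g x‖), fun l hl hl1 t ht hflow => ?_⟩
  set a : ℝ → ℝ := fun w => (symb r w)⁻¹ * φ (w / l) with ha
  have hφl : ∀ w, l ≤ |w| → φ (w / l) = 0 := fun w hw =>
    hφs _ (by rw [abs_div, abs_of_pos hl, one_le_div hl]; exact hw)
  have hsupp : ∀ {h : ℝ → ℝ}, (∀ w, l ≤ |w| → h w = 0) → HasCompactSupport h := fun hh =>
    HasCompactSupport.intro (isCompact_closedBall (0 : ℝ) l) fun w hw =>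
      hh w (by rw [mem_closedBall_zero_iff, Real.norm_eq_abs] at hw; exact (not_le.1 hw).le)
  have hac : Continuous a :=
    ((continuous_symb r).inv₀ fun w => (symb_pos r w).ne').mul (hφc.comp (by fun_prop))
  have has : HasCompactSupport a := hsupp fun w hw => by simp only [ha, hφl w hw, mul_zero]
  have ha0 : ∀ w, 0 ≤ a w := fun w => mul_nonneg (inv_pos.2 (symb_pos r w)).le (hφ0 _)
  have hai : Integrable a := hac.integrable_of_hasCompactSupport has
  have hFc : Continuous fun w => a w • e := hac.smul continuous_const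
  have hF2 : MemLp (fun w => a w • e) 2 volume := hFc.memLp_of_hasCompactSupport has.smul_right
  have hF1 : Integrable fun w => a w • e := hai.smul_const e
  have hgl : Integrable fun x => l • g (l * x) := (hg.comp_mul_left' hl.ne').smul l
  set f : Lp V 2 (volume : Measure ℝ) := 𝓕⁻ (hF2.toLp _) with hf
  have hFf : ((𝓕 f : Lp V 2 (volume : Measure ℝ)) : ℝ → V) =ᵐ[volume] fun w => a w • e := by
    rw [hf, FourierTransform.fourier_fourierInv_eq]
    exact hF2.coeFn_toLp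
  have h1 := hD _ (isSolution_sol hm hc hν f) (hgl.toL1 _) (by
    rw [sol_zero, mult_iff]
    filter_upwards [hFf] with w hw
    rw [hw, Real.fourier_congr_ae hgl.coeFn_toL1, fourier_scale g hl, hFg, smul_smul, ha]
    simp only
    rw [← mul_assoc, mul_inv_cancel₀ (symb_pos r w).ne', one_mul]) t ht
  rw [L1.norm_of_fun_eq_integral_norm, norm_scale g hl] at h1
  have h2 : uu m c (𝓕 f : Lp V 2 (volume : Measure ℝ)) t =ᵐ[volume]
      uu m c (fun w => a w • e) t := by
    filter_upwards [hFf] with w hw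
    rw [uu, uu, hw]
  have h3 : Integrable (uu m c (fun w => a w • e) t) :=
    hF1.norm.mono' (meas_uu hm hF2.1 t) (Eventually.of_forall fun w => (norm_uu hm hc _ t w).le)
  have h4 := norm_le_of_eLpNorm_top (continuous_fourierInv_fun h3) (a := sol hm hc f t) (by
    filter_upwards [fourierInv_toLp_ae (h3.congr h2.symm) (memLp_uu hm hc (Lp.memLp _) t)] with x hx
    rw [sol, hx, Real.fourierInv_congr_ae h2]) h1 0
  have h5 : 𝓕⁻ (uu m c (fun w => a w • e) t) 0 = ∫ w, uu m c (fun w => a w • e) t w := by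
    simp [Real.fourierInv_eq]
  rw [h5] at h4
  have h6 : ‖∫ w, a w • e‖ = ∫ w, a w := by
    rw [integral_smul_const, norm_smul, he, mul_one, Real.norm_eq_abs,
      abs_of_nonneg (integral_nonneg ha0)]
  have h7 : ‖(∫ w, uu m c (fun w => a w • e) t w) - ∫ w, a w • e‖ ≤ 1 / 2 * ∫ w, a w := by
    rw [← integral_sub h3 hF1, ← integral_const_mul]
    refine norm_integral_le_of_norm_le (hai.const_mul _) (Eventually.of_forall fun w => ?_)
    have e1 : uu m c (fun w => a w • e) t w - a w • e =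
        act (flow m c t (-(2 * Real.pi) * w) - 1) (a w • e) := by
      rw [map_sub, sub_apply, act_one, uu]
    rw [e1, norm_act, norm_smul, he, mul_one, Real.norm_eq_abs, abs_of_nonneg (ha0 w)]
    by_cases hw : l ≤ |w|
    · simp only [ha, hφl w hw, mul_zero, le_refl]
    · refine mul_le_mul_of_nonneg_right (hflow _ ?_) (ha0 w)
      rw [abs_mul, abs_neg, abs_of_pos (by positivity : 0 < 2 * Real.pi)]
      exact mul_le_mul_of_nonneg_left (not_le.1 hw).le (by positivity)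
  have h8 : (symb r 1)⁻¹ * (l * J) ≤ ∫ w, a w := by
    have e1 : ∫ w, φ (w / l) = l * J := by
      rw [Measure.integral_comp_div φ l, abs_of_pos hl, smul_eq_mul]
    rw [← e1, ← integral_const_mul]
    refine integral_mono (((hφc.comp (by fun_prop)).integrable_of_hasCompactSupport
      (hsupp hφl)).const_mul _) hai fun w => ?_
    by_cases hw : l ≤ |w|
    · simp only [ha, hφl w hw, mul_zero, le_refl]
    · refine mul_le_mul_of_nonneg_right (inv_anti₀ (symb_pos r w) ?_) (hφ0 _)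
      refine Real.rpow_le_rpow (by positivity) ?_ (by positivity)
      have e2 : w ^ 2 ≤ 1 := by
        rw [sq_le_one_iff_abs_le_one]; linarith [not_le.1 hw]
      rw [mul_pow, mul_one]
      nlinarith [sq_nonneg (2 * Real.pi)]
  have h9 := norm_sub_norm_le (∫ w, a w • e) (∫ w, uu m c (fun w => a w • e) t w)
  rw [norm_sub_rev, h6] at h9
  have htσ : 0 < t ^ σ := Real.rpow_pos_of_pos ht σ
  have hG : 0 ≤ ∫ x, ‖g x‖ := integral_nonneg fun x => norm_nonneg _
  have h10 : max (c₀ / t ^ σ * ∫ x, ‖g x‖) 0 ≤ |c₀| * (∫ x, ‖g x‖) / t ^ σ := by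
    refine max_le ?_ (div_nonneg (mul_nonneg (abs_nonneg _) hG) htσ.le)
    rw [div_mul_eq_mul_div]
    exact div_le_div_of_nonneg_right (mul_le_mul_of_nonneg_right (le_abs_self _) hG) htσ.le
  have h11 : (symb r 1)⁻¹ * (l * J) ≤ 2 * (|c₀| * (∫ x, ‖g x‖) / t ^ σ) := by linarith
  calc l = symb r 1 / J * ((symb r 1)⁻¹ * (l * J)) := by field_simp
    _ ≤ symb r 1 / J * (2 * (|c₀| * (∫ x, ‖g x‖) / t ^ σ)) :=
        mul_le_mul_of_nonneg_left h11 (by positivity)
    _ = _ := by ring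

theorem decay_neg (hm : 0 < m) (hc : ∀ j, ‖c j‖ = 1) {ν : ℝ → Matrix (Fin 2) (Fin 2) ℂ}
    (hν : ∀ s, 0 ≤ s → ν s = nuM m (c ⌊s⌋₊)) {N k : ℕ} (hN : 0 < N) {C : ℝ} (hC : 0 < C)
    (hflow : ∀ (n : ℕ) (ξ : ℝ), ‖flow m c ((N * (4 * n) : ℕ) : ℝ) ξ - 1‖ ≤ C * n * |ξ| ^ (k + 2))
    {r σ : ℝ} (hr : 0 ≤ r) (hσ : 0 < σ) (hD : Decay ν r σ) : σ * (k + 2) ≤ 1 := by
  obtain ⟨D, hD⟩ := test_bound hm hc hν hr hD
  set δ := 1 / (2 * Real.pi * (2 * C + 1)) with hδ
  have hδ0 : 0 < δ := by positivity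
  have hδ1 : δ ≤ 1 := by
    rw [hδ, div_le_one (by positivity)]
    nlinarith [Real.pi_gt_three]
  have key : ∀ j : ℕ, 1 ≤ j → (j : ℝ) ^ (σ * (k + 2) - 1) ≤ |D| / δ := by
    intro j hj
    have hj1 : (1 : ℝ) ≤ j := by exact_mod_cast hj
    have hj0 : (0 : ℝ) < j := by linarith
    have hN1 : (1 : ℝ) ≤ N := by exact_mod_cast hN
    have h1 := hD (δ / j) (by positivity) ((div_le_self hδ0.le hj1).trans hδ1)
      ((N * (4 * j ^ (k + 2)) : ℕ) : ℝ) (by positivity) fun ξ hξ => by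
        refine (hflow _ ξ).trans ?_
        have e1 : |ξ| ^ (k + 2) ≤ (1 / (2 * C + 1) / j) ^ (k + 2) := by
          refine pow_le_pow_left₀ (abs_nonneg _) (hξ.trans (le_of_eq ?_)) _
          rw [hδ]; field_simp
        have e2 : (1 / (2 * C + 1)) ^ (k + 2) ≤ 1 / (2 * C + 1) :=
          pow_le_of_le_one (by positivity) (by rw [div_le_one (by positivity)]; linarith)
            (by omega)
        push_cast
        calc C * (j : ℝ) ^ (k + 2) * |ξ| ^ (k + 2)
            ≤ C * (j : ℝ) ^ (k + 2) * (1 / (2 * C + 1) / j) ^ (k + 2) :=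
              mul_le_mul_of_nonneg_left e1 (by positivity)
          _ = C * (1 / (2 * C + 1)) ^ (k + 2) := by rw [div_pow _ (j : ℝ)]; field_simp
          _ ≤ C * (1 / (2 * C + 1)) := mul_le_mul_of_nonneg_left e2 hC.le
          _ ≤ 1 / 2 := by rw [mul_one_div, div_le_div_iff₀ (by positivity) two_pos]; linarith
    have h2 : (j : ℝ) ^ (σ * (k + 2)) ≤ ((N * (4 * j ^ (k + 2)) : ℕ) : ℝ) ^ σ := by
      rw [mul_comm σ, Real.rpow_mul hj0.le]
      refine Real.rpow_le_rpow (by positivity) ?_ hσ.le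
      rw [show ((k : ℝ) + 2) = ((k + 2 : ℕ) : ℝ) by push_cast; ring, Real.rpow_natCast]
      push_cast
      have : (0 : ℝ) < (j : ℝ) ^ (k + 2) := by positivity
      nlinarith
    have h3 : δ / j ≤ |D| / (j : ℝ) ^ (σ * (k + 2)) :=
      h1.trans (div_le_div₀ (abs_nonneg D) (le_abs_self D) (by positivity) h2)
    rw [Real.rpow_sub_one hj0.ne', div_le_div_iff₀ hj0 hδ0]
    rw [div_le_div_iff₀ hj0 (by positivity)] at h3
    linarith
  by_contra hcon
  have h4 := (tendsto_rpow_atTop (sub_pos.2 (not_le.1 hcon))).comp tendsto_natCast_atTop_atTop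
  obtain ⟨j, hj1, hj2⟩ := ((h4.eventually_gt_atTop (|D| / δ)).and (eventually_ge_atTop 1)).exists
  exact absurd (key j hj2) (not_le.2 hj1)

end Pool.Agent.Lib.MP_24bb3f_an
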