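import Mathlib
import Pool.Agent.Lib.MP_24bb3f_an.Negative

/-!
Assembly of the theorem.
-/

namespace Pool.Agent.Lib.MP_24bb3f_an

open Set Filter Topology MeasureTheory Quaternion Complex
open scoped SchwartzMap FourierTransform ContDiff

theorem norm_op_nuM {m : ℝ} (hm : 0 < m) {c : ℂ} (hc : ‖c‖ = 1) : ‖op (nuM m c)‖ ≤ m := by
  refine ContinuousLinearMap.opNorm_le_bound _ hm.le fun v => ?_
  have h := act_Xq m c 0 v
  rw [ofReal_zero, zero_smul, map_zero, zero_add] at h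
  rw [← h, norm_smul, norm_I, one_mul, norm_act]
  have := norm_Xq_le hm hc 0
  rw [abs_zero, zero_add] at this
  exact mul_le_mul_of_nonneg_right this (norm_nonneg _)

theorem main (ε : ℝ) (hε : 0 < ε) :
    ∃ (ν : ℝ → Matrix (Fin 2) (Fin 2) ℂ) (T : ℝ), 0 < T ∧ Function.Periodic ν T ∧
      (∀ i j, Measurable fun t => ν t i j) ∧ (∃ B : ℝ, ∀ t i j, ‖ν t i j‖ ≤ B) ∧
      (∀ t, (ν t).IsHermitian) ∧
      (∀ f, ∃ α, IsSolution ν α ∧ α 0 = f ∧
        ∀ β, IsSolution ν β → β 0 = f → ∀ t, 0 ≤ t → β t = α t) ∧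
      (∃ r σ : ℝ, 0 ≤ r ∧ 0 < σ ∧ Decay ν r σ) ∧
      ∀ r σ : ℝ, 0 ≤ r → 0 < σ → Decay ν r σ → σ ≤ ε := by
  obtain ⟨k, hk⟩ := exists_nat_one_div_lt hε
  obtain ⟨N, c, hN, hc, hper, ⟨p, C, σ, hp, -, hσ, hker⟩, C', hC', hflow⟩ := flow_main k
  have hm : 0 < Real.pi / 2 := by positivity
  let ν : ℝ → Matrix (Fin 2) (Fin 2) ℂ := fun t => nuM (Real.pi / 2) (c (⌊t⌋ % N).toNat)
  have hmod : ∀ q a : ℕ, c (N * q + a) = c a := by
    intro q a
    induction q with
    | zero => simp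
    | succ q ih => rw [show N * (q + 1) + a = N + (N * q + a) by ring, hper, ih]
  have hν : ∀ s, 0 ≤ s → ν s = nuM (Real.pi / 2) (c ⌊s⌋₊) := by
    intro s hs
    simp only [ν]
    rw [← Int.natCast_floor_eq_floor hs, ← Int.natCast_mod, Int.toNat_natCast]
    conv_rhs => rw [← Nat.div_add_mod ⌊s⌋₊ N, hmod]
  have hmeas : StronglyMeasurable fun s => op (ν s) :=
    (continuous_of_discreteTopology
      (f := fun z : ℤ => op (nuM (Real.pi / 2) (c (z % N).toNat)))).comp_stronglyMeasurable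
      Int.measurable_floor.stronglyMeasurable
  have hB : ∀ s, ‖op (ν s)‖ ≤ Real.pi / 2 := fun s => norm_op_nuM hm (hc _)
  refine ⟨ν, N, by exact_mod_cast hN, fun t => ?_, fun i j => ?_, ⟨Real.pi / 2, fun t i j => ?_⟩,
    fun t => nuM_isHermitian _ _, fun f => ⟨sol hm hc f, isSolution_sol hm hc hν f, sol_zero hm hc f,
      fun β hβ h0 t ht => solution_unique hmeas hB hβ (isSolution_sol hm hc hν f)
        (h0.trans (sol_zero hm hc f).symm) ht⟩,
    ⟨2 * p, σ, by positivity, hσ, decay_pos hm hc hν hmeas hB hp hker⟩, fun r τ hr hτ hD => ?_⟩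
  · simp only [ν, Int.floor_add_natCast, Int.add_emod_right]
  · exact (measurable_of_countable
      fun z : ℤ => nuM (Real.pi / 2) (c (z % N).toNat) i j).comp Int.measurable_floor
  · fin_cases i <;> fin_cases j <;> simp [ν, nuM, hc, abs_of_pos Real.pi_pos, hm.le]
  · have h1 := decay_neg hm hc hν hN hC' hflow hr hτ hD
    rw [div_lt_iff₀ (by positivity)] at hk
    by_contra hcon
    have h2 : ε * (k + 2) < τ * (k + 2) := mul_lt_mul_of_pos_right (not_le.1 hcon) (by positivity)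
    nlinarith

end Pool.Agent.Lib.MP_24bb3f_an
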