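import Mathlib
import Pool.Agent.Lib.MP_24bb3f_an.Main

/-!
Translation to componentwise statements about plain functions.
-/

namespace Pool.Agent.Lib.MP_24bb3f_an

open Set Filter Topology MeasureTheory Complex
open scoped SchwartzMap FourierTransform

/-- Weak solutions, componentwise. -/
def PSol (ν : ℝ → Matrix (Fin 2) (Fin 2) ℂ) (α : ℝ → Fin 2 → ℝ → ℂ) : Prop :=
  (∀ t, 0 ≤ t → ∀ i, MemLp (α t i) 2 volume) ∧
  (∀ s, 0 ≤ s → ∀ i, Tendsto (fun t => eLpNorm (fun x => α t i x - α s i x) 2 volume)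
    (𝓝[Set.Ici 0] s) (𝓝 0)) ∧
  ∀ (φ : SchwartzMap ℝ ℂ) (t : ℝ), 0 ≤ t → ∀ i,
    Complex.I * ((∫ x, φ x * α t i x) - ∫ x, φ x * α 0 i x) =
      ∫ s in (0 : ℝ)..t, ∑ j,
        (!![1, 0; 0, -1] i j * (Complex.I * -∫ x, deriv φ x * α s j x) +
          ν s i j * ∫ x, φ x * α s j x)

/-- Decay estimate, componentwise. -/
def PDecay (ν : ℝ → Matrix (Fin 2) (Fin 2) ℂ) (r σ : ℝ) : Prop :=
  ∃ c : ℝ, ∀ α, PSol ν α → ∀ g : Fin 2 → ℝ → ℂ, (∀ i, Integrable (g i) volume) →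
    (∀ (i : Fin 2) (φ : SchwartzMap ℝ ℂ), ∫ x, 𝓕 (fun w => φ w) x * g i x =
      ∫ x, 𝓕 (fun w : ℝ => (((1 + (2 * Real.pi * w) ^ 2) ^ (r / 2) : ℝ) : ℂ) * φ w) x * α 0 i x) →
    ∀ t : ℝ, 0 < t → ∀ i,
      eLpNorm (α t i) ⊤ volume ≤ ENNReal.ofReal (c / t ^ σ * ∑ j, ∫ x, ‖g j x‖)

theorem norm_le_add (v : V) : ‖v‖ ≤ ‖v 0‖ + ‖v 1‖ := by
  refine (abs_le_of_sq_le_sq' ?_ (by positivity)).2
  rw [EuclideanSpace.norm_sq_eq, Fin.sum_univ_two]
  nlinarith [mul_nonneg (norm_nonneg (v 0)) (norm_nonneg (v 1))]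

theorem eLpNorm_comp_le (h : ℝ → V) (p : ENNReal) (i : Fin 2) :
    eLpNorm (fun x => h x i) p volume ≤ eLpNorm h p volume :=
  eLpNorm_mono fun x => PiLp.norm_apply_le (h x) i

theorem eLpNorm_le_add {h : ℝ → V} (hm : AEStronglyMeasurable h volume) {p : ENNReal}
    (hp : 1 ≤ p) :
    eLpNorm h p volume ≤ eLpNorm (fun x => h x 0) p volume + eLpNorm (fun x => h x 1) p volume := by
  have e : ∀ i : Fin 2, AEStronglyMeasurable (fun x => ‖h x i‖) volume := fun i =>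
    ((EuclideanSpace.proj i : V →L[ℂ] ℂ).continuous.comp_aestronglyMeasurable hm).norm
  rw [← eLpNorm_norm (fun x => h x 0), ← eLpNorm_norm (fun x => h x 1)]
  exact (eLpNorm_mono_real fun x => norm_le_add (h x)).trans (eLpNorm_add_le (e 0) (e 1) hp)

theorem integral_comp {h : ℝ → V} {ψ : ℝ → ℂ} (hi : Integrable fun x => ψ x • h x) (i : Fin 2) :
    (∫ x, ψ x • h x) i = ∫ x, ψ x * h x i :=
  eval_integral_piLp (fun i => hi.eval_piLp i) i

theorem dist_comp (f : Lp V 2 (volume : Measure ℝ)) (φ : 𝓢(ℝ, ℂ)) (i : Fin 2) :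
    (f : 𝓢'(ℝ, V)) φ i = ∫ x, φ x * f x i := by
  rw [Lp.toTemperedDistribution_apply, integral_comp (integrable_pr φ (Lp.memLp f))]

theorem deriv_comp (f : Lp V 2 (volume : Measure ℝ)) (φ : 𝓢(ℝ, ℂ)) (i : Fin 2) :
    TemperedDistribution.derivCLM V (f : 𝓢'(ℝ, V)) φ i = -∫ x, deriv φ x * f x i := by
  rw [TemperedDistribution.derivCLM_apply_apply, dist_comp, ← integral_neg]
  simp

theorem op_comp (A : Matrix (Fin 2) (Fin 2) ℂ) (v : V) (i : Fin 2) :
    op A v i = ∑ j, A i j * v j := rfl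

theorem psol_iff {ν : ℝ → Matrix (Fin 2) (Fin 2) ℂ} {B : ℝ}
    (hmeas : StronglyMeasurable fun s => op (ν s)) (hB : ∀ s, ‖op (ν s)‖ ≤ B)
    (A : ℝ → Lp V 2 (volume : Measure ℝ)) :
    IsSolution ν A ↔ PSol ν fun t i x => A t x i := by
  have hc : ContinuousOn A (Ici 0) ↔ ∀ s, 0 ≤ s → ∀ i, Tendsto
      (fun t => eLpNorm (fun x => A t x i - A s x i) 2 volume) (𝓝[Set.Ici 0] s) (𝓝 0) := by
    refine forall₂_congr fun s _ => ?_
    rw [ContinuousWithinAt, Lp.tendsto_Lp_iff_tendsto_eLpNorm']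
    constructor
    · intro h i
      exact tendsto_of_tendsto_of_tendsto_of_le_of_le tendsto_const_nhds h (fun _ => zero_le)
        fun t => eLpNorm_comp_le (⇑(A t) - ⇑(A s)) 2 i
    · intro h
      have := (h 0).add (h 1)
      rw [add_zero] at this
      exact tendsto_of_tendsto_of_tendsto_of_le_of_le tendsto_const_nhds this (fun _ => zero_le)
        fun t => eLpNorm_le_add ((Lp.aestronglyMeasurable _).sub (Lp.aestronglyMeasurable _))
          (by norm_num)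
  unfold IsSolution PSol
  rw [← hc, and_iff_right fun t _ i => (Lp.memLp (A t)).eval_piLp i]
  refine and_congr_right fun hA => forall₃_congr fun φ t ht => ?_
  have hi := intervalIntegrable_weak hmeas hB
    (FourierTransform.continuous_fourier.comp_continuousOn hA) (𝓕⁻ φ) ht
  simp only [Function.comp_apply, ← deriv_apply, ← dist_apply] at hi
  rw [PiLp.ext_iff]
  refine forall_congr' fun i => ?_
  have e0 : ∀ v : V, (EuclideanSpace.proj i : V →L[ℂ] ℂ) v = v i := fun _ => rfl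
  have e := (EuclideanSpace.proj i : V →L[ℂ] ℂ).intervalIntegral_comp_comm hi
  simp only [e0] at e
  rw [← e]
  simp only [PiLp.smul_apply, PiLp.sub_apply, PiLp.add_apply, op_comp, dist_comp, deriv_comp,
    smul_eq_mul, Finset.sum_add_distrib]

theorem PSol.congr {ν : ℝ → Matrix (Fin 2) (Fin 2) ℂ} {α β : ℝ → Fin 2 → ℝ → ℂ} (h : PSol ν α)
    (e : ∀ t, 0 ≤ t → ∀ i, α t i =ᵐ[volume] β t i) : PSol ν β := by
  have e' : ∀ (ψ : ℝ → ℂ) (t : ℝ), 0 ≤ t → ∀ i, ∫ x, ψ x * α t i x = ∫ x, ψ x * β t i x :=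
    fun ψ t ht i => integral_congr_ae (by filter_upwards [e t ht i] with x hx; rw [hx])
  refine ⟨fun t ht i => (memLp_congr_ae (e t ht i)).1 (h.1 t ht i), fun s hs i => ?_,
    fun φ t ht i => ?_⟩
  · refine (h.2.1 s hs i).congr' ?_
    filter_upwards [self_mem_nhdsWithin] with t ht
    refine eLpNorm_congr_ae ?_
    filter_upwards [e t ht i, e s hs i] with x h1 h2
    rw [h1, h2]
  · rw [← e' _ t ht, ← e' _ 0 le_rfl, h.2.2 φ t ht i]
    refine intervalIntegral.integral_congr fun s hs => ?_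
    rw [uIcc_of_le ht] at hs
    simp only [e' _ s hs.1]

/-- A pair of functions as a vector valued function. -/
def vec (a : Fin 2 → ℝ → ℂ) (x : ℝ) : V := WithLp.toLp 2 fun i => a i x

theorem memLp_vec {a : Fin 2 → ℝ → ℂ} {p : ENNReal} (h : ∀ i, MemLp (a i) p volume) :
    MemLp (vec a) p volume :=
  MemLp.of_eval_piLp h

theorem toLp_vec {a : Fin 2 → ℝ → ℂ} {p : ENNReal} (h : ∀ i, MemLp (a i) p volume) (i : Fin 2) :
    (fun x => (memLp_vec h).toLp _ x i) =ᵐ[volume] a i := by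
  filter_upwards [(memLp_vec h).coeFn_toLp] with x hx
  rw [hx]
  rfl

theorem PSol.lift {ν : ℝ → Matrix (Fin 2) (Fin 2) ℂ} {B : ℝ}
    (hmeas : StronglyMeasurable fun s => op (ν s)) (hB : ∀ s, ‖op (ν s)‖ ≤ B)
    {α : ℝ → Fin 2 → ℝ → ℂ} (h : PSol ν α) : ∃ A, IsSolution ν A ∧
      ∀ t, 0 ≤ t → ∀ i, (fun x => A t x i) =ᵐ[volume] α t i := by
  have e : ∀ t, 0 ≤ t → ∀ i,
      (fun x => (memLp_vec (h.1 (max t 0) (le_max_right _ _))).toLp _ x i) =ᵐ[volume] α t i := by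
    intro t ht i
    have := toLp_vec (h.1 (max t 0) (le_max_right _ _)) i
    conv_rhs => rw [← max_eq_left ht]
    exact this
  exact ⟨fun t => (memLp_vec (h.1 (max t 0) (le_max_right _ _))).toLp _,
    (psol_iff hmeas hB _).2 (h.congr fun t ht i => (e t ht i).symm), e⟩

theorem Lp_ext {p : ENNReal} {f g : Lp V p (volume : Measure ℝ)}
    (h : ∀ i, (fun x => f x i) =ᵐ[volume] fun x => g x i) : f = g := by
  refine Lp.ext ?_
  filter_upwards [ae_all_iff.2 h] with x hx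
  exact PiLp.ext hx

theorem mult_comp_iff (r : ℝ) (f : Lp V 2 (volume : Measure ℝ))
    (g : Lp V 1 (volume : Measure ℝ)) :
    TemperedDistribution.fourierMultiplierCLM V (fun w : ℝ => (symb r w : ℂ))
      (f : 𝓢'(ℝ, V)) = (g : 𝓢'(ℝ, V)) ↔
    ∀ (i : Fin 2) (φ : SchwartzMap ℝ ℂ), ∫ x, 𝓕 (fun w => φ w) x * g x i =
      ∫ x, 𝓕 (fun w : ℝ => (symb r w : ℂ) * φ w) x * f x i := by
  have key : ∀ (φ : 𝓢(ℝ, ℂ)) (i : Fin 2),
      TemperedDistribution.fourierMultiplierCLM V (fun w : ℝ => (symb r w : ℂ))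
        (f : 𝓢'(ℝ, V)) (𝓕 φ) i = ∫ x, 𝓕 (fun w : ℝ => (symb r w : ℂ) * φ w) x * f x i := by
    intro φ i
    rw [TemperedDistribution.fourierMultiplierCLM_apply_apply, dist_comp,
      FourierTransform.fourierInv_fourier_eq, SchwartzMap.fourier_coe]
    have : ⇑(SchwartzMap.smulLeftCLM ℂ (fun w : ℝ => (symb r w : ℂ)) φ) =
        fun w : ℝ => (symb r w : ℂ) * φ w := funext fun w => by
      rw [SchwartzMap.smulLeftCLM_apply_apply (temperate_symb r), smul_eq_mul]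
    rw [this]
  have key2 : ∀ (φ : 𝓢(ℝ, ℂ)) (i : Fin 2),
      (g : 𝓢'(ℝ, V)) (𝓕 φ) i = ∫ x, 𝓕 (fun w => φ w) x * g x i := by
    intro φ i
    have hi : Integrable fun x => (𝓕 φ : 𝓢(ℝ, ℂ)) x • g x :=
      memLp_one_iff_integrable.1 ((Lp.memLp g).smul ((𝓕 φ : 𝓢(ℝ, ℂ)).memLp ⊤ volume))
    rw [Lp.toTemperedDistribution_apply, integral_comp hi, SchwartzMap.fourier_coe]
  constructor
  · intro h i φ
    rw [← key, ← key2, h]
  · intro h
    ext1 φ
    refine PiLp.ext fun i => ?_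
    have := h i (𝓕⁻ φ)
    rw [← key, ← key2, FourierTransform.fourier_fourierInv_eq] at this
    exact this.symm

theorem ofReal_bound {c t σ a b : ℝ} (ht : 0 < t) (ha : 0 ≤ a) (hab : a ≤ b) :
    ENNReal.ofReal (c / t ^ σ * a) ≤ ENNReal.ofReal (|c| / t ^ σ * b) := by
  have := Real.rpow_pos_of_pos ht σ
  exact ENNReal.ofReal_le_ofReal (mul_le_mul
    (div_le_div_of_nonneg_right (le_abs_self c) this.le) hab ha (by positivity))

theorem pdecay_iff {ν : ℝ → Matrix (Fin 2) (Fin 2) ℂ} {B : ℝ}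
    (hmeas : StronglyMeasurable fun s => op (ν s)) (hB : ∀ s, ‖op (ν s)‖ ≤ B) (r σ : ℝ) :
    PDecay ν r σ ↔ Decay ν r σ := by
  constructor
  · rintro ⟨c, h⟩
    refine ⟨|c| * 4, fun A hA g hg t ht => ?_⟩
    have hgi := L1.integrable_coeFn g
    have h1 := h _ ((psol_iff hmeas hB A).1 hA) (fun i x => g x i) (fun i => hgi.eval_piLp i)
      ((mult_comp_iff r _ g).1 hg) t ht
    have h2 : ∀ i : Fin 2, ∫ x, ‖g x i‖ ≤ ‖g‖ := fun i => by
      rw [L1.norm_eq_integral_norm]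
      exact integral_mono (hgi.eval_piLp i).norm hgi.norm fun x => PiLp.norm_apply_le (g x) i
    have h3 : ∑ j : Fin 2, ∫ x, ‖g x j‖ ≤ 2 * ‖g‖ := by
      rw [Fin.sum_univ_two]; linarith [h2 0, h2 1]
    have h4 := fun i => (h1 i).trans (ofReal_bound ht
      (Finset.sum_nonneg fun j _ => integral_nonneg fun x => norm_nonneg _) h3)
    refine (eLpNorm_le_add (Lp.aestronglyMeasurable _) le_top).trans
      ((add_le_add (h4 0) (h4 1)).trans (le_of_eq ?_))
    have := Real.rpow_pos_of_pos ht σ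
    rw [← ENNReal.ofReal_add (by positivity) (by positivity)]
    congr 1
    ring
  · rintro ⟨c, h⟩
    refine ⟨|c|, fun α hα g hg hm t ht i => ?_⟩
    obtain ⟨A, hA, e⟩ := hα.lift hmeas hB
    have hg1 : ∀ i, MemLp (g i) 1 volume := fun i => memLp_one_iff_integrable.2 (hg i)
    have h1 := h A hA ((memLp_vec hg1).toLp _) ((mult_comp_iff r _ _).2 fun i φ => by
      have := hm i φ
      refine (integral_congr_ae ?_).trans (this.trans (integral_congr_ae ?_))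
      · filter_upwards [toLp_vec hg1 i] with x hx
        rw [hx]
      · filter_upwards [e 0 le_rfl i] with x hx
        rw [hx]
        rfl) t ht
    rw [← eLpNorm_congr_ae (e t ht.le i)]
    refine (eLpNorm_comp_le _ _ i).trans (h1.trans (ofReal_bound ht (norm_nonneg _) ?_))
    rw [L1.norm_eq_integral_norm, Fin.sum_univ_two, ← integral_add (hg 0).norm (hg 1).norm]
    refine integral_mono_ae (L1.integrable_coeFn _).norm ((hg 0).norm.add (hg 1).norm) ?_
    filter_upwards [(memLp_vec hg1).coeFn_toLp] with x hx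
    rw [hx]
    exact norm_le_add _

theorem op_eq (A : Matrix (Fin 2) (Fin 2) ℂ) :
    op A = ∑ i, ∑ j, A i j • op (Matrix.single i j 1) := by
  conv_lhs => rw [Matrix.matrix_eq_sum_single A]
  simp only [op, map_sum, ← map_smul, Matrix.smul_single, smul_eq_mul, mul_one]

theorem plain_main (ε : ℝ) (hε : 0 < ε) :
    ∃ (ν : ℝ → Matrix (Fin 2) (Fin 2) ℂ) (T : ℝ), 0 < T ∧ Function.Periodic ν T ∧
      (∀ i j, Measurable fun t => ν t i j) ∧ (∃ B : ℝ, ∀ t i j, ‖ν t i j‖ ≤ B) ∧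
      (∀ t, (ν t).IsHermitian) ∧
      (∀ f : Fin 2 → ℝ → ℂ, (∀ i, MemLp (f i) 2 volume) → ∃ α, PSol ν α ∧
        (∀ i, α 0 i =ᵐ[volume] f i) ∧ ∀ β, PSol ν β → (∀ i, β 0 i =ᵐ[volume] f i) →
          ∀ t, 0 ≤ t → ∀ i, β t i =ᵐ[volume] α t i) ∧
      (∃ r σ : ℝ, 0 ≤ r ∧ 0 < σ ∧ PDecay ν r σ) ∧
      ∀ r σ : ℝ, 0 ≤ r → 0 < σ → PDecay ν r σ → σ ≤ ε := by
  obtain ⟨ν, T, hT, hper, hmeas, ⟨B, hB⟩, hherm, hex, hpos, hneg⟩ := main ε hε
  have hm : StronglyMeasurable fun s => op (ν s) := by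
    have : (fun s => op (ν s)) = fun s => ∑ i, ∑ j, ν s i j • op (Matrix.single i j 1) :=
      funext fun s => op_eq _
    rw [this]
    exact Finset.stronglyMeasurable_fun_sum _ fun i _ => Finset.stronglyMeasurable_fun_sum _
      fun j _ => (hmeas i j).stronglyMeasurable.smul_const _
  have hb : ∀ s, ‖op (ν s)‖ ≤ ∑ i : Fin 2, ∑ j : Fin 2, B * ‖op (Matrix.single i j 1)‖ := by
    intro s
    rw [op_eq]
    refine norm_sum_le_of_le _ fun i _ => norm_sum_le_of_le _ fun j _ => ?_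
    rw [norm_smul]
    exact mul_le_mul_of_nonneg_right (hB s i j) (norm_nonneg _)
  refine ⟨ν, T, hT, hper, hmeas, ⟨B, hB⟩, hherm, fun f hf => ?_, ?_, ?_⟩
  · obtain ⟨A, hA, h0, hu⟩ := hex ((memLp_vec hf).toLp _)
    refine ⟨fun t i x => A t x i, (psol_iff hm hb A).1 hA, fun i => ?_, fun β hβ e t ht i => ?_⟩
    · simp only [h0]
      exact toLp_vec hf i
    · obtain ⟨A', hA', e'⟩ := hβ.lift hm hb
      have := hu A' hA' (Lp_ext fun i => ((e' 0 le_rfl i).trans (e i)).trans (toLp_vec hf i).symm)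
        t ht
      simp only [← this]
      exact (e' t ht i).symm
  · simpa only [pdecay_iff hm hb] using hpos
  · simpa only [pdecay_iff hm hb] using hneg

end Pool.Agent.Lib.MP_24bb3f_an
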